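import Pool.Agent.Lib.UMB.R.Defs

set_option autoImplicit false

/-!
# UMB.R chunk B2: the length of the gradient near the outer sphere
-/

open Filter Topology Set MeasureTheory
open scoped ContDiff

namespace UMB.R

open Pool.Agent.Lib.PenroseSph (E3 Tens pd trg)
open UMB.Lin (Ann cAnn sig)

/-- **B2a.** `g⁻¹ - 1 = g⁻¹ (1 - g)`, `|(g x)⁻¹ i k| ≤ Λ` (`Cmp.inv`), `|1 - g| ≤ Cg/|x|`. -/
theorem inv_near {g : Tens} {a Λ Cg : ℝ} (hg : AF g a) (hc : E.Cmp g Λ)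
    (hd : ∀ x : E3, 1 ≤ ‖x‖ → ∀ i j, |g x i j - (1 : Matrix (Fin 3) (Fin 3) ℝ) i j| ≤ Cg / ‖x‖) {x : E3} (hx : 1 ≤ ‖x‖)
    (i j : Fin 3) : |(g x)⁻¹ i j - (1 : Matrix (Fin 3) (Fin 3) ℝ) i j| ≤ 3 * Λ * Cg / ‖x‖ := by
  have hmet := E.AF.met hg
  have hxa : x ∈ {x : E3 | a < ‖x‖} := hg.lt.trans_le hx
  have h1 : (g x)⁻¹ * g x = 1 := Matrix.nonsing_inv_mul _ (isUnit_iff_ne_zero.2 (hmet.det_pos hxa).ne')
  have h2 : (g x)⁻¹ - 1 = (g x)⁻¹ * (1 - g x) := by rw [mul_sub, mul_one, h1]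
  have h3 : (g x)⁻¹ i j - (1 : Matrix (Fin 3) (Fin 3) ℝ) i j =
      ∑ l, (g x)⁻¹ i l * ((1 : Matrix (Fin 3) (Fin 3) ℝ) l j - g x l j) := by
    have := congrFun (congrFun h2 i) j
    rw [Matrix.mul_apply] at this
    exact this
  rw [h3]
  calc |∑ l, (g x)⁻¹ i l * ((1 : Matrix (Fin 3) (Fin 3) ℝ) l j - g x l j)|
      ≤ ∑ l, |(g x)⁻¹ i l * ((1 : Matrix (Fin 3) (Fin 3) ℝ) l j - g x l j)| := Finset.abs_sum_le_sum_abs _ _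
    _ ≤ ∑ _l : Fin 3, Λ * (Cg / ‖x‖) := by
        refine Finset.sum_le_sum fun l _ => ?_
        rw [abs_mul, abs_sub_comm ((1 : Matrix (Fin 3) (Fin 3) ℝ) l j)]
        exact mul_le_mul (hc.inv x hx i l) (hd x hx l j) (abs_nonneg _) hc.pos.le
    _ = _ := by simp; ring

theorem b2_one (i j : Fin 3) : (1 : Matrix (Fin 3) (Fin 3) ℝ) i j = if i = j then 1 else 0 := Matrix.one_apply

/-- **B2.** `|x|³ pd i v = - Cv x_i + e_i`, `|e_i| ≤ K1`, `ρ = K1/cv`, `|x| ≥ R/2`: `|x|⁴ ∑ (pd i v)² = Cv² + δ1`,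
`|δ1| ≤ (6 Cv K1 + 3 K1²)/|x|`; `|x|⁴ |gsq - ∑ (pd i v)²| ≤ 27 Λ Cg (Cv + K1)²/|x|` (B2a); divide by `Cv² ≥ cv²`:
`||x|⁴ gsq/Cv² - 1| ≤ (6ρ + 3ρ² + 27 Λ Cg (1+ρ)²)/|x| ≤ 2 (...)/R`; `|x|⁴ eps²/Cv² ≤ R⁴ R⁻⁶/cv² ≤ 1/(cv² R)`. -/
theorem gve_near {Λ Cg K1 cv : ℝ} (hΛ : 0 ≤ Λ) (hCg : 0 ≤ Cg) (hK1 : 0 ≤ K1) (hcv : 0 < cv) : ∃ C : ℝ, 0 ≤ C ∧
    ∀ (g : Tens) (a R eps Cv : ℝ) (v : E3 → ℝ) (x : E3), AF g a → E.Cmp g Λ →
    (∀ x : E3, 1 ≤ ‖x‖ → ∀ i j, |g x i j - (1 : Matrix (Fin 3) (Fin 3) ℝ) i j| ≤ Cg / ‖x‖) → 2 ≤ R → R / 2 ≤ ‖x‖ → ‖x‖ ≤ R →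
    cv ≤ Cv → 0 < eps → eps ≤ 1 / R ^ 3 → (∀ i, |‖x‖ ^ 3 * pd i v x + Cv * x i| ≤ K1) →
    |(‖x‖ ^ 2 / Cv * gve g eps v x) ^ 2 - 1| ≤ C / R := by
  obtain ⟨ρ, hρ⟩ : ∃ ρ, ρ = K1 / cv := ⟨_, rfl⟩
  have hρ0 : 0 ≤ ρ := by rw [hρ]; positivity
  refine ⟨2 * (3 * ρ ^ 2 + 6 * ρ + 27 * Λ * Cg * (1 + ρ) ^ 2) + 1 / cv ^ 2, by positivity, ?_⟩
  intro g a R eps Cv v x hg hc hd hR hx1 hx2 hCv heps hepsR he
  obtain ⟨r, hr⟩ : ∃ r, r = ‖x‖ := ⟨_, rfl⟩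
  rw [← hr] at hx1 hx2 he ⊢
  have hR0 : 0 < R := by linarith
  have hr1 : 1 ≤ r := by linarith
  have hr0 : 0 < r := by linarith
  have hCv0 : 0 < Cv := hcv.trans_le hCv
  have hxn : 1 ≤ ‖x‖ := by rw [← hr]; exact hr1
  have hxa : x ∈ {x : E3 | a < ‖x‖} := hg.lt.trans_le hxn
  have hmet := E.AF.met hg
  have hgs : 0 ≤ gsq g v x := hmet.gsq_nonneg hxa
  have hgve : gve g eps v x ^ 2 = gsq g v x + eps ^ 2 := Real.sq_sqrt (by positivity)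
  -- the errors
  obtain ⟨u, hu⟩ : ∃ u : Fin 3 → ℝ, ∀ i, u i = pd i v x := ⟨_, fun _ => rfl⟩
  obtain ⟨e, hed⟩ : ∃ e : Fin 3 → ℝ, ∀ i, e i = r ^ 3 * pd i v x + Cv * x i := ⟨_, fun _ => rfl⟩
  have he1 : ∀ i, |e i| ≤ K1 := fun i => by rw [hed]; exact he i
  have hu3 : ∀ i, r ^ 3 * u i = e i - Cv * x i := fun i => by rw [hed, hu]; ring
  have hxi : ∀ i, |x i| ≤ r := fun i => by
    rw [hr]
    exact PiLp.norm_apply_le x i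
  have hxs : ∑ i, x i ^ 2 = r ^ 2 := by rw [hr, EuclideanSpace.real_norm_sq_eq]
  -- first sum
  have hS : r ^ 4 * ∑ i, u i ^ 2 = Cv ^ 2 + (∑ i, e i ^ 2 - 2 * Cv * ∑ i, e i * x i) / r ^ 2 := by
    have h1 : r ^ 6 * ∑ i, u i ^ 2 = ∑ i, e i ^ 2 - 2 * Cv * (∑ i, e i * x i) + Cv ^ 2 * r ^ 2 := by
      rw [← hxs]
      calc r ^ 6 * ∑ i, u i ^ 2 = ∑ i, (r ^ 3 * u i) ^ 2 := by
            rw [Finset.mul_sum]
            exact Finset.sum_congr rfl fun i _ => by ring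
        _ = ∑ i, (e i - Cv * x i) ^ 2 := Finset.sum_congr rfl fun i _ => by rw [hu3]
        _ = _ := by simp only [Fin.sum_univ_three]; ring
    have h2 : r ^ 4 * ∑ i, u i ^ 2 = (r ^ 6 * ∑ i, u i ^ 2) / r ^ 2 := by field_simp
    rw [h2, h1]
    field_simp
    ring
  have hd1 : |(∑ i, e i ^ 2 - 2 * Cv * ∑ i, e i * x i) / r ^ 2| ≤ (3 * K1 ^ 2 + 6 * Cv * K1) / r := by
    have h1 : |∑ i, e i ^ 2| ≤ 3 * K1 ^ 2 := by
      rw [abs_of_nonneg (Finset.sum_nonneg fun i _ => sq_nonneg _)]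
      calc ∑ i, e i ^ 2 ≤ ∑ _i : Fin 3, K1 ^ 2 := by
            refine Finset.sum_le_sum fun i _ => ?_
            rw [← sq_abs]
            exact pow_le_pow_left₀ (abs_nonneg _) (he1 i) 2
        _ = _ := by simp
    have h2 : |∑ i, e i * x i| ≤ 3 * (K1 * r) := by
      calc |∑ i, e i * x i| ≤ ∑ i, |e i * x i| := Finset.abs_sum_le_sum_abs _ _
        _ ≤ ∑ _i : Fin 3, K1 * r := by
            refine Finset.sum_le_sum fun i _ => ?_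
            rw [abs_mul]
            exact mul_le_mul (he1 i) (hxi i) (abs_nonneg _) hK1
        _ = _ := by simp
    rw [abs_div, abs_of_pos (by positivity : 0 < r ^ 2), div_le_div_iff₀ (by positivity) hr0]
    have h3 : |∑ i, e i ^ 2 - 2 * Cv * ∑ i, e i * x i| ≤ 3 * K1 ^ 2 + 2 * Cv * (3 * (K1 * r)) := by
      calc |∑ i, e i ^ 2 - 2 * Cv * ∑ i, e i * x i| ≤ |∑ i, e i ^ 2| + |2 * Cv * ∑ i, e i * x i| := abs_sub _ _
        _ ≤ 3 * K1 ^ 2 + 2 * Cv * (3 * (K1 * r)) := by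
            rw [abs_mul, abs_of_pos (by positivity : 0 < 2 * Cv)]
            have := mul_le_mul_of_nonneg_left h2 (by positivity : 0 ≤ 2 * Cv)
            linarith
    calc |∑ i, e i ^ 2 - 2 * Cv * ∑ i, e i * x i| * r ≤ (3 * K1 ^ 2 + 2 * Cv * (3 * (K1 * r))) * r :=
          mul_le_mul_of_nonneg_right h3 hr0.le
      _ ≤ (3 * K1 ^ 2 + 6 * Cv * K1) * r ^ 2 := by
          have h4 : 3 * K1 ^ 2 * r ≤ 3 * K1 ^ 2 * r ^ 2 := by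
            apply mul_le_mul_of_nonneg_left _ (by positivity)
            nlinarith
          nlinarith
  -- second sum
  have hui : ∀ i, |u i| ≤ (K1 + Cv) / r ^ 2 := by
    intro i
    rw [le_div_iff₀ (by positivity)]
    have h1 : |r ^ 3 * u i| ≤ K1 + Cv * r := by
      rw [hu3]
      calc |e i - Cv * x i| ≤ |e i| + |Cv * x i| := abs_sub _ _
        _ ≤ K1 + Cv * r := by
            rw [abs_mul, abs_of_pos hCv0]
            exact add_le_add (he1 i) (mul_le_mul_of_nonneg_left (hxi i) hCv0.le)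
    rw [abs_mul, abs_of_pos (by positivity : 0 < r ^ 3)] at h1
    have h2 : |u i| * r ^ 2 * r ≤ (K1 + Cv) * r := by
      have : K1 ≤ K1 * r := le_mul_of_one_le_right hK1 hr1
      nlinarith
    exact le_of_mul_le_mul_right h2 hr0
  have hq : gsq g v x - ∑ i, u i ^ 2 = ∑ i, ∑ j, ((g x)⁻¹ i j - (1 : Matrix (Fin 3) (Fin 3) ℝ) i j) * u i * u j := by
    unfold gsq gradU
    simp only [hu, b2_one]
    simp only [Fin.sum_univ_three, if_true, if_neg (show ¬ ((0 : Fin 3) = 1) by decide),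
      if_neg (show ¬ ((0 : Fin 3) = 2) by decide), if_neg (show ¬ ((1 : Fin 3) = 0) by decide),
      if_neg (show ¬ ((1 : Fin 3) = 2) by decide), if_neg (show ¬ ((2 : Fin 3) = 0) by decide),
      if_neg (show ¬ ((2 : Fin 3) = 1) by decide)]
    ring
  have hd2 : r ^ 4 * |gsq g v x - ∑ i, u i ^ 2| ≤ 27 * Λ * Cg * (K1 + Cv) ^ 2 / r := by
    rw [hq]
    have h1 : |∑ i, ∑ j, ((g x)⁻¹ i j - (1 : Matrix (Fin 3) (Fin 3) ℝ) i j) * u i * u j| ≤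
        ∑ _i : Fin 3, ∑ _j : Fin 3, 3 * Λ * Cg / r * ((K1 + Cv) / r ^ 2) * ((K1 + Cv) / r ^ 2) := by
      refine (Finset.abs_sum_le_sum_abs _ _).trans (Finset.sum_le_sum fun i _ => ?_)
      refine (Finset.abs_sum_le_sum_abs _ _).trans (Finset.sum_le_sum fun j _ => ?_)
      rw [abs_mul, abs_mul]
      have h2 := inv_near hg hc hd hxn i j
      rw [← hr] at h2
      exact mul_le_mul (mul_le_mul h2 (hui i) (abs_nonneg _) (by positivity)) (hui j) (abs_nonneg _) (by positivity)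
    calc r ^ 4 * |∑ i, ∑ j, ((g x)⁻¹ i j - (1 : Matrix (Fin 3) (Fin 3) ℝ) i j) * u i * u j|
        ≤ r ^ 4 * ∑ _i : Fin 3, ∑ _j : Fin 3, 3 * Λ * Cg / r * ((K1 + Cv) / r ^ 2) * ((K1 + Cv) / r ^ 2) :=
          mul_le_mul_of_nonneg_left h1 (by positivity)
      _ = _ := by
          simp only [Finset.sum_const, Finset.card_univ, Fintype.card_fin, nsmul_eq_mul]
          push_cast
          field_simp
          ring
  -- eps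
  have hd3 : r ^ 4 * eps ^ 2 ≤ 1 / R := by
    have h1 : r ^ 4 ≤ R ^ 4 := pow_le_pow_left₀ hr0.le hx2 4
    have h2 : eps ^ 2 ≤ (1 / R ^ 3) ^ 2 := pow_le_pow_left₀ heps.le hepsR 2
    calc r ^ 4 * eps ^ 2 ≤ R ^ 4 * (1 / R ^ 3) ^ 2 := mul_le_mul h1 h2 (by positivity) (by positivity)
      _ = 1 / R ^ 2 := by field_simp
      _ ≤ 1 / R := by
          apply one_div_le_one_div_of_le hR0
          nlinarith
  -- assembly
  have hmain : (r ^ 2 / Cv * gve g eps v x) ^ 2 - 1 =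
      ((∑ i, e i ^ 2 - 2 * Cv * ∑ i, e i * x i) / r ^ 2 + r ^ 4 * (gsq g v x - ∑ i, u i ^ 2) + r ^ 4 * eps ^ 2) / Cv ^ 2 := by
    have h1 : (r ^ 2 / Cv * gve g eps v x) ^ 2 = r ^ 4 * (gsq g v x + eps ^ 2) / Cv ^ 2 := by
      rw [mul_pow, hgve, div_pow]
      ring
    have h2 : (∑ i, e i ^ 2 - 2 * Cv * ∑ i, e i * x i) / r ^ 2 = r ^ 4 * ∑ i, u i ^ 2 - Cv ^ 2 := by rw [hS]; ring
    rw [h1, h2]
    field_simp
    ring
  rw [hmain, abs_div, abs_of_pos (by positivity : 0 < Cv ^ 2), div_le_iff₀ (by positivity)]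
  have hKρ : K1 ≤ ρ * Cv := by
    rw [hρ]
    calc K1 = K1 / cv * cv := by field_simp
      _ ≤ K1 / cv * Cv := mul_le_mul_of_nonneg_left hCv (by positivity)
  have h1r : 1 / r ≤ 2 / R := by
    rw [div_le_div_iff₀ hr0 hR0]
    linarith
  have t1 : (3 * K1 ^ 2 + 6 * Cv * K1) / r ≤ 2 * (3 * ρ ^ 2 + 6 * ρ) / R * Cv ^ 2 := by
    have h2 : 3 * K1 ^ 2 + 6 * Cv * K1 ≤ (3 * ρ ^ 2 + 6 * ρ) * Cv ^ 2 := by
      have h3 : K1 ^ 2 ≤ (ρ * Cv) ^ 2 := pow_le_pow_left₀ hK1 hKρ 2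
      have h4 : Cv * K1 ≤ Cv * (ρ * Cv) := mul_le_mul_of_nonneg_left hKρ hCv0.le
      nlinarith
    calc (3 * K1 ^ 2 + 6 * Cv * K1) / r = (3 * K1 ^ 2 + 6 * Cv * K1) * (1 / r) := by ring
      _ ≤ ((3 * ρ ^ 2 + 6 * ρ) * Cv ^ 2) * (2 / R) := mul_le_mul h2 h1r (by positivity) (by positivity)
      _ = _ := by ring
  have t2 : 27 * Λ * Cg * (K1 + Cv) ^ 2 / r ≤ 2 * (27 * Λ * Cg * (1 + ρ) ^ 2) / R * Cv ^ 2 := by
    have h2 : (K1 + Cv) ^ 2 ≤ ((1 + ρ) * Cv) ^ 2 := pow_le_pow_left₀ (by positivity) (by linarith) 2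
    calc 27 * Λ * Cg * (K1 + Cv) ^ 2 / r = (27 * Λ * Cg * (K1 + Cv) ^ 2) * (1 / r) := by ring
      _ ≤ (27 * Λ * Cg * ((1 + ρ) * Cv) ^ 2) * (2 / R) := by gcongr
      _ = _ := by ring
  have t3 : 1 / R ≤ 1 / cv ^ 2 / R * Cv ^ 2 := by
    have h2 : 1 ≤ 1 / cv ^ 2 * Cv ^ 2 := by
      rw [one_div, ← div_eq_inv_mul, le_div_iff₀ (by positivity), one_mul]
      exact pow_le_pow_left₀ hcv.le hCv 2
    calc 1 / R = 1 / R * 1 := by ring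
      _ ≤ 1 / R * (1 / cv ^ 2 * Cv ^ 2) := mul_le_mul_of_nonneg_left h2 (by positivity)
      _ = _ := by ring
  calc |(∑ i, e i ^ 2 - 2 * Cv * ∑ i, e i * x i) / r ^ 2 + r ^ 4 * (gsq g v x - ∑ i, u i ^ 2) + r ^ 4 * eps ^ 2|
      ≤ |(∑ i, e i ^ 2 - 2 * Cv * ∑ i, e i * x i) / r ^ 2| + |r ^ 4 * (gsq g v x - ∑ i, u i ^ 2)| + |r ^ 4 * eps ^ 2| :=
        abs_add_three _ _ _
    _ = |(∑ i, e i ^ 2 - 2 * Cv * ∑ i, e i * x i) / r ^ 2| + r ^ 4 * |gsq g v x - ∑ i, u i ^ 2| + r ^ 4 * eps ^ 2 := by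
        rw [abs_mul (r ^ 4), abs_of_pos (by positivity : 0 < r ^ 4), abs_of_nonneg (by positivity : 0 ≤ r ^ 4 * eps ^ 2)]
    _ ≤ 2 * (3 * ρ ^ 2 + 6 * ρ) / R * Cv ^ 2 + 2 * (27 * Λ * Cg * (1 + ρ) ^ 2) / R * Cv ^ 2 + 1 / cv ^ 2 / R * Cv ^ 2 :=
        add_le_add (add_le_add (hd1.trans t1) (hd2.trans t2)) (hd3.trans t3)
    _ = _ := by ring

end UMB.R
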