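import Pool.Agent.Lib.UMB.R.B1
import Pool.Agent.Lib.UMB.R.B2

set_option autoImplicit false

/-!
# UMB.R chunk B3: the value of `√s` near the outer sphere
-/

open Filter Topology Set MeasureTheory
open scoped ContDiff

namespace UMB.R

open Pool.Agent.Lib.PenroseSph (E3 Tens pd trg)
open UMB.Lin (Ann cAnn sig)

/-- `|Y - 1| ≤ |Y² - 1|` for `Y ≥ 0`. -/
theorem b3_sub {Y : ℝ} (h : 0 ≤ Y) : |Y - 1| ≤ |Y ^ 2 - 1| := by
  have e : Y ^ 2 - 1 = (Y - 1) * (Y + 1) := by ring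
  rw [e, abs_mul]
  have : 1 ≤ |Y + 1| := by rw [abs_of_pos (by linarith)]; linarith
  exact le_mul_of_one_le_right (abs_nonneg _) this

/-- **B3.** `C = R e^(-F(0))`, `κ = Cv/R`, `X = C s`. For `|x| = R'` close to `R`: `X = E · (R/|x|)² · Y` with
`E = exp(θ - F(0)) κ/(K(v) + κ)` (`|E - 1| ≤ 1/R` by B1b), `(R/|x|)² ≤ 1 + 1/R` (choose `R'` close to `R`), `Y = |x|² gve/Cv`,
`|Y² - 1| ≤ C2/R` (B2), hence `|Y - 1| ≤ C2/R` (`Y ≥ 0`). So `|X - 1| ≤ C3/R` and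
`R' (√s - √(C⁻¹))² = (R'/C) (√X - 1)² ≤ (R/cq) (X - 1)² ≤ C3²/(cq R) ≤ 1` for `R` large. (`R' = max (3R/4) (R - s/2)` with `s` the
minimum of the numbers `s` of B1b, of the hypothesis and `1/8`.) -/
theorem bdry {Λ Cg K1 cv cq : ℝ} (hΛ : 0 ≤ Λ) (hCg : 0 ≤ Cg) (hK1 : 0 ≤ K1) (hcv : 0 < cv) (hcq : 0 < cq) :
    ∃ Rm : ℝ, ∀ (g : Tens) (a R : ℝ) (p0 : ℝ) (p : ℝ → ℝ) (κ eps Cv : ℝ) (v : E3 → ℝ), Rm ≤ R → AF g a → E.Cmp g Λ →
    (∀ x : E3, 1 ≤ ‖x‖ → ∀ i j, |g x i j - (1 : Matrix (Fin 3) (Fin 3) ℝ) i j| ≤ Cg / ‖x‖) → W.Expo p0 p →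
    cv ≤ Cv → κ = Cv / R → 0 < eps → eps ≤ 1 / R ^ 3 → ContinuousOn v (cAnn R) → (∀ x : E3, ‖x‖ = R → v x = 0) →
    (∀ x ∈ cAnn R, 0 ≤ v x) →
    (∃ s : ℝ, 0 < s ∧ ∀ x : E3, R - s < ‖x‖ → ‖x‖ < R → ∀ i, |‖x‖ ^ 3 * pd i v x + Cv * x i| ≤ K1) →
    cq ≤ R * Real.exp (-W.FF p κ 0) →
    ∃ R' : ℝ, 3 * R / 4 ≤ R' ∧ R' < R ∧ ∀ x : E3, ‖x‖ = R' →
      R' * (Real.sqrt (sv g p κ eps v x) - Real.sqrt (R * Real.exp (-W.FF p κ 0))⁻¹) ^ 2 ≤ 1 := by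
  obtain ⟨C2, hC2, h2⟩ := gve_near hΛ hCg hK1 hcv
  refine ⟨max 4 ((3 + 4 * C2) ^ 2 / cq), ?_⟩
  intro g a R p0 p κ eps Cv v hRm hg hc hd hp hCv hκ heps hepsR hcont hz h0 hs hcq2
  have hR4 : 4 ≤ R := (le_max_left _ _).trans hRm
  have hRC : (3 + 4 * C2) ^ 2 / cq ≤ R := (le_max_right _ _).trans hRm
  have hR0 : 0 < R := by linarith
  have hCv0 : 0 < Cv := hcv.trans_le hCv
  have hκ0 : 0 < κ := by rw [hκ]; positivity
  obtain ⟨s1, hs1, h3⟩ := fac_near hp hκ0 (by linarith : 1 < R) hcont hz h0 (ε := 1 / R) (by positivity)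
  obtain ⟨s2, hs2, h4⟩ := hs
  obtain ⟨t, ht⟩ : ∃ t, t = min (min s1 s2) (1 / 8) := ⟨_, rfl⟩
  have ht0 : 0 < t := by rw [ht]; exact lt_min (lt_min hs1 hs2) (by norm_num)
  have ht1 : t ≤ s1 := by rw [ht]; exact (min_le_left _ _).trans (min_le_left _ _)
  have ht2 : t ≤ s2 := by rw [ht]; exact (min_le_left _ _).trans (min_le_right _ _)
  have ht3 : t ≤ 1 / 8 := by rw [ht]; exact min_le_right _ _
  refine ⟨R - t / 2, by linarith, by linarith, ?_⟩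
  intro x hx
  obtain ⟨r, hr⟩ : ∃ r, r = ‖x‖ := ⟨_, rfl⟩
  have hr' : r = R - t / 2 := by rw [hr, hx]
  have hrR : r < R := by linarith
  have hr34 : 3 * R / 4 ≤ r := by linarith
  have hr0 : 0 < r := by linarith
  have hxA : x ∈ cAnn R := ⟨by rw [← hr]; linarith, by rw [← hr]; linarith⟩
  have hE := h3 x (by rw [← hr]; linarith) (by rw [← hr]; linarith)
  have hY2 := h2 g a R eps Cv v x hg hc hd (by linarith) (by rw [← hr]; linarith) (by rw [← hr]; linarith) hCv heps hepsR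
    (h4 x (by rw [← hr]; linarith) (by rw [← hr]; linarith))
  rw [← hr] at hY2
  obtain ⟨Ef, hEf⟩ : ∃ Ef, Ef = Real.exp (W.theta p κ v x - W.FF p κ 0) * (κ / (W.KK p (v x) + κ)) := ⟨_, rfl⟩
  obtain ⟨Y, hY⟩ : ∃ Y, Y = r ^ 2 / Cv * gve g eps v x := ⟨_, rfl⟩
  have hw : 0 < W.KK p (v x) + κ := by
    have := (W.KK_bd hp (h0 x hxA)).1
    have := h0 x hxA
    linarith
  have hgve0 : 0 ≤ gve g eps v x := Real.sqrt_nonneg _
  have hY0 : 0 ≤ Y := by rw [hY]; positivity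
  rw [← hEf] at hE
  rw [← hY] at hY2
  have hY1 : |Y - 1| ≤ C2 / R := (b3_sub hY0).trans hY2
  have hEf0 : 0 < Ef := by rw [hEf]; positivity
  obtain ⟨C, hC⟩ : ∃ C, C = R * Real.exp (-W.FF p κ 0) := ⟨_, rfl⟩
  rw [← hC] at hcq2 ⊢
  have hC0 : 0 < C := hcq.trans_le hcq2
  obtain ⟨X, hX⟩ : ∃ X, X = C * sv g p κ eps v x := ⟨_, rfl⟩
  have hXe : X = Ef * (R / r) ^ 2 * Y := by
    rw [hX, hC, hEf, hY, sub_eq_add_neg, Real.exp_add]
    unfold sv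
    rw [hκ]
    have hw' : W.KK p (v x) + Cv / R ≠ 0 := by rw [← hκ]; exact hw.ne'
    field_simp
  -- the ratio
  have hρ1 : 1 ≤ (R / r) ^ 2 := by
    apply one_le_pow₀
    rw [le_div_iff₀ hr0]
    linarith
  have hρ2 : (R / r) ^ 2 - 1 ≤ 1 / R := by
    have e : (R / r) ^ 2 - 1 = (R - r) * (R + r) / r ^ 2 := by field_simp; ring
    rw [e, div_le_div_iff₀ (by positivity) hR0]
    have h5 : R - r = t / 2 := by linarith
    have h6 : (3 * R / 4) ^ 2 ≤ r ^ 2 := pow_le_pow_left₀ (by positivity) hr34 2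
    rw [h5]
    have h7 : t / 2 * (R + r) * R ≤ 1 / 16 * (2 * R) * R := by
      apply mul_le_mul_of_nonneg_right _ hR0.le
      apply mul_le_mul (by linarith) (by linarith) (by positivity) (by norm_num)
    nlinarith
  have hR1 : 1 / R ≤ 1 := by rw [div_le_one hR0]; linarith
  have hYb : Y ≤ 1 + C2 := by
    have h5 := (abs_le.1 hY1).2
    have h6 : C2 / R ≤ C2 := div_le_self hC2 (by linarith)
    linarith
  have hX1 : |X - 1| ≤ (3 + 4 * C2) / R := by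
    have e : X - 1 = (Ef - 1) * ((R / r) ^ 2 * Y) + ((R / r) ^ 2 - 1) * Y + (Y - 1) := by rw [hXe]; ring
    rw [e]
    have a1 : |(Ef - 1) * ((R / r) ^ 2 * Y)| ≤ 1 / R * (2 * (1 + C2)) := by
      rw [abs_mul]
      apply mul_le_mul hE _ (abs_nonneg _) (by positivity)
      rw [abs_of_nonneg (by positivity)]
      exact mul_le_mul (by linarith) hYb hY0 (by norm_num)
    have a2 : |((R / r) ^ 2 - 1) * Y| ≤ 1 / R * (1 + C2) := by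
      rw [abs_mul, abs_of_nonneg (by linarith : 0 ≤ (R / r) ^ 2 - 1), abs_of_nonneg hY0]
      exact mul_le_mul hρ2 hYb hY0 (by positivity)
    calc |(Ef - 1) * ((R / r) ^ 2 * Y) + ((R / r) ^ 2 - 1) * Y + (Y - 1)|
        ≤ |(Ef - 1) * ((R / r) ^ 2 * Y)| + |((R / r) ^ 2 - 1) * Y| + |Y - 1| := abs_add_three _ _ _
      _ ≤ 1 / R * (2 * (1 + C2)) + 1 / R * (1 + C2) + C2 / R := add_le_add (add_le_add a1 a2) hY1
      _ = (3 + 4 * C2) / R := by ring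
  have hX0 : 0 ≤ X := by rw [hXe]; positivity
  have hsv : sv g p κ eps v x = X * C⁻¹ := by rw [hX]; field_simp
  have hsq : Real.sqrt (sv g p κ eps v x) - Real.sqrt C⁻¹ = (Real.sqrt X - 1) * Real.sqrt C⁻¹ := by
    rw [hsv, Real.sqrt_mul hX0]
    ring
  rw [hsq, mul_pow, Real.sq_sqrt (by positivity)]
  have h5 : (Real.sqrt X - 1) ^ 2 ≤ (X - 1) ^ 2 := by
    have h6 := b3_sub (Real.sqrt_nonneg X)
    rw [Real.sq_sqrt hX0] at h6
    exact sq_le_sq.2 h6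
  have h7 : (X - 1) ^ 2 ≤ ((3 + 4 * C2) / R) ^ 2 := by
    rw [← sq_abs]
    exact pow_le_pow_left₀ (abs_nonneg _) hX1 2
  have h8 : C⁻¹ ≤ cq⁻¹ := inv_anti₀ hcq hcq2
  have h9 : 0 ≤ R - t / 2 := by linarith
  calc (R - t / 2) * ((Real.sqrt X - 1) ^ 2 * C⁻¹) ≤ R * (((3 + 4 * C2) / R) ^ 2 * cq⁻¹) := by
        apply mul_le_mul (by linarith) _ (by positivity) hR0.le
        exact mul_le_mul (h5.trans h7) h8 (by positivity) (by positivity)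
    _ = ((3 + 4 * C2) ^ 2 / cq) / R := by field_simp
    _ ≤ 1 := by rw [div_le_one hR0]; exact hRC

end UMB.R
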