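import Pool.Agent.Lib.UMB.R.E5
import Pool.Agent.Lib.UMB.R.B3
import Pool.Agent.Lib.UMB.Far.T5
import Pool.Agent.Lib.UMB.FL.Top
import Pool.Agent.Lib.UMB.E.Q1
import Pool.Agent.Lib.UMB.BR.LF
import Pool.Agent.Lib.UMB.B.Top
import Pool.Agent.Lib.UMB.Asm.FA

set_option autoImplicit false

/-!
# UMB.R: the theorem `R3` in the form used by the assembly
-/

open Filter Topology Set MeasureTheory
open scoped ContDiff

namespace UMB.R

open Pool.Agent.Lib.PenroseSph (E3 Tens pd trg)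
open UMB.Lin (Ann cAnn sig)

/-- Upper bound of the harmonic constant. -/
theorem top_Cv {P : Par} (hP : P.Ok) (hR : 16 * P.R1 ≤ P.R) {v : E3 → ℝ} (hsol : W.Sol P.op v)
    (hpos : ∀ x : E3, 1 < ‖x‖ → ‖x‖ < P.R → 0 < v x)
    (hv1 : ∀ x : E3, P.R1 / 2 ≤ ‖x‖ → ‖x‖ ≤ P.R → v x ≤ P.v1) : P.Cv v ≤ 8 * Far.CH * P.R1 * P.v1 := by
  obtain ⟨-, -, c3, -⟩ := Far.far_zone hP hR hsol hpos hv1
  have hR1 : 0 < P.R1 := by linarith [hP.r1_ge, hP.R1_ge]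
  have hR0 : 0 < P.R := by linarith
  have hCH : 0 < Far.CH := Real.exp_pos _
  obtain ⟨x0, hx0⟩ : ∃ x0 : E3, ‖x0‖ = 4 * P.R1 := by
    refine ⟨EuclideanSpace.single 0 (4 * P.R1), ?_⟩
    rw [PiLp.norm_single, Real.norm_eq_abs, abs_of_pos (by linarith)]
  have h1 := (c3 x0 (by rw [hx0]) (by rw [hx0]; linarith)).1
  have h2 := hv1 x0 (by rw [hx0]; linarith) (by rw [hx0]; linarith)
  rw [hx0] at h1
  have h3 : 1 / (8 * P.R1) ≤ 1 / (4 * P.R1) - 1 / P.R := by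
    have h4 : 1 / P.R ≤ 1 / (8 * P.R1) := one_div_le_one_div_of_le (by linarith) (by linarith)
    have h5 : 1 / (4 * P.R1) = 1 / (8 * P.R1) + 1 / (8 * P.R1) := by field_simp; norm_num
    linarith
  have hCv : 0 ≤ P.Cv v := (Far.far_zone hP hR hsol hpos hv1).1.le
  have h6 : P.Cv v / Far.CH * (1 / (8 * P.R1)) ≤ P.v1 :=
    ((mul_le_mul_of_nonneg_left h3 (by positivity)).trans h1).trans h2
  have h7 : P.Cv v / Far.CH * (1 / (8 * P.R1)) = P.Cv v / (8 * Far.CH * P.R1) := by field_simp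
  rw [h7, div_le_iff₀ (by positivity)] at h6
  linarith

/-- The gradient in a layer near the outer sphere. -/
theorem top_layer {P : Par} (hP : P.Ok) (hR : 16 * P.R1 ≤ P.R) {v : E3 → ℝ} (hsol : W.Sol P.op v)
    (hpos : ∀ x : E3, 1 < ‖x‖ → ‖x‖ < P.R → 0 < v x)
    (hv1 : ∀ x : E3, P.R1 / 2 ≤ ‖x‖ → ‖x‖ ≤ P.R → v x ≤ P.v1) :
    ∃ s : ℝ, 0 < s ∧ ∀ x : E3, P.R - s < ‖x‖ → ‖x‖ < P.R → ∀ i,
      |‖x‖ ^ 3 * pd i v x + P.Cv v * x i| ≤ 6144 * Far.CH * (8 * Far.CH * P.R1 * P.v1) * P.R1 + 1 := by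
  obtain ⟨c1, -, -, c4⟩ := Far.far_zone hP hR hsol hpos hv1
  have hCvle := top_Cv hP hR hsol hpos hv1
  have hR1 : 0 < P.R1 := by linarith [hP.r1_ge, hP.R1_ge]
  have hR0 : 0 < P.R := by linarith
  have hR1' : 1 ≤ P.R := by linarith [hP.r1_ge, hP.R1_ge]
  have hCH : 0 < Far.CH := Real.exp_pos _
  obtain ⟨U, hUo, hKU, hvU⟩ := hsol.near
  obtain ⟨B, hB⟩ : ∃ B : ℝ, B = 6144 * Far.CH * (8 * Far.CH * P.R1 * P.v1) * P.R1 := ⟨_, rfl⟩
  have hbd : ∀ x : E3, ‖x‖ = P.R → ∀ i, |‖x‖ ^ 3 * pd i v x + P.Cv v * x i| ≤ B := by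
    intro x hx i
    obtain ⟨h1, -, h2⟩ := c4 x hx
    have hxi : |x i| ≤ P.R := by
      rw [← hx]
      have := EuclideanSpace.norm_eq x
      have h3 : |x i| ^ 2 ≤ ‖x‖ ^ 2 := by
        rw [EuclideanSpace.real_norm_sq_eq, sq_abs]
        exact Finset.single_le_sum (f := fun j => x j ^ 2) (fun j _ => sq_nonneg _) (Finset.mem_univ i)
      exact le_of_sq_le_sq h3 (norm_nonneg x)
    have e : ‖x‖ ^ 3 * pd i v x + P.Cv v * x i = x i * P.R ^ 2 * (Far.dr v x + P.Cv v / P.R ^ 2) := by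
      rw [h1 i, hx]
      field_simp
    rw [e, abs_mul, abs_mul, abs_of_pos (pow_pos hR0 2)]
    calc |x i| * P.R ^ 2 * |Far.dr v x + P.Cv v / P.R ^ 2|
        ≤ P.R * P.R ^ 2 * (6144 * Far.CH * P.Cv v * P.R1 / P.R ^ 3) := by
          apply mul_le_mul _ h2 (abs_nonneg _) (by positivity)
          exact mul_le_mul_of_nonneg_right hxi (by positivity)
      _ = 6144 * Far.CH * P.Cv v * P.R1 := by field_simp
      _ ≤ B := by
          rw [hB]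
          apply mul_le_mul_of_nonneg_right _ hR1.le
          exact mul_le_mul_of_nonneg_left hCvle (by positivity)
  have hcont : ∀ x : E3, ‖x‖ = P.R → ∀ i, ContinuousAt (fun y : E3 => |‖y‖ ^ 3 * pd i v y + P.Cv v * y i|) x := by
    intro x hx i
    have hxU : x ∈ U := hKU ⟨by rw [hx]; exact hR1', hx.le⟩
    have h1 : ContDiffAt ℝ 3 v x := (hvU x hxU).contDiffAt (hUo.mem_nhds hxU)
    have h2 : ContDiffAt ℝ 2 (fderiv ℝ v) x := h1.fderiv_right (m := 2) (by norm_num)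
    have h3 : ContinuousAt (pd i v) x := h2.continuousAt.clm_apply continuousAt_const
    have h4 : ContinuousAt (fun y : E3 => y i) x := (EuclideanSpace.proj i : E3 →L[ℝ] ℝ).continuous.continuousAt
    exact (((continuous_norm.continuousAt.pow 3).mul h3).add (continuousAt_const.mul h4)).abs
  have hsub : Metric.sphere (0 : E3) P.R ⊆ interior {x : E3 | ∀ i, |‖x‖ ^ 3 * pd i v x + P.Cv v * x i| < B + 1} := by
    intro x hx
    have hx' : ‖x‖ = P.R := by rwa [mem_sphere_zero_iff_norm] at hx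
    rw [mem_interior_iff_mem_nhds]
    have : ∀ᶠ y in 𝓝 x, ∀ i, |‖y‖ ^ 3 * pd i v y + P.Cv v * y i| < B + 1 := by
      rw [Filter.eventually_all]
      intro i
      exact (hcont x hx' i).eventually (gt_mem_nhds (by linarith [hbd x hx' i]))
    exact this
  obtain ⟨s, hs, hth⟩ := (isCompact_sphere (0 : E3) P.R).exists_thickening_subset_open isOpen_interior hsub
  refine ⟨min s P.R, lt_min hs hR0, fun x h1 h2 i => ?_⟩
  have h3 : 0 < ‖x‖ := by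
    have := min_le_right s P.R
    linarith
  have h4 : x ∈ interior {x : E3 | ∀ i, |‖x‖ ^ 3 * pd i v x + P.Cv v * x i| < B + 1} := by
    apply hth
    rw [Metric.mem_thickening_iff]
    refine ⟨(P.R / ‖x‖) • x, ?_, ?_⟩
    · rw [mem_sphere_zero_iff_norm, norm_smul, Real.norm_eq_abs, abs_of_pos (by positivity)]
      field_simp
    · rw [dist_eq_norm]
      have e : x - (P.R / ‖x‖) • x = (1 - P.R / ‖x‖) • x := by rw [sub_smul, one_smul]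
      rw [e, norm_smul, Real.norm_eq_abs]
      have e2 : |1 - P.R / ‖x‖| * ‖x‖ = |‖x‖ - P.R| := by
        have : ‖x‖ - P.R = (1 - P.R / ‖x‖) * ‖x‖ := by field_simp
        rw [this, abs_mul, abs_norm]
      rw [e2, abs_lt]
      have := min_le_left s P.R
      constructor <;> linarith
  rw [← hB]
  exact ((interior_subset h4 : x ∈ {x : E3 | ∀ i, |‖x‖ ^ 3 * pd i v x + P.Cv v * x i| < B + 1}) i).le

/-- `P.m` is the integral over the shell of `In`. -/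
theorem top_m (P : Par) (v : E3 → ℝ) : P.m v = mI P v := by
  unfold Par.m mI Par.mm
  simp only [one_div]

/-- `P.D` is the energy. -/
theorem top_D (P : Par) (v : E3 → ℝ) : P.D v = E.En P.g P.k P.R (P.th v) := by
  unfold Par.D E.En E.enD
  refine integral_congr_ae (Eventually.of_forall fun x => ?_)
  show Real.exp (P.th v x) * MhSq P.g P.k (P.th v) x / P.y v x * vol P.g x = _
  rw [mul_div_assoc]
  rfl

/-- `Err ≥ 0`. -/
theorem top_Err {P : Par} {v : E3 → ℝ} (hP : P.Ok) (hκ : 0 < P.kap v) (hv : W.Sol P.op v) : 0 ≤ P.Err v := by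
  unfold Par.Err
  refine setIntegral_nonneg (meas_shell hv.smooth) fun x hx => ?_
  have hxA : x ∈ Ann P.R := hx.2
  have h0 : 0 ≤ v x := hv.nonneg x ⟨hxA.1.le, hxA.2.le⟩
  have hR : 0 < P.R := by linarith [hP.one_lt_R]
  have hCC : 0 < P.CC v := mul_pos hR (Real.exp_pos _)
  have hw : 0 < P.ww v (v x) := W.e1_pos hP.expo hκ h0
  have hgv : 0 ≤ P.gv v x := Real.sqrt_nonneg _
  have hs : 0 ≤ P.s v x := by
    unfold Par.s
    positivity
  have hvol : 0 ≤ vol P.g x := Real.sqrt_nonneg _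
  have h1 : 0 ≤ (P.CC v * P.s v x) ^ (P.b (v x) + 1) := Real.rpow_nonneg (by positivity) _
  positivity

/-- The hypotheses `In`. -/
theorem top_in {Λ K Cg Cz cq N Cq M Dm Rm : ℝ} (hcq : 0 < cq) (hCq : 0 < Cq) (hN : 0 ≤ N)
    (Hz : ∀ (P : Par) (v : E3 → ℝ), P.Ok → AF P.g P.a → Far.Dec P.g Cg → W.Sol P.op v →
      (∀ x : E3, 1 < ‖x‖ → ‖x‖ < P.R → 0 < v x) → (∀ x : E3, P.R1 / 2 ≤ ‖x‖ → ‖x‖ ≤ P.R → v x ≤ P.v1) →
      Cz * P.R1 ≤ P.R → ∃ s : ℝ, 0 < s ∧ ∀ x : E3, P.R - s < ‖x‖ → ‖x‖ ≤ P.R → P.y v x ≤ 4 / P.R)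
    {P : Par} {v : E3 → ℝ} (hP : P.Ok) (hg : AF P.g P.a) (hc : E.Cmp P.g Λ) (hdec : Far.Dec P.g Cg)
    (hkk : E.Kk P.g P.k P.a) (hkb : ∀ x : E3, 1 ≤ ‖x‖ → ∀ i j, |P.k x i j| ≤ K / ‖x‖ ^ 2)
    (hRm : ∀ (g : Tens) (a R : ℝ) (p0 : ℝ) (p : ℝ → ℝ) (κ eps Cv : ℝ) (v : E3 → ℝ), Rm ≤ R → AF g a → E.Cmp g Λ →
      (∀ x : E3, 1 ≤ ‖x‖ → ∀ i j, |g x i j - (1 : Matrix (Fin 3) (Fin 3) ℝ) i j| ≤ |Cg| / ‖x‖) → W.Expo p0 p →
      cq * P.v1 ≤ Cv → κ = Cv / R → 0 < eps → eps ≤ 1 / R ^ 3 → ContinuousOn v (cAnn R) →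
      (∀ x : E3, ‖x‖ = R → v x = 0) → (∀ x ∈ cAnn R, 0 ≤ v x) →
      (∃ s : ℝ, 0 < s ∧ ∀ x : E3, R - s < ‖x‖ → ‖x‖ < R → ∀ i, |‖x‖ ^ 3 * pd i v x + Cv * x i| ≤
        6144 * Far.CH * (8 * Far.CH * P.R1 * P.v1) * P.R1 + 1) →
      cq ≤ R * Real.exp (-W.FF p κ 0) →
      ∃ R' : ℝ, 3 * R / 4 ≤ R' ∧ R' < R ∧ ∀ x : E3, ‖x‖ = R' →
        R' * (Real.sqrt (sv g p κ eps v x) - Real.sqrt (R * Real.exp (-W.FF p κ 0))⁻¹) ^ 2 ≤ 1)
    (hv : W.Sol P.op v) (hB : B.BF cq N P v) (h16 : 16 * P.R1 ≤ P.R) (hz : Cz * P.R1 ≤ P.R) (hRR : Rm ≤ P.R)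
    (hF : P.m v ≤ 12 * Real.pi * P.CC v ^ 2 + Cq / P.CC v * P.Err v + 1)
    (he1 : P.eps * (8 * |M| * (1 / cq) * P.R) ≤ cq * P.v1 / P.R)
    (he2 : (1 + 2 / P.q) ^ 2 * (1 / cq * P.R) * P.eps ^ 3 / (cq * P.v1 / P.R) ^ 3 * volume.real (Ann P.R) ≤ 1)
    (he3 : P.eps ≤ 1 / P.R ^ 3) (hD : P.D v ≤ Dm) (hM : P.CC v ≤ M) :
    In P v Λ K (1 / cq) |M| Dm (12 * Real.pi * M ^ 2 + 1) (Cq / cq) := by
  have hR1 : 0 < P.R1 := by linarith [hP.r1_ge, hP.R1_ge]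
  have hR0 : 0 < P.R := by linarith
  have hv1 : 0 < P.v1 := hP.v1_pos
  have hκ := hB.kap_pos
  have hpos : ∀ x : E3, 1 < ‖x‖ → ‖x‖ < P.R → 0 < v x := fun x a b => (hB.btw x ⟨a, b⟩).1
  have hR12 : 1 ≤ P.R1 / 2 := by linarith [hP.r1_ge, hP.R1_ge]
  have hvv1 : ∀ x : E3, P.R1 / 2 ≤ ‖x‖ → ‖x‖ ≤ P.R → v x ≤ P.v1 := fun x a b => hB.v_v1 x ⟨by linarith, b⟩ a
  have hκ0 : cq * P.v1 / P.R ≤ P.kap v := div_le_div_of_nonneg_right hB.Cv_ge hR0.le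
  have hκ00 : 0 < cq * P.v1 / P.R := by positivity
  have hCC : 0 < P.CC v := hcq.trans_le hB.CC_ge
  refine
    { ok := hP, af := hg, cmp := hc, kk := hkk, kb := hkb, expo := hP.expo, smooth := hv.smooth
      nonneg := fun x hx => hv.nonneg x ⟨hx.1.le, hx.2.le⟩
      le_one := fun x hx => hv.le_one x ⟨hx.1.le, hx.2.le⟩
      bdd := ?_, kap := hκ, th := ?_, en := ?_, cc := hM.trans (le_abs_self M), bd := ?_, shell := ?_, T12 := ?_
      T1 := hN.trans hB.T1_ge, eps1 := he1.trans hκ0, eps2 := ?_, m := ?_ }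
  · obtain ⟨B, hB⟩ := Par.sol_D1_bd hv
    exact ⟨B, fun x hx i => hB x hx i⟩
  · obtain ⟨s, hs, h1⟩ := Hz P v hP hg hdec hv hpos hvv1 hz
    refine E.th_of_LF hg hc hkk (BR.lf hB.opok hκ hv) (by linarith [hP.r1_ge, hP.R1_ge]) ?_ ⟨s, hs, fun x a b => h1 x a b.le⟩
    intro x hx
    have := hB.exp_th x ⟨hx.1.le, hx.2.le⟩
    rwa [one_div_mul_eq_div]
  · rw [← top_D]
    exact hD
  · exact hRm P.g P.a P.R (1 + P.q) P.p (P.kap v) P.eps (P.Cv v) v hRR hg hc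
      (fun x hx i j => by
        refine ((hdec x hx i j 0).1).trans ?_
        exact div_le_div_of_nonneg_right (le_abs_self Cg) (by linarith))
      hP.expo hB.Cv_ge rfl hP.eps_pos he3 hv.cont hv.zero hv.nonneg (top_layer hP h16 hv hpos hvv1) hB.CC_ge
  · intro x hx a b
    obtain ⟨h1, h2⟩ := hB.shell x ⟨hx.1.le, hx.2.le⟩ a b
    exact ⟨h1, by linarith⟩
  · linarith [hB.T12]
  · refine le_trans ?_ he2
    have hq := hP.q_pos
    have he := hP.eps_pos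
    apply mul_le_mul_of_nonneg_right _ measureReal_nonneg
    apply div_le_div_of_nonneg_left (by positivity) (by positivity)
    exact pow_le_pow_left₀ hκ00.le hκ0 3
  · rw [← top_m]
    have hE := top_Err hP hκ hv
    have h1 : P.CC v ^ 2 ≤ M ^ 2 := pow_le_pow_left₀ hCC.le hM 2
    have h2 : Cq / P.CC v ≤ Cq / cq := div_le_div_of_nonneg_left hCq.le hcq hB.CC_ge
    have h3 := mul_le_mul_of_nonneg_right h2 hE
    have h4 := mul_le_mul_of_nonneg_left h1 (by positivity : 0 ≤ 12 * Real.pi)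
    linarith

/-- Smallness of `eps`. -/
theorem top_eps {A B : ℝ} (hA : 0 ≤ A) (hB : 0 < B) : ∀ᶠ eps in 𝓝[>] (0 : ℝ), eps * A ≤ B ∧ eps ^ 3 * A ≤ B := by
  have h1 : 0 < min 1 (B / (A + 1)) := by positivity
  filter_upwards [Ioo_mem_nhdsGT h1] with eps heps
  have h2 : eps ≤ B / (A + 1) := heps.2.le.trans (min_le_right _ _)
  have h3 : eps ≤ 1 := heps.2.le.trans (min_le_left _ _)
  have h0 : 0 < eps := heps.1
  have h4 : eps * (A + 1) ≤ B := by rwa [le_div_iff₀ (by linarith)] at h2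
  have h5 : eps ^ 3 ≤ eps := by
    have : eps ^ 2 ≤ 1 := pow_le_one₀ h0.le h3
    nlinarith
  constructor
  · nlinarith
  · nlinarith

/-- **R3** (S4.md 7). The transition error. -/
theorem R3 {g : Tens} {a : ℝ} (hg : AF g a) (K : ℝ) :
    ∃ c00 : ℝ, 0 ≤ c00 ∧ ∀ c0 : ℝ, c00 ≤ c0 → ∀ q : ℝ, 0 < q → q < 1 → ∀ Dm M : ℝ, ∃ C : ℝ, 0 ≤ C ∧
      ∀ᶠ R1 in atTop, ∀ R0 : ℝ, ∀ᶠ R in atTop, FA g a K c0 q R1 R0 R fun P v =>
        P.D v ≤ Dm → P.CC v ≤ M → P.Err v ≤ C * Real.exp (-(P.T1 v / 2)) := by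
  obtain ⟨c1, h1, HBB⟩ := B.ball hg K
  obtain ⟨c2, h2, HF⟩ := FL.F1w hg K
  obtain ⟨Λ, hΛ⟩ := E.exists_cmp hg
  obtain ⟨Cg, hCg⟩ := hg.decay
  obtain ⟨Cz, hCz, Hz⟩ := Far.fz1' Cg
  refine ⟨max c1 c2, le_max_of_le_left h1, fun c0 hc0 q hq0 hq1 Dm M => ?_⟩
  obtain ⟨cq, hcq, HBB⟩ := HBB c0 ((le_max_left _ _).trans hc0) q hq0 hq1
  obtain ⟨Cq, hCq, HF⟩ := HF c0 ((le_max_right _ _).trans hc0) q hq0 hq1
  obtain ⟨C, hC0, hC⟩ := r3_core Λ K (1 / cq) |M| Dm (12 * Real.pi * M ^ 2 + 1) (Cq / cq) hΛ.pos (by positivity)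
    (abs_nonneg M) (by positivity) (by positivity)
  have hc00 : 0 ≤ c0 := (le_max_of_le_left h1).trans hc0
  refine ⟨C, hC0.le, ?_⟩
  filter_upwards [HBB (max 0 (2 * Real.log C)), HF, eventually_ge_atTop (4 * (1 + 100 * c0 / q))] with R1 HBB HF hR1 R0
  obtain ⟨w1, hw1⟩ : ∃ w1 : ℝ, w1 = min 1 ((2 * (1 + 100 * c0 / q) / R1) ^ (q / 2)) := ⟨_, rfl⟩
  have hr1 : 0 < 1 + 100 * c0 / q := by positivity
  have hR1p : 0 < R1 := by linarith
  have hw1p : 0 < w1 := by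
    rw [hw1]
    exact lt_min one_pos (Real.rpow_pos_of_pos (by positivity) _)
  have hCH : 0 < Far.CH := Real.exp_pos _
  obtain ⟨Rm, hRm⟩ := bdry (Λ := Λ) (Cg := |Cg|) (K1 := 6144 * Far.CH * (8 * Far.CH * R1 * w1) * R1 + 1) (cv := cq * w1)
    (cq := cq) hΛ.pos.le (abs_nonneg _) (by positivity) (by positivity) hcq
  filter_upwards [HBB R0, HF R0, eventually_ge_atTop Rm, eventually_ge_atTop (16 * R1), eventually_ge_atTop (Cz * R1)]
    with R HBB HF hRR h16 hz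
  intro k η η0 δ' k1 hk eta heta
  have hR0 : 0 < R := by linarith
  filter_upwards [HBB k η η0 δ' k1 hk eta heta, HF 1 one_pos k η η0 δ' k1 hk eta heta,
    top_eps (A := 8 * |M| * (1 / cq) * R) (B := cq * w1 / R) (by positivity) (by positivity),
    top_eps (A := (1 + 2 / q) ^ 2 * (1 / cq * R) / (cq * w1 / R) ^ 3 * volume.real (Ann R)) (B := 1)
      (by have := @measureReal_nonneg _ _ (volume : Measure E3) (Ann R); positivity) one_pos,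
    top_eps (A := 1) (B := 1 / R ^ 3) zero_le_one (by positivity)] with eps HBB HF e1 e2 e3
  filter_upwards [HBB, HF] with d HBB HF
  intro hP v hv hD hM
  have hB := HBB hP v hv
  have hF := HF hP v hv
  have hin := top_in (P := mkP g k a c0 q R1 R eps d eta) (v := v) (Λ := Λ) (K := K) (Cg := Cg) (Cz := Cz) (cq := cq)
    (Cq := Cq) (M := M) (Dm := Dm) (Rm := Rm) hcq hCq (le_max_left _ _) Hz hP hg hΛ hCg
    ⟨hk.smooth, hk.symm, hk.two⟩ hk.bound (by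
      have e : (mkP g k a c0 q R1 R eps d eta).v1 = w1 := hw1.symm
      rw [e]
      exact hRm) hv hB h16 hz hRR hF (by
      have e : (mkP g k a c0 q R1 R eps d eta).v1 = w1 := hw1.symm
      rw [e]
      exact e1.1) (by
      have e : (mkP g k a c0 q R1 R eps d eta).v1 = w1 := hw1.symm
      rw [e]
      refine le_trans (le_of_eq ?_) e2.2
      show (1 + 2 / q) ^ 2 * (1 / cq * R) * eps ^ 3 / (cq * w1 / R) ^ 3 * volume.real (Ann R) = _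
      ring) (by
      have := e3.1
      rwa [mul_one] at this) hD hM
  apply hC _ _ hin
  have h3 : 2 * Real.log C ≤ (mkP g k a c0 q R1 R eps d eta).T1 v := (le_max_right _ _).trans hB.T1_ge
  calc C = Real.exp (Real.log C) := (Real.exp_log hC0).symm
    _ ≤ _ := Real.exp_le_exp.2 (by linarith)

end UMB.R
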