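import Pool.Agent.Lib.UMB.R.Defs

set_option autoImplicit false

/-!
# UMB.R chunk A1: derivative of `|dv|²`
-/

open Filter Topology Set MeasureTheory
open scoped ContDiff

namespace UMB.R

open Pool.Agent.Lib.PenroseSph (E3 Tens pd trg)

/-- **A1.** Metric compatibility: `GA.D_fsq` in the ring `SmR U`, evaluated at `x` (`congrArg (fun f : SmR U => f.1 ⟨x, hx⟩)`,
`val_fsq`, `val_D`, `val_hg` or `val_hs`, `val_gr`; see the proof of `MetOn.pd_vol` in S1/Dens.lean and `MetOn.hess_symm` in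
S1/Lim.lean). -/
theorem pd_gsq {g : Tens} {U : Set E3} (h : MetOn g U) {v : E3 → ℝ} (hv : ContDiffOn ℝ ∞ v U) {x : E3} (hx : x ∈ U)
    (i : Fin 3) : pd i (gsq g v) x = 2 * hgrad g v i x := by
  have h1 := congrArg (fun f : SmR U => f.1 ⟨x, hx⟩) (h.ga.D_fsq (rest v hv) i)
  simp only [val_mul, val_sum, val_hs, val_gr] at h1
  rw [val_D h i _ (gsq g v) (val_fsq h hv)] at h1
  exact h1

end UMB.R
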