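import Pool.Agent.Lib.UMB.R.Defs

set_option autoImplicit false

/-!
# UMB.R chunk A2: from `v` to `θ`
-/

open Filter Topology Set MeasureTheory
open scoped ContDiff

namespace UMB.R

open Pool.Agent.Lib.PenroseSph (E3 Tens pd trg)

/-- **A2.** Let `w = KK p (v x) + κ > 0` (`W.KK_bd`), `γ = kt p (v x)`, `θ = theta p κ v`. `W.D1_theta`, `W.D2_theta` (in
W/E1.lean): `pd i θ = - w⁻¹ pd i v`, `pd i (pd j θ) = - w⁻¹ pd i (pd j v) + γ w⁻² pd i v pd j v`. So `pd i v = - w pd i θ`,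
`gradU v = - w gradU θ`, `hess v i j = - w (hess θ i j - γ pd i θ pd j θ)` and `hgrad v i = w² (hgrad θ i - γ gsq θ pd i θ)`. -/
theorem v_theta {g : Tens} {p0 : ℝ} {p : ℝ → ℝ} (hp : W.Expo p0 p) {κ : ℝ} (hκ : 0 < κ) {U : Set E3} (hU : IsOpen U)
    {v : E3 → ℝ} (hv : ContDiffOn ℝ ∞ v U) (h0 : ∀ x ∈ U, 0 ≤ v x) {x : E3} (hx : x ∈ U) :
    (∀ i, pd i v x = - (W.KK p (v x) + κ) * pd i (W.theta p κ v) x) ∧
    (∀ i, gradU g v i x = - (W.KK p (v x) + κ) * gradU g (W.theta p κ v) i x) ∧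
    gsq g v x = (W.KK p (v x) + κ) ^ 2 * gsq g (W.theta p κ v) x ∧
    (∀ i, hgrad g v i x = (W.KK p (v x) + κ) ^ 2 *
      (hgrad g (W.theta p κ v) i x - W.kt p (v x) * gsq g (W.theta p κ v) x * pd i (W.theta p κ v) x)) := by
  have hw : 0 < W.KK p (v x) + κ := W.e1_pos hp hκ (h0 x hx)
  have hw0 : W.KK p (v x) + κ ≠ 0 := hw.ne'
  have d1 : ∀ i, pd i (W.theta p κ v) x = - (W.KK p (v x) + κ)⁻¹ * pd i v x :=
    fun i => W.D1_theta hp hκ hU hv h0 hx i
  have d2 : ∀ i j, pd i (pd j (W.theta p κ v)) x = - (W.KK p (v x) + κ)⁻¹ * pd i (pd j v) x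
      + W.kt p (v x) * (W.KK p (v x) + κ)⁻¹ ^ 2 * pd i v x * pd j v x :=
    fun i j => W.D2_theta hp hκ hU hv h0 hx i j
  generalize W.theta p κ v = θ at *
  generalize W.kt p (v x) = γ at *
  generalize W.KK p (v x) + κ = w at *
  have e1 : ∀ i, pd i v x = - w * pd i θ x := by
    intro i
    rw [d1 i]
    field_simp
  have e2 : ∀ i, gradU g v i x = - w * gradU g θ i x := by
    intro i
    unfold gradU
    simp only [e1, Fin.sum_univ_three]
    ring
  have e3 : gsq g v x = w ^ 2 * gsq g θ x := by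
    unfold gsq
    simp only [e1, e2, Fin.sum_univ_three]
    ring
  have e4 : ∀ i j, hess g v i j x = - w * (hess g θ i j x - γ * pd i θ x * pd j θ x) := by
    intro i j
    have h1 : pd i (pd j v) x = - w * (pd i (pd j θ) x - γ * pd i θ x * pd j θ x) := by
      rw [d2 i j, e1 i, e1 j]
      field_simp
      ring
    unfold hess
    rw [h1]
    simp only [e1, Fin.sum_univ_three]
    ring
  refine ⟨e1, e2, e3, fun i => ?_⟩
  unfold hgrad
  simp only [e4, e2]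
  unfold gsq
  simp only [Fin.sum_univ_three]
  ring

end UMB.R
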