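import Pool.Agent.Lib.UMB.R.Defs

set_option autoImplicit false

/-!
# UMB.R chunk A3: `Hess u(∇u)` in terms of `Mh`
-/

open Filter Topology Set MeasureTheory
open scoped ContDiff

namespace UMB.R

open Pool.Agent.Lib.PenroseSph (E3 Tens pd trg)

/-- **A3.** `hgrad u i = ∑_j hess u i j ∇^j u` and `hess i j = MhL i j - 2 u_i u_j + gsq g_ij + y k_ij`;
`∑_j u_j ∇^j u = gsq` (definition), `∑_j g_ij ∇^j u = u_i` (`MetOn.mul_inv`). -/
theorem hgrad_eq {g k : Tens} {U : Set E3} (h : MetOn g U) {u : E3 → ℝ} {x : E3} (hx : x ∈ U) (i : Fin 3) :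
    hgrad g u i x = MhV g k u i x - gsq g u x * pd i u x + yreg g u 0 x * kV g k u i x := by
  have h1 : ∑ j, g x i j * gradU g u j x = pd i u x := by
    have h2 : ∑ j, g x i j * gradU g u j x = ∑ l, (∑ j, g x i j * (g x)⁻¹ j l) * pd l u x := by
      unfold gradU
      simp only [Finset.mul_sum, Finset.sum_mul]
      rw [Finset.sum_comm]
      exact Finset.sum_congr rfl fun l _ => Finset.sum_congr rfl fun j _ => by ring
    rw [h2]
    simp only [h.mul_inv hx]
    simp
  have h3 : MhV g k u i x = hgrad g u i x + 2 * pd i u x * gsq g u x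
      - gsq g u x * (∑ j, g x i j * gradU g u j x) - yreg g u 0 x * kV g k u i x := by
    unfold MhV MhL hgrad kV
    rw [show gsq g u x = ∑ j, pd j u x * gradU g u j x from rfl]
    simp only [Fin.sum_univ_three]
    ring
  rw [h3, h1]
  ring

end UMB.R
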