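import Pool.Agent.Lib.UMB.R.A1
import Pool.Agent.Lib.UMB.R.A2
import Pool.Agent.Lib.UMB.R.A3

set_option autoImplicit false

/-!
# UMB.R chunk A4: the exact gradient identity of section 7.1
-/

open Filter Topology Set MeasureTheory
open scoped ContDiff

namespace UMB.R

open Pool.Agent.Lib.PenroseSph (E3 Tens pd trg)

theorem gve_pos {g : Tens} {U : Set E3} (h : MetOn g U) {eps : ℝ} (he : 0 < eps) {v : E3 → ℝ} {x : E3} (hx : x ∈ U) :
    0 < gve g eps v x := by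
  have := h.gsq_nonneg (u := v) hx
  unfold gve
  positivity

/-- **A4a.** `s` is smooth: `theta` is smooth (`W.theta_smooth`), `w = KK p v + κ` is smooth and positive (`W.KK_smooth`,
`W.KK_bd`), `gsq` is smooth (`MetOn.gsq_smooth`), the square root of a positive smooth function is smooth. -/
theorem sv_smooth {g : Tens} {U : Set E3} (h : MetOn g U) {p0 : ℝ} {p : ℝ → ℝ} (hp : W.Expo p0 p) {κ eps : ℝ} (hκ : 0 < κ)
    (he : 0 < eps) {v : E3 → ℝ} (hv : ContDiffOn ℝ ∞ v U) (h0 : ∀ x ∈ U, 0 ≤ v x) :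
    ContDiffOn ℝ ∞ (sv g p κ eps v) U ∧ ∀ x ∈ U, 0 < sv g p κ eps v x := by
  have hw : ∀ x ∈ U, 0 < W.KK p (v x) + κ := fun x hx => W.e1_pos hp hκ (h0 x hx)
  have hth := W.theta_smooth hp hκ h.isOpen hv h0
  have hws : ContDiffOn ℝ ∞ (fun x => W.KK p (v x) + κ) U :=
    ((W.KK_smooth hp).comp_contDiffOn hv).add contDiffOn_const
  have hG : ContDiffOn ℝ ∞ (gve g eps v) U := by
    unfold gve
    refine ContDiffOn.sqrt ((h.gsq_smooth hv).add contDiffOn_const) fun x hx => ?_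
    have := h.gsq_nonneg (u := v) hx
    positivity
  refine ⟨(hth.exp.div hws fun x hx => (hw x hx).ne').mul hG, fun x hx => ?_⟩
  unfold sv
  exact mul_pos (div_pos (Real.exp_pos _) (hw x hx)) (gve_pos h he hx)

/-- **A4b.** `∂_i log s = ∂_i θ - ∂_i log w + ∂_i log gve`. With `γ = kt p (v x)`: `∂_i log w = γ ∂_i v / w = - γ ∂_i θ`
(`W.KK_deriv`, A2) and `∂_i log gve = ∂_i gsq / (2 gve²) = hgrad v i / gve²` (A1)
`= (w²/gve²) (hgrad θ i - γ gsq θ ∂_i θ) = (w²/gve²) (MhV i + y kV i - (1 + γ) gsq θ ∂_i θ)` (A2, A3), and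
`w² gsq θ / gve² = gsq v / gve² = 1 - eps²/gve²`. So
`∂_i log s = (w²/gve²) (MhV i + y kV i) + (1 + γ) (eps²/gve²) ∂_i θ`. -/
theorem pd_sv {g k : Tens} {U : Set E3} (h : MetOn g U) {p0 : ℝ} {p : ℝ → ℝ} (hp : W.Expo p0 p) {κ eps : ℝ} (hκ : 0 < κ)
    (he : 0 < eps) {v : E3 → ℝ} (hv : ContDiffOn ℝ ∞ v U) (h0 : ∀ x ∈ U, 0 ≤ v x) {x : E3} (hx : x ∈ U) (i : Fin 3) :
    pd i (sv g p κ eps v) x = sv g p κ eps v x *
      ((W.KK p (v x) + κ) ^ 2 / gve g eps v x ^ 2 * (MhV g k (W.theta p κ v) i x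
          + yreg g (W.theta p κ v) 0 x * kV g k (W.theta p κ v) i x)
        + (1 + W.kt p (v x)) * (eps ^ 2 / gve g eps v x ^ 2) * pd i (W.theta p κ v) x) := by
  have hw : 0 < W.KK p (v x) + κ := W.e1_pos hp hκ (h0 x hx)
  have hw0 : W.KK p (v x) + κ ≠ 0 := hw.ne'
  have hGp := gve_pos h he (v := v) hx
  have hnn := h.gsq_nonneg (u := v) hx
  obtain ⟨e1, e2, e3, e4⟩ := v_theta (g := g) hp hκ h.isOpen hv h0 hx
  have e5 := hgrad_eq (k := k) h (u := W.theta p κ v) hx i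
  have e6 := pd_gsq h hv hx i
  have hth := W.theta_smooth hp hκ h.isOpen hv h0
  have dθ : HasFDerivAt (W.theta p κ v) (fderiv ℝ (W.theta p κ v) x) x :=
    (W.e1_diff h.isOpen hth hx).hasFDerivAt
  have dv : HasFDerivAt v (fderiv ℝ v x) x := (W.e1_diff h.isOpen hv hx).hasFDerivAt
  have dq : HasFDerivAt (gsq g v) (fderiv ℝ (gsq g v) x) x :=
    (W.e1_diff h.isOpen (h.gsq_smooth hv) hx).hasFDerivAt
  have dE := dθ.exp
  have dw : HasFDerivAt (fun y => W.KK p (v y) + κ) (W.kt p (v x) • fderiv ℝ v x) x :=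
    ((W.KK_deriv hp (v x)).comp_hasFDerivAt x dv).add_const κ
  have hpos : 0 < gsq g v x + eps ^ 2 := by positivity
  have dG : HasFDerivAt (gve g eps v) ((1 / (2 * gve g eps v x)) • fderiv ℝ (gsq g v) x) x :=
    (dq.add_const (eps ^ 2)).sqrt hpos.ne'
  have dwi : HasFDerivAt (fun y => (W.KK p (v y) + κ)⁻¹)
      ((-((W.KK p (v x) + κ) ^ 2)⁻¹) • (W.kt p (v x) • fderiv ℝ v x)) x :=
    (hasDerivAt_inv hw0).comp_hasFDerivAt x dw
  have dS := (dE.mul dwi).mul dG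
  have hS : sv g p κ eps v = (((fun y => Real.exp (W.theta p κ v y)) * fun y => (W.KK p (v y) + κ)⁻¹)
      * gve g eps v) := by
    funext y
    simp only [sv, Pi.mul_apply, div_eq_mul_inv]
  have hG2 : gve g eps v x ^ 2 = (W.KK p (v x) + κ) ^ 2 * gsq g (W.theta p κ v) x + eps ^ 2 := by
    unfold gve
    rw [Real.sq_sqrt hpos.le, e3]
  have hpdi : pd i (sv g p κ eps v) x =
      (Real.exp (W.theta p κ v x) * (W.KK p (v x) + κ)⁻¹) *
        (1 / (2 * gve g eps v x) * pd i (gsq g v) x) +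
      gve g eps v x * (Real.exp (W.theta p κ v x) *
        (-((W.KK p (v x) + κ) ^ 2)⁻¹ * (W.kt p (v x) * pd i v x)) +
        (W.KK p (v x) + κ)⁻¹ * (Real.exp (W.theta p κ v x) * pd i (W.theta p κ v) x)) := by
    unfold pd
    rw [hS, dS.fderiv]
    simp only [add_apply, smul_apply, smul_eq_mul, Pi.mul_apply]
  rw [hpdi, e6, e4 i, e5, e1 i]
  have hs : sv g p κ eps v x = Real.exp (W.theta p κ v x) / (W.KK p (v x) + κ) * gve g eps v x := rfl
  rw [hs]
  have hE : eps ^ 2 = gve g eps v x ^ 2 - (W.KK p (v x) + κ) ^ 2 * gsq g (W.theta p κ v) x := by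
    rw [hG2]; ring
  rw [hE]
  have hG0 : gve g eps v x ≠ 0 := hGp.ne'
  generalize gve g eps v x = G at *
  generalize W.KK p (v x) + κ = w at *
  generalize Real.exp (W.theta p κ v x) = E at *
  field_simp
  ring

end UMB.R
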