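import Pool.Agent.Lib.UMB.R.Defs

set_option autoImplicit false

/-!
# UMB.R chunk A5: linear algebra
-/

open Filter Topology Set MeasureTheory
open scoped ContDiff

namespace UMB.R

open Pool.Agent.Lib.PenroseSph (E3 Tens pd trg)

/-- **A5a.** `G` positive definite symmetric, `S` symmetric, `M = G S` (one index raised), `u = G p`. `G = L Lᵀ`,
`T := Lᵀ S L`, `z := Lᵀ p`: then `|S u|²_G = |T z|² ≤ (∑ T_ij²) |z|²` (Cauchy-Schwarz in each component),
`∑ M_ab M_ba = ∑ T_ij²`, `∑ p_a u_a = |z|²`. (E/P3.lean `alg_ineq` is the same with one index less; a factorisation is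
`W.a2_factor` in W/A2.lean or `W.a4_factor` in W/A4.lean.) -/
theorem vec_ineq {G S : Matrix (Fin 3) (Fin 3) ℝ} (hG : G.PosDef) (hS : ∀ i j, S i j = S j i) {p u : Fin 3 → ℝ}
    (hu : ∀ a, u a = ∑ j, G a j * p j) {M : Fin 3 → Fin 3 → ℝ} (hM : ∀ a b, M a b = ∑ j, G a j * S b j) :
    ∑ i, ∑ j, G i j * (∑ l, S i l * u l) * (∑ l, S j l * u l) ≤ (∑ a, ∑ b, M a b * M b a) * ∑ a, p a * u a := by
  obtain ⟨B, hB, hBB⟩ := UMB.Lin.m2_sqrt G hG.posSemidef
  have hB' : G = B.transpose * B := by
    rw [hB, hBB]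
  set T : Matrix (Fin 3) (Fin 3) ℝ := B * S * B.transpose with hT
  have hSt : S.transpose = S := by
    ext a b
    exact hS b a
  have hTs : T.transpose = T := by
    rw [hT, Matrix.transpose_mul, Matrix.transpose_mul, Matrix.transpose_transpose, hSt,
      Matrix.mul_assoc]
  have hTs' : ∀ a b, T a b = T b a := fun a b => by
    conv_lhs => rw [← hTs]
    rfl
  have hMm : ∀ a b, M a b = (G * S) a b := by
    intro a b
    rw [hM, Matrix.mul_apply]
    exact Finset.sum_congr rfl fun j _ => by rw [hS b j]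
  have e1 : ∑ a, ∑ b, M a b * M b a = ∑ a, ∑ b, T a b ^ 2 := by
    have h1 : ∑ a, ∑ b, M a b * M b a = Matrix.trace ((G * S) * (G * S)) := by
      simp only [Matrix.trace, Matrix.diag_apply, Matrix.mul_apply (M := G * S), hMm]
    have h2 : ∑ a, ∑ b, T a b ^ 2 = Matrix.trace (T * T) := by
      simp only [Matrix.trace, Matrix.diag_apply, Matrix.mul_apply (M := T)]
      refine Finset.sum_congr rfl fun a _ => Finset.sum_congr rfl fun b _ => ?_
      rw [hTs' b a]
      ring
    rw [h1, h2, hB', hT]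
    have h3 : B.transpose * B * S * (B.transpose * B * S)
        = B.transpose * (B * S * B.transpose * B * S) := by
      simp only [Matrix.mul_assoc]
    have h4 : B * S * B.transpose * (B * S * B.transpose)
        = (B * S * B.transpose * B * S) * B.transpose := by
      simp only [Matrix.mul_assoc]
    rw [h3, h4, Matrix.trace_mul_comm]
  set z : Fin 3 → ℝ := fun i => ∑ j, B i j * p j with hz
  have hG1 : ∀ a j, G a j = ∑ i, B i a * B i j := by
    intro a j
    rw [hB', Matrix.mul_apply]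
    rfl
  have e3 : ∑ a, p a * u a = ∑ i, z i * z i := by
    simp only [hu, hG1, hz, Fin.sum_univ_three]
    ring
  have hu2 : ∀ l, u l = ∑ m, B m l * z m := by
    intro l
    simp only [hu, hG1, hz, Fin.sum_univ_three]
    ring
  have h1 : ∀ i j, T i j = ∑ b, (∑ a, B i a * S a b) * B j b := by
    intro i j
    rw [hT, Matrix.mul_apply]
    refine Finset.sum_congr rfl fun b _ => ?_
    rw [Matrix.mul_apply]
    rfl
  have e4 : ∑ i, ∑ j, G i j * (∑ l, S i l * u l) * (∑ l, S j l * u l)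
      = ∑ m, (∑ n, T m n * z n) ^ 2 := by
    set q : Fin 3 → ℝ := fun i => ∑ l, S i l * u l with hq
    have h2 : ∀ m, ∑ n, T m n * z n = ∑ i, B m i * q i := by
      intro m
      simp only [h1, hq, hu2, Fin.sum_univ_three]
      ring
    have h3 : ∑ i, ∑ j, G i j * q i * q j = ∑ m, (∑ i, B m i * q i) ^ 2 := by
      simp only [hG1, Fin.sum_univ_three]
      ring
    have h7 : ∑ m, (∑ n, T m n * z n) ^ 2 = ∑ m, (∑ i, B m i * q i) ^ 2 :=
      Finset.sum_congr rfl fun m _ => by rw [h2 m]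
    rw [h7]
    exact h3
  rw [e1, e3, e4, Finset.sum_mul]
  refine Finset.sum_le_sum fun m _ => ?_
  have h5 := Finset.sum_mul_sq_le_sq_mul_sq (Finset.univ : Finset (Fin 3)) (fun n => T m n) z
  have h6 : ∑ i, z i ^ 2 = ∑ i, z i * z i := Finset.sum_congr rfl fun i _ => by ring
  rw [h6] at h5
  exact h5

/-- **A5b.** `Mh` (first index raised) is `g⁻¹ MhL` and `MhL` is symmetric (`MetOn.hess_symm`, `g` and `k` symmetric):
A5a with `G = (g x)⁻¹` (`MetOn.posDef`, `Matrix.PosDef.inv`), `p a = pd a u`, `u a = gradU a`. -/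
theorem mhV_le {g k : Tens} {U : Set E3} (h : MetOn g U) (hks : ∀ x ∈ U, (k x).IsSymm) {u : E3 → ℝ}
    (hu : ContDiffOn ℝ ∞ u U) {x : E3} (hx : x ∈ U) :
    0 ≤ MhSq g k u x ∧
      ∑ i, ∑ j, (g x)⁻¹ i j * MhV g k u i x * MhV g k u j x ≤ MhSq g k u x * gsq g u x := by
  refine ⟨(E.mh_ineq h hks hu hx).1, ?_⟩
  have hGp : ((g x)⁻¹).PosDef := (h.posDef hx).inv
  have hgs : ∀ i j, g x i j = g x j i := fun i j => ((h.symm x hx).apply i j).symm
  have hk : ∀ i j, k x i j = k x j i := fun i j => ((hks x hx).apply i j).symm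
  have hsym : ∀ i j, hess g u i j x = hess g u j i x := fun i j => h.hess_symm hu hx i j
  have hS : ∀ i j, (Matrix.of fun b j => MhL g k u b j x : Matrix (Fin 3) (Fin 3) ℝ) i j
      = (Matrix.of fun b j => MhL g k u b j x : Matrix (Fin 3) (Fin 3) ℝ) j i := by
    intro i j
    simp only [Matrix.of_apply, MhL, hsym i j, hgs i j, hk i j]
    ring
  have hM : ∀ a b, Mh g k u a b x = ∑ j, (g x)⁻¹ a j *
      (Matrix.of fun b j => MhL g k u b j x : Matrix (Fin 3) (Fin 3) ℝ) b j := by
    intro a b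
    have h1 : ∑ j, (g x)⁻¹ a j * g x b j = if a = b then 1 else 0 := by
      rw [← h.inv_mul hx a b]
      exact Finset.sum_congr rfl fun j _ => by rw [hgs b j]
    have h2 : upk g k a b x = ∑ j, (g x)⁻¹ a j * k x b j := by
      unfold upk
      exact Finset.sum_congr rfl fun j _ => by rw [hk b j]
    have h3 : (if a = b then gsq g u x else 0) = gsq g u x * ∑ j, (g x)⁻¹ a j * g x b j := by
      rw [h1]
      split_ifs <;> simp
    unfold Mh
    rw [h3, h2]
    simp only [Matrix.of_apply, MhL, hessM, gradU, Fin.sum_univ_three]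
    ring
  have h5 := vec_ineq hGp hS (p := fun a => pd a u x) (u := fun a => gradU g u a x)
    (fun a => rfl) (M := fun a b => Mh g k u a b x) hM
  exact h5

end UMB.R
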