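import Pool.Agent.Lib.UMB.R.Defs

set_option autoImplicit false

/-!
# UMB.R chunk A6: two estimates for the pointwise bound
-/

open Filter Topology Set MeasureTheory
open scoped ContDiff

namespace UMB.R

open Pool.Agent.Lib.PenroseSph (E3 Tens pd trg)
open UMB.Lin (Ann cAnn sig)

/-- **A6.** `|k_ij| ≤ K/|x|²`, `|gradU j| ≤ 3 Λ √Λ y` (`E.grad_bd`), `y² = gsq`: each `|kV i| ≤ 9 K Λ √Λ y/|x|²`. -/
theorem kV_le {g k : Tens} {U : Set E3} (h : MetOn g U) {Λ K : ℝ} (hc : E.Cmp g Λ) {x : E3} (hx : x ∈ U) (hx1 : 1 ≤ ‖x‖)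
    (hk : ∀ i j, |k x i j| ≤ K / ‖x‖ ^ 2) (u : E3 → ℝ) :
    ∑ i, kV g k u i x ^ 2 ≤ 243 * K ^ 2 * Λ ^ 3 * gsq g u x / ‖x‖ ^ 4 := by
  have hgs : 0 ≤ gsq g u x := h.gsq_nonneg hx
  have hΛ := hc.pos
  have hy2 : yreg g u 0 x ^ 2 = gsq g u x := ysq_zero hgs
  have hy0 : 0 ≤ yreg g u 0 x := Real.sqrt_nonneg _
  obtain ⟨-, hg, -⟩ := E.grad_bd hc hx1 u u hgs
  have hx0 : 0 < ‖x‖ := by linarith
  have hK : 0 ≤ K / ‖x‖ ^ 2 := (abs_nonneg _).trans (hk 0 0)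
  have hs : Real.sqrt Λ ^ 2 = Λ := Real.sq_sqrt hΛ.le
  have h1 : ∀ i, kV g k u i x ^ 2 ≤ 81 * K ^ 2 * Λ ^ 3 * gsq g u x / ‖x‖ ^ 4 := by
    intro i
    have h2 : |kV g k u i x| ≤ 3 * (K / ‖x‖ ^ 2 * (3 * Λ * Real.sqrt Λ * yreg g u 0 x)) := by
      unfold kV
      calc |∑ j, k x i j * gradU g u j x| ≤ ∑ j, |k x i j * gradU g u j x| := Finset.abs_sum_le_sum_abs _ _
        _ ≤ ∑ _j : Fin 3, K / ‖x‖ ^ 2 * (3 * Λ * Real.sqrt Λ * yreg g u 0 x) := by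
            refine Finset.sum_le_sum fun j _ => ?_
            rw [abs_mul]
            exact mul_le_mul (hk i j) (hg j) (abs_nonneg _) hK
        _ = _ := by simp
    have h3 : kV g k u i x ^ 2 ≤ (3 * (K / ‖x‖ ^ 2 * (3 * Λ * Real.sqrt Λ * yreg g u 0 x))) ^ 2 := by
      rw [← sq_abs]
      exact pow_le_pow_left₀ (abs_nonneg _) h2 2
    refine h3.trans (le_of_eq ?_)
    calc (3 * (K / ‖x‖ ^ 2 * (3 * Λ * Real.sqrt Λ * yreg g u 0 x))) ^ 2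
        = 81 * K ^ 2 * (Λ ^ 2 * Real.sqrt Λ ^ 2) * yreg g u 0 x ^ 2 / ‖x‖ ^ 4 := by
          field_simp
          ring
      _ = 81 * K ^ 2 * Λ ^ 3 * gsq g u x / ‖x‖ ^ 4 := by rw [hs, hy2]; ring
  calc ∑ i, kV g k u i x ^ 2 ≤ ∑ _i : Fin 3, 81 * K ^ 2 * Λ ^ 3 * gsq g u x / ‖x‖ ^ 4 := Finset.sum_le_sum fun i _ => h1 i
    _ = _ := by simp; ring

/-- **A7a.** Elementary inequality behind the pointwise bound: `y = |∇θ|`, `w`, `G = gve ≥ w y`, `G ≥ eps`, `E = e^θ`; the three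
terms: `(E G/w)(w²/G²)² A y² ≤ E A/y` (both sides are `0` for `y = 0`; `w³ y³ ≤ G³`), `(E G/w)(w²/G²)² y² y² ≤ E y`,
`(E G/w)(eps²/G²)² y² ≤ E eps³/w³`. -/
theorem three_terms {E w G y eps A : ℝ} (hE : 0 < E) (hw : 0 < w) (hy : 0 ≤ y) (heps : 0 < eps) (hA : 0 ≤ A)
    (h1 : w * y ≤ G) (h2 : eps ≤ G) :
    E / w * G * (w ^ 2 / G ^ 2) ^ 2 * (A * y ^ 2) ≤ E * (A / y) ∧
    E / w * G * (w ^ 2 / G ^ 2) ^ 2 * (y ^ 2 * y ^ 2) ≤ E * y ∧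
    E / w * G * (eps ^ 2 / G ^ 2) ^ 2 * y ^ 2 ≤ E * eps ^ 3 / w ^ 3 := by
  have hG : 0 < G := heps.trans_le h2
  have hwy : 0 ≤ w * y := by positivity
  have hr1 : w * y / G ≤ 1 := by rw [div_le_one hG]; exact h1
  have hr0 : 0 ≤ w * y / G := by positivity
  have he1 : eps / G ≤ 1 := by rw [div_le_one hG]; exact h2
  have he0 : 0 ≤ eps / G := by positivity
  have hr3 : (w * y / G) ^ 3 ≤ 1 := pow_le_one₀ hr0 hr1
  have hr2 : (w * y / G) ^ 2 ≤ 1 := pow_le_one₀ hr0 hr1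
  refine ⟨?_, ?_, ?_⟩
  · rcases eq_or_lt_of_le hy with h0 | h0
    · rw [← h0]; simp
    · have e : E / w * G * (w ^ 2 / G ^ 2) ^ 2 * (A * y ^ 2) = E * (A / y) * (w * y / G) ^ 3 := by
        field_simp
      rw [e]
      have : 0 ≤ E * (A / y) := by positivity
      nlinarith
  · have e : E / w * G * (w ^ 2 / G ^ 2) ^ 2 * (y ^ 2 * y ^ 2) = E * y * (w * y / G) ^ 3 := by
      field_simp
    rw [e]
    have : 0 ≤ E * y := by positivity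
    nlinarith
  · have e : E / w * G * (eps ^ 2 / G ^ 2) ^ 2 * y ^ 2 = E * eps ^ 3 / w ^ 3 * ((eps / G) * (w * y / G) ^ 2) := by
      field_simp
    rw [e]
    have h3 : 0 ≤ E * eps ^ 3 / w ^ 3 := by positivity
    have h4 : (eps / G) * (w * y / G) ^ 2 ≤ 1 := mul_le_one₀ he1 (by positivity) hr2
    nlinarith

end UMB.R
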