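import Pool.Agent.Lib.UMB.R.A4
import Pool.Agent.Lib.UMB.R.A5
import Pool.Agent.Lib.UMB.R.A6

set_option autoImplicit false

/-!
# UMB.R chunk A7: the pointwise bound of `|∇ √s|²`
-/

open Filter Topology Set MeasureTheory
open scoped ContDiff

namespace UMB.R

open Pool.Agent.Lib.PenroseSph (E3 Tens pd trg)
open UMB.Lin (Ann cAnn sig)

theorem a7_pd_sqrt {f : E3 → ℝ} {x : E3} (hf : DifferentiableAt ℝ f x) (h0 : 0 < f x) (i : Fin 3) :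
    pd i (fun y => Real.sqrt (f y)) x = pd i f x / (2 * Real.sqrt (f x)) := by
  have h1 := (hf.hasFDerivAt).sqrt h0.ne'
  unfold pd
  rw [h1.fderiv]
  simp only [ContinuousLinearMap.smul_apply, smul_eq_mul]
  ring

theorem a7_three (a b c : ℝ) : (a + b + c) ^ 2 ≤ 3 * (a ^ 2 + b ^ 2 + c ^ 2) := by
  nlinarith [sq_nonneg (a - b), sq_nonneg (b - c), sq_nonneg (a - c)]

/-- **A7.** `pd i √s = pd i s / (2 √s)`, so `∑ (pd i √s)² = (s/4) ∑ L_i²` with `L_i` of A4b, `L = c' (MhV + y kV) + e' dθ`,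
`(a+b+c)² ≤ 3(a²+b²+c²)`; `∑ MhV_i² ≤ Λ g⁻¹(MhV, MhV) ≤ Λ MhSq gsq` (`Cmp.low`, A5b), `∑ kV_i² ≤ 243 K² Λ³ gsq/|x|⁴` (A6),
`∑ (pd i θ)² ≤ Λ gsq`; `gsq θ = y²` (`ysq_zero`), `w y ≤ gve` since `w² y² = gsq v` (A2), `1 + kt ≤ 1 + 2/(p0-1)` (`W.kt_bd`),
`w ≥ κ`. A7a. `C = Λ + 243 K² Λ³`. -/
theorem grad_W_le {Λ K : ℝ} : ∃ C : ℝ, 0 ≤ C ∧ ∀ (g k : Tens) (U : Set E3), MetOn g U → (∀ x ∈ U, (k x).IsSymm) →
    E.Cmp g Λ → ∀ (p0 : ℝ) (p : ℝ → ℝ), W.Expo p0 p → ∀ κ eps : ℝ, 0 < κ → 0 < eps → ∀ v : E3 → ℝ,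
    ContDiffOn ℝ ∞ v U → (∀ x ∈ U, 0 ≤ v x) → ∀ x ∈ U, 1 ≤ ‖x‖ → (∀ i j, |k x i j| ≤ K / ‖x‖ ^ 2) →
    ∑ i, pd i (fun y => Real.sqrt (sv g p κ eps v y)) x ^ 2 ≤
      C * (Real.exp (W.theta p κ v x) * (MhSq g k (W.theta p κ v) x / yreg g (W.theta p κ v) 0 x)
        + Real.exp (W.theta p κ v x) * yreg g (W.theta p κ v) 0 x / ‖x‖ ^ 4
        + (1 + 2 / (p0 - 1)) ^ 2 * Real.exp (W.theta p κ v x) * eps ^ 3 / κ ^ 3) := by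
  refine ⟨|Λ| + 243 * K ^ 2 * |Λ| ^ 3, by positivity, ?_⟩
  intro g k U h hks hc p0 p hp κ eps hκ he v hv h0 x hx hx1 hk
  have hΛ : 0 < Λ := hc.pos
  rw [abs_of_pos hΛ]
  obtain ⟨hsm, hspos⟩ := sv_smooth h hp hκ he hv h0
  have hs : 0 < sv g p κ eps v x := hspos x hx
  have hG : 0 < gve g eps v x := gve_pos h he hx
  obtain ⟨h1, h2, h3, h4⟩ := v_theta (g := g) hp hκ h.isOpen hv h0 hx
  have hw : κ ≤ W.KK p (v x) + κ := by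
    have := (W.KK_bd hp (h0 x hx)).1
    linarith [h0 x hx]
  have hw0 : 0 < W.KK p (v x) + κ := hκ.trans_le hw
  have hkt := W.kt_bd hp (v x)
  have hL := fun i => pd_sv (k := k) h hp hκ he hv h0 hx i
  have hdiff : DifferentiableAt ℝ (sv g p κ eps v) x :=
    (hsm.contDiffAt (h.isOpen.mem_nhds hx)).differentiableAt (by simp)
  have hθ : ContDiffOn ℝ ∞ (W.theta p κ v) U := W.theta_smooth hp hκ h.isOpen hv h0
  obtain ⟨hM0, hMV⟩ := mhV_le h hks hθ hx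
  have hkV := kV_le h hc hx hx1 hk (W.theta p κ v)
  have hgs : 0 ≤ gsq g (W.theta p κ v) x := h.gsq_nonneg hx
  have hy2 : yreg g (W.theta p κ v) 0 x ^ 2 = gsq g (W.theta p κ v) x := ysq_zero hgs
  have hy0 : 0 ≤ yreg g (W.theta p κ v) 0 x := Real.sqrt_nonneg _
  have hVl : ∑ i, MhV g k (W.theta p κ v) i x ^ 2 ≤ Λ * (MhSq g k (W.theta p κ v) x * gsq g (W.theta p κ v) x) :=
    (hc.low x hx1 (fun i => MhV g k (W.theta p κ v) i x)).trans (mul_le_mul_of_nonneg_left hMV hΛ.le)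
  have hdl : ∑ i, pd i (W.theta p κ v) x ^ 2 ≤ Λ * gsq g (W.theta p κ v) x := by
    refine (hc.low x hx1 (fun i => pd i (W.theta p κ v) x)).trans (le_of_eq ?_)
    congr 1
    unfold gsq gradU
    simp only [Finset.mul_sum]
    exact Finset.sum_congr rfl fun i _ => Finset.sum_congr rfl fun j _ => by ring
  have hgv : gsq g v x + eps ^ 2 = gve g eps v x ^ 2 := by
    have := h.gsq_nonneg (u := v) hx
    unfold gve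
    rw [Real.sq_sqrt (by positivity)]
  have hwy : (W.KK p (v x) + κ) * yreg g (W.theta p κ v) 0 x ≤ gve g eps v x := by
    apply abs_le_of_sq_le_sq' _ hG.le |>.2
    rw [mul_pow, hy2, ← h3, ← hgv]
    nlinarith [sq_nonneg eps]
  have hGe : eps ≤ gve g eps v x := by
    apply abs_le_of_sq_le_sq' _ hG.le |>.2
    rw [← hgv]
    have := h.gsq_nonneg (u := v) hx
    linarith
  -- rewriting
  obtain ⟨w, hwd⟩ : ∃ w, w = W.KK p (v x) + κ := ⟨_, rfl⟩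
  obtain ⟨G, hGd⟩ : ∃ G, G = gve g eps v x := ⟨_, rfl⟩
  obtain ⟨y, hyd⟩ : ∃ y, y = yreg g (W.theta p κ v) 0 x := ⟨_, rfl⟩
  obtain ⟨E, hEd⟩ : ∃ E, E = Real.exp (W.theta p κ v x) := ⟨_, rfl⟩
  obtain ⟨A, hAd⟩ : ∃ A, A = MhSq g k (W.theta p κ v) x := ⟨_, rfl⟩
  obtain ⟨s, hsd⟩ : ∃ s, s = sv g p κ eps v x := ⟨_, rfl⟩
  have hsE : s = E / w * G := by rw [hsd, hEd, hwd, hGd]; rfl
  have hE0 : 0 < E := by rw [hEd]; exact Real.exp_pos _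
  rw [← hwd, ← hGd] at hL
  rw [← hyd] at hL hwy hy2 hy0
  rw [← hsd] at hL hs
  rw [← hAd] at hM0 hVl
  rw [← hwd] at hw hw0 hwy
  rw [← hGd] at hG hwy hGe
  rw [← hy2] at hVl hdl hkV
  rw [← hEd, ← hAd, ← hyd]
  have e1 : ∀ i, pd i (fun y => Real.sqrt (sv g p κ eps v y)) x ^ 2 =
      s / 4 * (w ^ 2 / G ^ 2 * MhV g k (W.theta p κ v) i x + w ^ 2 / G ^ 2 * (y * kV g k (W.theta p κ v) i x)
        + (1 + W.kt p (v x)) * (eps ^ 2 / G ^ 2) * pd i (W.theta p κ v) x) ^ 2 := by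
    intro i
    rw [a7_pd_sqrt hdiff (hspos x hx), hL i, ← hsd, div_pow, mul_pow, mul_pow, Real.sq_sqrt hs.le]
    field_simp
    ring
  have hterm := three_terms hE0 hw0 hy0 he hM0 hwy hGe
  rw [← hsE] at hterm
  obtain ⟨t1, t2, t3⟩ := hterm
  have hx4 : 0 < ‖x‖ ^ 4 := by positivity
  have hp1 : 0 < p0 - 1 := by linarith [hp.one_lt]
  have hkt2 : (1 + W.kt p (v x)) ^ 2 ≤ (1 + 2 / (p0 - 1)) ^ 2 :=
    pow_le_pow_left₀ (by linarith [hkt.1]) (by linarith [hkt.2]) 2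
  have hc0 : 0 ≤ w ^ 2 / G ^ 2 := by positivity
  have b1 : s * ((w ^ 2 / G ^ 2) ^ 2 * ∑ i, MhV g k (W.theta p κ v) i x ^ 2) ≤ Λ * (E * (A / y)) := by
    calc s * ((w ^ 2 / G ^ 2) ^ 2 * ∑ i, MhV g k (W.theta p κ v) i x ^ 2)
        ≤ s * ((w ^ 2 / G ^ 2) ^ 2 * (Λ * (A * y ^ 2))) := by gcongr
      _ = Λ * (s * (w ^ 2 / G ^ 2) ^ 2 * (A * y ^ 2)) := by ring
      _ ≤ Λ * (E * (A / y)) := mul_le_mul_of_nonneg_left t1 hΛ.le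
  have b2 : s * ((w ^ 2 / G ^ 2) ^ 2 * (y ^ 2 * ∑ i, kV g k (W.theta p κ v) i x ^ 2)) ≤
      243 * K ^ 2 * Λ ^ 3 * (E * y / ‖x‖ ^ 4) := by
    calc s * ((w ^ 2 / G ^ 2) ^ 2 * (y ^ 2 * ∑ i, kV g k (W.theta p κ v) i x ^ 2))
        ≤ s * ((w ^ 2 / G ^ 2) ^ 2 * (y ^ 2 * (243 * K ^ 2 * Λ ^ 3 * y ^ 2 / ‖x‖ ^ 4))) := by gcongr
      _ = 243 * K ^ 2 * Λ ^ 3 / ‖x‖ ^ 4 * (s * (w ^ 2 / G ^ 2) ^ 2 * (y ^ 2 * y ^ 2)) := by ring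
      _ ≤ 243 * K ^ 2 * Λ ^ 3 / ‖x‖ ^ 4 * (E * y) := by gcongr
      _ = _ := by ring
  have b3 : s * (((1 + W.kt p (v x)) * (eps ^ 2 / G ^ 2)) ^ 2 * ∑ i, pd i (W.theta p κ v) x ^ 2) ≤
      Λ * ((1 + 2 / (p0 - 1)) ^ 2 * E * eps ^ 3 / κ ^ 3) := by
    calc s * (((1 + W.kt p (v x)) * (eps ^ 2 / G ^ 2)) ^ 2 * ∑ i, pd i (W.theta p κ v) x ^ 2)
        ≤ s * (((1 + W.kt p (v x)) * (eps ^ 2 / G ^ 2)) ^ 2 * (Λ * y ^ 2)) := by gcongr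
      _ = Λ * ((1 + W.kt p (v x)) ^ 2 * (s * (eps ^ 2 / G ^ 2) ^ 2 * y ^ 2)) := by ring
      _ ≤ Λ * ((1 + 2 / (p0 - 1)) ^ 2 * (E * eps ^ 3 / w ^ 3)) := by gcongr
      _ ≤ Λ * ((1 + 2 / (p0 - 1)) ^ 2 * (E * eps ^ 3 / κ ^ 3)) := by gcongr
      _ = _ := by ring
  have hsum : ∑ i, pd i (fun y => Real.sqrt (sv g p κ eps v y)) x ^ 2 ≤
      3 / 4 * (s * ((w ^ 2 / G ^ 2) ^ 2 * ∑ i, MhV g k (W.theta p κ v) i x ^ 2)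
        + s * ((w ^ 2 / G ^ 2) ^ 2 * (y ^ 2 * ∑ i, kV g k (W.theta p κ v) i x ^ 2))
        + s * (((1 + W.kt p (v x)) * (eps ^ 2 / G ^ 2)) ^ 2 * ∑ i, pd i (W.theta p κ v) x ^ 2)) := by
    have e2 : 3 / 4 * (s * ((w ^ 2 / G ^ 2) ^ 2 * ∑ i, MhV g k (W.theta p κ v) i x ^ 2)
        + s * ((w ^ 2 / G ^ 2) ^ 2 * (y ^ 2 * ∑ i, kV g k (W.theta p κ v) i x ^ 2))
        + s * (((1 + W.kt p (v x)) * (eps ^ 2 / G ^ 2)) ^ 2 * ∑ i, pd i (W.theta p κ v) x ^ 2)) =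
        ∑ i, s / 4 * (3 * ((w ^ 2 / G ^ 2 * MhV g k (W.theta p κ v) i x) ^ 2
          + (w ^ 2 / G ^ 2 * (y * kV g k (W.theta p κ v) i x)) ^ 2
          + ((1 + W.kt p (v x)) * (eps ^ 2 / G ^ 2) * pd i (W.theta p κ v) x) ^ 2)) := by
      simp only [Fin.sum_univ_three]
      ring
    rw [e2]
    refine Finset.sum_le_sum fun i _ => ?_
    rw [e1 i]
    exact mul_le_mul_of_nonneg_left (a7_three _ _ _) (by positivity)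
  refine hsum.trans ?_
  have q1 : 0 ≤ E * (A / y) := by positivity
  have q2 : 0 ≤ E * y / ‖x‖ ^ 4 := by positivity
  have q3 : 0 ≤ (1 + 2 / (p0 - 1)) ^ 2 * E * eps ^ 3 / κ ^ 3 := by positivity
  have q4 : 0 ≤ 243 * K ^ 2 * Λ ^ 3 := by positivity
  nlinarith [mul_nonneg hΛ.le q1, mul_nonneg hΛ.le q2, mul_nonneg hΛ.le q3, mul_nonneg q4 q1, mul_nonneg q4 q2,
    mul_nonneg q4 q3]

end UMB.R
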