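import Pool.Agent.Lib.UMB.R.A7
import Pool.Agent.Lib.UMB.E.P8

set_option autoImplicit false

/-!
# UMB.R chunk A8: the integrated bound (R1)
-/

open Filter Topology Set MeasureTheory
open scoped ContDiff

namespace UMB.R

open Pool.Agent.Lib.PenroseSph (E3 Tens pd trg)
open UMB.Lin (Ann cAnn sig)

theorem a8_met {g : Tens} {a R : ℝ} (hg : AF g a) : MetOn g (Ann R) where
  isOpen := UMB.Lin.isOpen_Ann R
  smooth i j := (hg.smooth i j).mono fun _ hx => hg.lt.trans hx.1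
  symm x hx := hg.symm x (hg.lt.trans hx.1)
  pos x hx := hg.pos x (hg.lt.trans hx.1)

theorem a8_fin (R : ℝ) : volume (Ann R) < ⊤ := UMB.Lin.volume_Ann_lt_top R

theorem a8_meas (R : ℝ) : MeasurableSet (Ann R) := UMB.Lin.measurableSet_Ann R

theorem a8_int {R : ℝ} {f : E3 → ℝ} (hf : ContinuousOn f (Ann R)) {M : ℝ} (hM : ∀ x ∈ Ann R, |f x| ≤ M) :
    IntegrableOn f (Ann R) := by
  refine IntegrableOn.of_bound (a8_fin R) (hf.aestronglyMeasurable (a8_meas R)) M ?_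
  filter_upwards [ae_restrict_mem (a8_meas R)] with x hx
  exact hM x hx

/-- **A8.** `1 ≤ Λ vol` (`Cmp.vol_ge`), so the integrand of A7 is at most
`C Λ (enD + e^θ y |x|⁻⁴ vol) + C (1 + 2/(p0-1))² Ce R eps³/κ³` (`Th.up`: `e^θ ≤ Ce |x| ≤ Ce R`). The three integrals: `En`,
`E.X1_le` with `ρ = 1` (`Ann R ∩ {1 ≤ |x|} = Ann R`), and the last is `≤ C` by `hsm`. Integrability: `enD` by `Th.int`; `e^θ y |x|⁻⁴ vol`
is continuous on `Ann R` and bounded (`E.bdd`, `E.contOn` in E/P8.lean); `∑ (pd i √s)²` is continuous on `Ann R` (A4a, `s > 0`), so a.e.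
measurable, and dominated by an integrable function. `MetOn g (Ann R)`: restrict `E.AF.met` (E/P5.lean) to the open subset `Ann R`. -/
theorem int_grad_W (Λ K Ce : ℝ) (hCe : 0 ≤ Ce) : ∃ C : ℝ, 0 ≤ C ∧ ∀ (g k : Tens) (a R : ℝ), AF g a → E.Cmp g Λ → E.Kk g k a →
    (∀ x : E3, 1 ≤ ‖x‖ → ∀ i j, |k x i j| ≤ K / ‖x‖ ^ 2) → ∀ (p0 : ℝ) (p : ℝ → ℝ), W.Expo p0 p →
    ∀ κ eps : ℝ, 0 < κ → 0 < eps → ∀ v : E3 → ℝ, ContDiffOn ℝ ∞ v (Ann R) → (∀ x ∈ Ann R, 0 ≤ v x) →
    E.Th g k Ce R (W.theta p κ v) →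
    (1 + 2 / (p0 - 1)) ^ 2 * (Ce * R) * eps ^ 3 / κ ^ 3 * volume.real (Ann R) ≤ 1 →
    IntegrableOn (fun x => ∑ i, pd i (fun y => Real.sqrt (sv g p κ eps v y)) x ^ 2) (Ann R) ∧
      ∫ x in Ann R, ∑ i, pd i (fun y => Real.sqrt (sv g p κ eps v y)) x ^ 2 ≤ C * (1 + E.En g k R (W.theta p κ v)) := by
  obtain ⟨C7, hC7, h7⟩ := grad_W_le (Λ := Λ) (K := K)
  obtain ⟨C1, hC1, h1⟩ := E.X1_le Λ Ce hCe
  refine ⟨C7 * |Λ| + C7 * |Λ| * C1 + C7, by positivity, ?_⟩
  intro g k a R hg hc hk hkb p0 p hp κ eps hκ he v hv h0 hth hsm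
  have hΛ : 0 < Λ := hc.pos
  rw [abs_of_pos hΛ]
  have hmet : MetOn g (Ann R) := a8_met hg
  have hks : ∀ x ∈ Ann R, (k x).IsSymm := fun x hx => hk.symm x (hg.lt.trans hx.1)
  obtain ⟨hsm1, hspos⟩ := sv_smooth hmet hp hκ he hv h0
  obtain ⟨B, hB⟩ := E.bdd hg hk hth
  obtain ⟨-, hcy, -, -, -, -, -, -, -, hcv⟩ := E.contOn hg hk hth
  have hp1 : 0 < p0 - 1 := by linarith [hp.one_lt]
  -- the second function
  set f2 : E3 → ℝ := fun x => Real.exp (W.theta p κ v x) * yreg g (W.theta p κ v) 0 x / ‖x‖ ^ 4 * vol g x with hf2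
  have hR0 : 0 ≤ R := by linarith [hth.four_le]
  have hc2 : ContinuousOn f2 (Ann R) := by
    refine ContinuousOn.mul (ContinuousOn.div (ContinuousOn.mul ?_ hcy) (by fun_prop) ?_) hcv
    · exact Real.continuous_exp.comp_continuousOn hth.smooth.continuousOn
    · intro x hx
      have : 0 < ‖x‖ := lt_trans one_pos hx.1
      positivity
  have hi2 : IntegrableOn f2 (Ann R) := by
    refine a8_int hc2 (M := Real.exp B * B * B) ?_
    intro x hx
    obtain ⟨-, b2, -, -, -, -, -, -, -, b10, b11⟩ := hB x hx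
    have hx1 : 1 ≤ ‖x‖ ^ 4 := one_le_pow₀ hx.1.le
    have hBn : 0 ≤ B := (abs_nonneg _).trans b2
    have e1 : |f2 x| = Real.exp (W.theta p κ v x) * |yreg g (W.theta p κ v) 0 x| / ‖x‖ ^ 4 * |vol g x| := by
      rw [hf2]
      simp only [abs_mul, abs_div, abs_pow, abs_norm, Real.abs_exp]
    rw [e1]
    have e2 : Real.exp (W.theta p κ v x) ≤ Real.exp B := Real.exp_le_exp.2 ((le_abs_self _).trans b11)
    have e3 : Real.exp (W.theta p κ v x) * |yreg g (W.theta p κ v) 0 x| / ‖x‖ ^ 4 ≤ Real.exp B * B := by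
      rw [div_le_iff₀ (by positivity)]
      have e4 : Real.exp (W.theta p κ v x) * |yreg g (W.theta p κ v) 0 x| ≤ Real.exp B * B :=
        mul_le_mul e2 b2 (abs_nonneg _) (Real.exp_pos _).le
      have e5 : 0 ≤ Real.exp B * B := by positivity
      nlinarith
    exact mul_le_mul e3 b10 (abs_nonneg _) (by positivity)
  have hi1 : IntegrableOn (E.enD g k (W.theta p κ v)) (Ann R) := hth.int
  set c : ℝ := (1 + 2 / (p0 - 1)) ^ 2 * (Ce * R) * eps ^ 3 / κ ^ 3 with hcd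
  have hc0 : 0 ≤ c := by positivity
  have hic : IntegrableOn (fun _ : E3 => c) (Ann R) := integrableOn_const (a8_fin R).ne
  -- pointwise bound
  have hpt : ∀ x ∈ Ann R, ∑ i, pd i (fun y => Real.sqrt (sv g p κ eps v y)) x ^ 2 ≤
      C7 * Λ * E.enD g k (W.theta p κ v) x + C7 * Λ * f2 x + C7 * c := by
    intro x hx
    have hx1 : 1 ≤ ‖x‖ := hx.1.le
    have hvol := hc.vol_ge x hx1
    have hvol0 : 0 ≤ vol g x := Real.sqrt_nonneg _
    obtain ⟨hM0, -⟩ := mhV_le hmet hks hth.smooth hx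
    have hy0 : 0 ≤ yreg g (W.theta p κ v) 0 x := Real.sqrt_nonneg _
    refine (h7 g k (Ann R) hmet hks hc p0 p hp κ eps hκ he v hv h0 x hx hx1 (hkb x hx1)).trans ?_
    have a1 : Real.exp (W.theta p κ v x) * (MhSq g k (W.theta p κ v) x / yreg g (W.theta p κ v) 0 x) ≤
        Λ * E.enD g k (W.theta p κ v) x := by
      have q : 0 ≤ Real.exp (W.theta p κ v x) * (MhSq g k (W.theta p κ v) x / yreg g (W.theta p κ v) 0 x) := by positivity
      calc _ ≤ (Λ * vol g x) * (Real.exp (W.theta p κ v x) * (MhSq g k (W.theta p κ v) x / yreg g (W.theta p κ v) 0 x)) :=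
            le_mul_of_one_le_left q hvol
        _ = _ := by unfold E.enD; ring
    have a2 : Real.exp (W.theta p κ v x) * yreg g (W.theta p κ v) 0 x / ‖x‖ ^ 4 ≤ Λ * f2 x := by
      have q : 0 ≤ Real.exp (W.theta p κ v x) * yreg g (W.theta p κ v) 0 x / ‖x‖ ^ 4 := by positivity
      calc _ ≤ (Λ * vol g x) * (Real.exp (W.theta p κ v x) * yreg g (W.theta p κ v) 0 x / ‖x‖ ^ 4) :=
            le_mul_of_one_le_left q hvol
        _ = _ := by rw [hf2]; ring
    have hup : Real.exp (W.theta p κ v x) ≤ Ce * R :=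
      (hth.up x hx).trans (mul_le_mul_of_nonneg_left hx.2.le hCe)
    have a3 : (1 + 2 / (p0 - 1)) ^ 2 * Real.exp (W.theta p κ v x) * eps ^ 3 / κ ^ 3 ≤ c := by
      rw [hcd]
      gcongr
    have a4 := mul_le_mul_of_nonneg_left (add_le_add (add_le_add a1 a2) a3) hC7
    refine a4.trans (le_of_eq ?_)
    ring
  have hiG : IntegrableOn (fun x => C7 * Λ * E.enD g k (W.theta p κ v) x + C7 * Λ * f2 x + C7 * c) (Ann R) :=
    ((hi1.const_mul _).add (hi2.const_mul _)).add (integrableOn_const (a8_fin R).ne)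
  have hcW : ContinuousOn (fun x => ∑ i, pd i (fun y => Real.sqrt (sv g p κ eps v y)) x ^ 2) (Ann R) := by
    have hsq : ContDiffOn ℝ ∞ (fun y => Real.sqrt (sv g p κ eps v y)) (Ann R) :=
      hsm1.sqrt fun x hx => (hspos x hx).ne'
    refine continuousOn_finsetSum _ fun i _ => ?_
    exact ((smooth_pd (UMB.Lin.isOpen_Ann R) hsq i).continuousOn).pow 2
  have hiW : IntegrableOn (fun x => ∑ i, pd i (fun y => Real.sqrt (sv g p κ eps v y)) x ^ 2) (Ann R) := by
    refine Integrable.mono' hiG (hcW.aestronglyMeasurable (a8_meas R)) ?_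
    filter_upwards [ae_restrict_mem (a8_meas R)] with x hx
    rw [Real.norm_of_nonneg (Finset.sum_nonneg fun i _ => sq_nonneg _)]
    exact hpt x hx
  refine ⟨hiW, ?_⟩
  have hmono := setIntegral_mono_on hiW hiG (a8_meas R) hpt
  refine hmono.trans ?_
  have hI : ∫ x in Ann R, (C7 * Λ * E.enD g k (W.theta p κ v) x + C7 * Λ * f2 x + C7 * c) =
      C7 * Λ * (∫ x in Ann R, E.enD g k (W.theta p κ v) x) + C7 * Λ * (∫ x in Ann R, f2 x)
        + volume.real (Ann R) * (C7 * c) := by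
    have i1 : Integrable (fun x => C7 * Λ * E.enD g k (W.theta p κ v) x) (volume.restrict (Ann R)) := hi1.const_mul _
    have i2 : Integrable (fun x => C7 * Λ * f2 x) (volume.restrict (Ann R)) := hi2.const_mul _
    have i3 : Integrable (fun _ : E3 => C7 * c) (volume.restrict (Ann R)) := integrableOn_const (a8_fin R).ne
    have j1 := integral_add (i1.add i2) i3
    have j2 := integral_add i1 i2
    simp only [Pi.add_apply] at j1
    rw [j1, j2, integral_const_mul, integral_const_mul, setIntegral_const, smul_eq_mul]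
  rw [hI]
  have hset : Ann R ∩ {x : E3 | 1 ≤ ‖x‖} = Ann R := by
    ext x
    exact ⟨fun h => h.1, fun h => ⟨h, h.1.le⟩⟩
  have hX := h1 g k a R (W.theta p κ v) 1 hg hc hk hth le_rfl (by linarith [hth.four_le])
  rw [hset, div_one] at hX
  have hEn : E.En g k R (W.theta p κ v) = ∫ x in Ann R, E.enD g k (W.theta p κ v) x := rfl
  have hEn0 : 0 ≤ E.En g k R (W.theta p κ v) := by
    rw [hEn]
    apply setIntegral_nonneg (a8_meas R)
    intro x hx
    obtain ⟨hM0, -⟩ := mhV_le hmet hks hth.smooth hx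
    have hy0 : 0 ≤ yreg g (W.theta p κ v) 0 x := Real.sqrt_nonneg _
    have hvol0 : 0 ≤ vol g x := Real.sqrt_nonneg _
    unfold E.enD
    positivity
  rw [← hEn]
  have hX2 : ∫ x in Ann R, f2 x ≤ C1 * (1 + E.En g k R (W.theta p κ v)) := hX
  have hcv2 : volume.real (Ann R) * (C7 * c) ≤ C7 := by
    calc volume.real (Ann R) * (C7 * c) = C7 * (c * volume.real (Ann R)) := by ring
      _ ≤ C7 * 1 := mul_le_mul_of_nonneg_left hsm hC7
      _ = C7 := mul_one _
  have hCL : 0 ≤ C7 * Λ := by positivity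
  nlinarith [mul_le_mul_of_nonneg_left hX2 hCL, mul_nonneg hC7 hEn0, mul_nonneg hCL hEn0]

end UMB.R
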