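import Pool.Agent.Lib.UMB.R.Defs

set_option autoImplicit false

/-!
# UMB.R chunk B1: the factor `e^θ/w` near the outer sphere
-/

open Filter Topology Set MeasureTheory
open scoped ContDiff

namespace UMB.R

open Pool.Agent.Lib.PenroseSph (E3 Tens pd trg)
open UMB.Lin (Ann cAnn sig)

/-- **B1a.** `v` is continuous on the compact set `cAnn R` and zero on the outer sphere: uniform continuity (or: otherwise a
sequence `x_n` with `|x_n| → R`, `v x_n ≥ ε` has a limit point on the sphere). -/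
theorem v_small {R : ℝ} (hR : 1 < R) {v : E3 → ℝ} (hc : ContinuousOn v (cAnn R)) (hz : ∀ x : E3, ‖x‖ = R → v x = 0)
    {ε : ℝ} (hε : 0 < ε) : ∃ s : ℝ, 0 < s ∧ ∀ x : E3, R - s < ‖x‖ → ‖x‖ ≤ R → |v x| < ε := by
  have hu := (UMB.Lin.isCompact_cAnn R).uniformContinuousOn_of_continuous hc
  rw [Metric.uniformContinuousOn_iff] at hu
  obtain ⟨δ, hδ, h⟩ := hu ε hε
  refine ⟨min δ (R - 1), lt_min hδ (by linarith), ?_⟩
  intro x h1 h2
  have h3 : 1 < ‖x‖ := by
    have := min_le_right δ (R - 1)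
    linarith
  have h4 : R - ‖x‖ < δ := by
    have := min_le_left δ (R - 1)
    linarith
  have hx0 : ‖x‖ ≠ 0 := by linarith
  set y : E3 := (R / ‖x‖) • x with hy
  have hyn : ‖y‖ = R := by
    rw [hy, norm_smul, Real.norm_eq_abs, abs_of_nonneg (by positivity), div_mul_cancel₀ _ hx0]
  have hd : dist x y < δ := by
    rw [dist_eq_norm, hy]
    have e : x - (R / ‖x‖) • x = (1 - R / ‖x‖) • x := by rw [sub_smul, one_smul]
    rw [e, norm_smul, Real.norm_eq_abs]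
    have e2 : |1 - R / ‖x‖| * ‖x‖ = R - ‖x‖ := by
      have h5 : 1 ≤ R / ‖x‖ := by rw [le_div_iff₀ (by linarith)]; linarith
      rw [abs_of_nonpos (by linarith)]
      field_simp
      ring
    rw [e2]
    exact h4
  have h6 := h x ⟨h3.le, h2⟩ y ⟨by rw [hyn]; exact hR.le, hyn.le⟩ hd
  rw [hz y hyn, Real.dist_eq, sub_zero] at h6
  exact h6

/-- **B1b.** The function `z ↦ exp (F(z) - F(0)) κ/(K(z) + κ)` is continuous on `[0, oo)` (`W.FF_deriv`, `W.KK_smooth`) and `1` at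
`z = 0` (`KK p 0 = 0`); B1a. -/
theorem fac_near {p0 : ℝ} {p : ℝ → ℝ} (hp : W.Expo p0 p) {κ R : ℝ} (hκ : 0 < κ) (hR : 1 < R) {v : E3 → ℝ}
    (hc : ContinuousOn v (cAnn R)) (hz : ∀ x : E3, ‖x‖ = R → v x = 0) (h0 : ∀ x ∈ cAnn R, 0 ≤ v x) {ε : ℝ} (hε : 0 < ε) :
    ∃ s : ℝ, 0 < s ∧ ∀ x : E3, R - s < ‖x‖ → ‖x‖ ≤ R →
      |Real.exp (W.theta p κ v x - W.FF p κ 0) * (κ / (W.KK p (v x) + κ)) - 1| ≤ ε := by
  have hK0 : W.KK p 0 = 0 := by unfold W.KK; simp
  have hcont : ContinuousAt (fun z => Real.exp (W.FF p κ z - W.FF p κ 0) * (κ / (W.KK p z + κ))) 0 := by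
    have h1 : ContinuousAt (W.FF p κ) 0 := (W.FF_deriv hp hκ le_rfl).continuousAt
    have h2 : ContinuousAt (W.KK p) 0 := (W.KK_smooth hp).continuous.continuousAt
    refine ContinuousAt.mul (Real.continuous_exp.continuousAt.comp (h1.sub continuousAt_const)) ?_
    refine continuousAt_const.div (h2.add continuousAt_const) ?_
    rw [hK0, zero_add]
    exact hκ.ne'
  rw [Metric.continuousAt_iff] at hcont
  obtain ⟨δ, hδ, h⟩ := hcont ε hε
  obtain ⟨s, hs, h2⟩ := v_small hR hc hz hδ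
  refine ⟨s, hs, fun x h3 h4 => ?_⟩
  have h5 := h (x := v x) (by rw [Real.dist_eq, sub_zero]; exact h2 x h3 h4)
  have e : Real.exp (W.FF p κ 0 - W.FF p κ 0) * (κ / (W.KK p 0 + κ)) = 1 := by
    rw [sub_self, Real.exp_zero, hK0, zero_add, div_self hκ.ne', one_mul]
  rw [e, Real.dist_eq] at h5
  exact h5.le

end UMB.R
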