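import Pool.Agent.Lib.UMB.Par
import Pool.Agent.Lib.UMB.W.E0
import Pool.Agent.Lib.UMB.W.E1
import Pool.Agent.Lib.UMB.W.E2
import Pool.Agent.Lib.UMB.E.P3
import Pool.Agent.Lib.UMB.E.P5
import Pool.Agent.Lib.UMB.E.P6
import Pool.Agent.Lib.UMB.E.P11b

set_option autoImplicit false

/-!
# UMB.R: rounding (S4.md, section 7), definitions

`θ = W.theta p κ v`, `w = KK p v + κ`, `gve = |dv|_eps`, `sv = s = e^θ |dv|_eps / w`. The function `W = √s` satisfies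
`|∇W|² ≤ C (e^θ |Mh|²/y + e^θ y |k|² + small)`; it tends to `CC^(-1/2)` at the outer sphere; Hardy and Sobolev.
-/

open Filter Topology Set MeasureTheory
open scoped ContDiff

namespace UMB.R

open Pool.Agent.Lib.PenroseSph (E3 Tens pd trg)
open UMB.Lin (Ann cAnn sig)

/-- `|dv|_eps = √(|dv|_g² + eps²)`. -/
noncomputable def gve (g : Tens) (eps : ℝ) (v : E3 → ℝ) (x : E3) : ℝ := Real.sqrt (gsq g v x + eps ^ 2)

/-- `s = e^θ |dv|_eps / w`. -/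
noncomputable def sv (g : Tens) (p : ℝ → ℝ) (κ eps : ℝ) (v : E3 → ℝ) (x : E3) : ℝ :=
  Real.exp (W.theta p κ v x) / (W.KK p (v x) + κ) * gve g eps v x

/-- `Mh` with two lower indices. -/
noncomputable def MhL (g k : Tens) (u : E3 → ℝ) (i j : Fin 3) (x : E3) : ℝ :=
  hess g u i j x + 2 * pd i u x * pd j u x - gsq g u x * g x i j - yreg g u 0 x * k x i j

/-- `Mh(∇u)` (lower index). -/
noncomputable def MhV (g k : Tens) (u : E3 → ℝ) (i : Fin 3) (x : E3) : ℝ := ∑ j, MhL g k u i j x * gradU g u j x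

/-- `k(∇u)` (lower index). -/
noncomputable def kV (g k : Tens) (u : E3 → ℝ) (i : Fin 3) (x : E3) : ℝ := ∑ j, k x i j * gradU g u j x

/-- The integral over the shell which the flux inequality bounds: `∫_{v1 ≤ v ≤ 2 v1} ⟨∇θ, Z⟩`. -/
noncomputable def mI (P : Par) (v : E3 → ℝ) : ℝ :=
  ∫ x in {x : E3 | P.v1 ≤ v x ∧ v x ≤ 2 * P.v1} ∩ ann P.R, (P.CC v)⁻¹ * Real.exp (-3 * P.th v x) *
    (P.CC v * P.s v x) ^ (P.b (v x) + 1) * (gsq P.g v x / P.gv v x ^ 2) * vol P.g x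

/-- The hypotheses of the rounding theorem. The constants `Λ K Ce M Dm m0 c3` do not depend on `R1`, `R`, `k`, `eps`, `d`. -/
structure In (P : Par) (v : E3 → ℝ) (Λ K Ce M Dm m0 c3 : ℝ) : Prop where
  ok : P.Ok
  af : AF P.g P.a
  cmp : E.Cmp P.g Λ
  kk : E.Kk P.g P.k P.a
  kb : ∀ x : E3, 1 ≤ ‖x‖ → ∀ i j, |P.k x i j| ≤ K / ‖x‖ ^ 2
  expo : W.Expo (1 + P.q) P.p
  smooth : ContDiffOn ℝ ∞ v (Ann P.R)
  nonneg : ∀ x ∈ Ann P.R, 0 ≤ v x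
  le_one : ∀ x ∈ Ann P.R, v x ≤ 1
  bdd : ∃ B : ℝ, ∀ x ∈ Ann P.R, ∀ i, |pd i v x| ≤ B
  kap : 0 < P.kap v
  th : E.Th P.g P.k Ce P.R (P.th v)
  en : E.En P.g P.k P.R (P.th v) ≤ Dm
  cc : P.CC v ≤ M
  bd : ∃ R' : ℝ, 3 * P.R / 4 ≤ R' ∧ R' < P.R ∧ ∀ x : E3, ‖x‖ = R' →
    R' * (Real.sqrt (P.s v x) - Real.sqrt (P.CC v)⁻¹) ^ 2 ≤ 1
  shell : ∀ x ∈ Ann P.R, P.v1 ≤ v x → v x ≤ 2 * P.v1 → 4 ≤ ‖x‖ ∧ ‖x‖ ≤ P.R / 2
  T12 : P.T2 v ≤ P.T1 v + Real.log 2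
  T1 : 0 ≤ P.T1 v
  eps1 : P.eps * (8 * M * Ce * P.R) ≤ P.kap v
  eps2 : (1 + 2 / P.q) ^ 2 * (Ce * P.R) * P.eps ^ 3 / P.kap v ^ 3 * volume.real (Ann P.R) ≤ 1
  m : mI P v ≤ m0 + c3 * P.Err v

end UMB.R
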