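import Mathlib

set_option autoImplicit false

/-!
# UMB.R chunk E1: the function `X^(b+1) |log X|`
-/

open Filter Topology Set

namespace UMB.R

theorem e1_log (X : ℝ) (hX : 0 < X) : Real.log X = 2 * Real.log (Real.sqrt X) := by
  rw [Real.log_sqrt hX.le]
  ring

/-- **E1a.** `t = √X - 1`, `|t| ≤ 1/2`, `X = (1+t)² ≤ 9/4`, `X^(b+1) ≤ (9/4)²` (also for `X < 1`), `|log X| = 2 |log(1+t)| ≤ 4 |t|`
(`Real.one_sub_inv_le_log_of_pos`, `Real.log_le_sub_one_of_pos`). `4 · 81/16 ≤ 21`. -/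
theorem psi_near {X b : ℝ} (hX : 0 < X) (hb0 : 0 ≤ b) (hb1 : b ≤ 1) (h : |Real.sqrt X - 1| ≤ 1 / 2) :
    X ^ (b + 1) * |Real.log X| ≤ 21 * |Real.sqrt X - 1| := by
  obtain ⟨ω, hω⟩ : ∃ ω, ω = Real.sqrt X := ⟨_, rfl⟩
  have hω0 : 0 < ω := by rw [hω]; exact Real.sqrt_pos.2 hX
  have hωX : ω ^ 2 = X := by rw [hω]; exact Real.sq_sqrt hX.le
  rw [e1_log X hX, ← hω]
  rw [← hω] at h
  have h1 := abs_le.1 h
  have h2 : X ^ (b + 1) ≤ 81 / 16 := by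
    rcases le_total X 1 with hx | hx
    · have : X ^ (b + 1) ≤ 1 := Real.rpow_le_one hX.le hx (by linarith)
      linarith
    · have h3 : X ^ (b + 1) ≤ X ^ (2 : ℝ) := Real.rpow_le_rpow_of_exponent_le hx (by linarith)
      rw [Real.rpow_two] at h3
      have h4 : X ≤ 9 / 4 := by nlinarith [h1.1, h1.2]
      nlinarith
  have h5 : |2 * Real.log ω| ≤ 4 * |ω - 1| := by
    have h6 := Real.log_le_sub_one_of_pos hω0
    have h7 := Real.one_sub_inv_le_log_of_pos hω0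
    have h8 : 1 - ω⁻¹ = (ω - 1) / ω := by field_simp
    have h9 : -(2 * |ω - 1|) ≤ (ω - 1) / ω := by
      rw [le_div_iff₀ hω0]
      have h10 := neg_abs_le (ω - 1)
      have h11 := abs_nonneg (ω - 1)
      nlinarith [h1.1]
    have h12 := le_abs_self (ω - 1)
    rw [abs_le]
    constructor
    · linarith
    · have := abs_nonneg (ω - 1)
      linarith
  calc X ^ (b + 1) * |2 * Real.log ω| ≤ 81 / 16 * (4 * |ω - 1|) :=
        mul_le_mul h2 h5 (abs_nonneg _) (by norm_num)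
    _ ≤ 21 * |ω - 1| := by
        have := abs_nonneg (ω - 1)
        linarith

/-- **E1b.** `√X < 1/2`: `X < 1/4`, `X^(b+1) ≤ X`, `X |log X| ≤ 1` (`Real.abs_log_mul_self_lt`), and `1000 |t|⁶ ≥ 1000/64`.
`√X > 3/2`: with `ω = √X = 1 + t`: `X^(b+1) ≤ X² = ω⁴`, `|log X| = 2 log ω ≤ 2 ω`, `ω ≤ 3 t`, `t ≥ 1/2`: `2 ω⁵ ≤ 486 t⁵ ≤ 972 t⁶`. -/
theorem psi_far {X b : ℝ} (hX : 0 < X) (hb0 : 0 ≤ b) (hb1 : b ≤ 1) (h : 1 / 2 < |Real.sqrt X - 1|) :
    X ^ (b + 1) * |Real.log X| ≤ 1000 * |Real.sqrt X - 1| ^ 6 := by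
  obtain ⟨ω, hω⟩ : ∃ ω, ω = Real.sqrt X := ⟨_, rfl⟩
  have hω0 : 0 < ω := by rw [hω]; exact Real.sqrt_pos.2 hX
  have hωX : ω ^ 2 = X := by rw [hω]; exact Real.sq_sqrt hX.le
  rw [← hω] at h ⊢
  rcases lt_abs.1 h with h1 | h1
  · have hX1 : 1 ≤ X := by nlinarith
    have h3 : X ^ (b + 1) ≤ X ^ (2 : ℝ) := Real.rpow_le_rpow_of_exponent_le hX1 (by linarith)
    rw [Real.rpow_two] at h3
    have h4 : |Real.log X| ≤ 2 * ω := by
      rw [abs_of_nonneg (Real.log_nonneg hX1), e1_log X hX, ← hω]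
      have := Real.log_le_sub_one_of_pos hω0
      linarith
    obtain ⟨t, ht⟩ : ∃ t, t = ω - 1 := ⟨_, rfl⟩
    rw [← ht] at h1
    have hab : |ω - 1| = t := by rw [← ht, abs_of_pos (by linarith)]
    rw [hab]
    have h5 : ω ≤ 3 * t := by linarith
    have h6 : X ^ 2 * (2 * ω) = 2 * ω ^ 5 := by rw [← hωX]; ring
    have h7 : ω ^ 5 ≤ (3 * t) ^ 5 := pow_le_pow_left₀ hω0.le h5 5
    have ht5 : 0 ≤ t ^ 5 := by positivity
    calc X ^ (b + 1) * |Real.log X| ≤ X ^ 2 * (2 * ω) :=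
          mul_le_mul h3 h4 (abs_nonneg _) (by positivity)
      _ = 2 * ω ^ 5 := h6
      _ ≤ 2 * (3 * t) ^ 5 := by linarith
      _ = 486 * t ^ 5 := by ring
      _ ≤ 1000 * t ^ 6 := by nlinarith
  · have hω1 : ω < 1 / 2 := by linarith
    have hX1 : X < 1 / 4 := by nlinarith
    have h3 : X ^ (b + 1) ≤ X := by
      calc X ^ (b + 1) ≤ X ^ (1 : ℝ) := Real.rpow_le_rpow_of_exponent_ge hX (by linarith) (by linarith)
        _ = X := Real.rpow_one X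
    have h4 := Real.abs_log_mul_self_lt X hX (by linarith)
    rw [abs_mul, abs_of_pos hX] at h4
    have h5 : (1 / 2 : ℝ) ^ 6 ≤ |ω - 1| ^ 6 := pow_le_pow_left₀ (by norm_num) h.le 6
    calc X ^ (b + 1) * |Real.log X| ≤ X * |Real.log X| := mul_le_mul_of_nonneg_right h3 (abs_nonneg _)
      _ ≤ 1 := by rw [mul_comm]; exact h4.le
      _ ≤ 1000 * |ω - 1| ^ 6 := by norm_num at h5; linarith

end UMB.R
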