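import Mathlib

set_option autoImplicit false

/-!
# UMB.R chunk E1c: the algebra of the last step
-/

open Filter Topology Set

namespace UMB.R

theorem e1c_rpow {x q : ℝ} (hx : 0 ≤ x) (hq0 : 0 ≤ q) (hq1 : q ≤ 1) : x ^ q ≤ 1 + x := by
  rcases le_total x 1 with h | h
  · have := Real.rpow_le_one hx h hq0
    linarith
  · have h1 : x ^ q ≤ x ^ (1 : ℝ) := Real.rpow_le_rpow_of_exponent_le h hq1
    rw [Real.rpow_one] at h1
    linarith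

/-- **E1c.** The last step: `E ≤ a e^(-3 T1) (N^(5/6) S^(1/6) + S)`, `N ≤ b e^(3 T2) (m0 + c3 E)`, `T2 ≤ T1 + log 2`, `T1 ≥ 0`.
`e^(3 T2) ≤ 8 e^(3 T1)`, so `N^(5/6) ≤ (8b)^(5/6) e^(5 T1/2) (m0 + c3 E)^(5/6) ≤ (1 + 8b) e^(5 T1/2) (1 + m0 + c3 E)`
(`x^(5/6) ≤ 1 + x`), `S^(1/6) ≤ 1 + S`, `e^(-3T1) ≤ e^(-T1/2)`. So `E ≤ C1 e^(-T1/2) (1 + E)` with
`C1 = a (1 + 8b) (1 + m0 + c3) (1 + S) + a S`; if `2 C1 ≤ e^(T1/2)`, then `E ≤ 2 C1 e^(-T1/2)`. -/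
theorem last_alg {a b m0 c3 S : ℝ} (ha : 0 ≤ a) (hb : 0 ≤ b) (hm : 0 ≤ m0) (hc : 0 ≤ c3) (hS : 0 ≤ S) :
    ∃ C : ℝ, 0 < C ∧ ∀ E N T1 T2 : ℝ, 0 ≤ E → 0 ≤ N → 0 ≤ T1 → T2 ≤ T1 + Real.log 2 →
      E ≤ a * Real.exp (-3 * T1) * (N ^ (5 / 6 : ℝ) * S ^ (1 / 6 : ℝ) + S) → N ≤ b * Real.exp (3 * T2) * (m0 + c3 * E) →
      C ≤ Real.exp (T1 / 2) → E ≤ C * Real.exp (-(T1 / 2)) := by
  obtain ⟨C1, hC1⟩ : ∃ C1, C1 = a * (1 + 8 * b) * (1 + m0 + c3) * (1 + S) + a * S := ⟨_, rfl⟩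
  have hC10 : 0 ≤ C1 := by rw [hC1]; positivity
  refine ⟨2 * C1 + 1, by linarith, ?_⟩
  intro E N T1 T2 hE hN hT1 hT2 hEle hNle hC
  obtain ⟨z, hz⟩ : ∃ z, z = Real.exp (T1 / 2) := ⟨_, rfl⟩
  have hz0 : 0 < z := by rw [hz]; exact Real.exp_pos _
  have hz1 : 1 ≤ z := by rw [hz]; exact Real.one_le_exp (by linarith)
  have e1 : Real.exp (-3 * T1) = (z ^ 6)⁻¹ := by
    rw [hz, ← Real.exp_nat_mul, ← Real.exp_neg]
    congr 1
    push_cast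
    ring
  have e2 : Real.exp (3 * T2) ≤ 8 * z ^ 6 := by
    have h1 : Real.exp (3 * T2) ≤ Real.exp (3 * (T1 + Real.log 2)) := Real.exp_le_exp.2 (by linarith)
    have h2 : Real.exp (3 * (T1 + Real.log 2)) = 8 * z ^ 6 := by
      have h3 : 3 * (T1 + Real.log 2) = 3 * Real.log 2 + ((6 : ℕ) : ℝ) * (T1 / 2) := by push_cast; ring
      have h4 : Real.exp (3 * Real.log 2) = 8 := by
        have h5 : (3 : ℝ) * Real.log 2 = ((3 : ℕ) : ℝ) * Real.log 2 := by norm_num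
        rw [h5, Real.exp_nat_mul, Real.exp_log (by norm_num)]
        norm_num
      rw [h3, Real.exp_add, h4, Real.exp_nat_mul, ← hz]
    linarith
  have e3 : Real.exp (-(T1 / 2)) = z⁻¹ := by rw [hz, Real.exp_neg]
  have hN2 : N ≤ 8 * b * (z ^ 6 * (m0 + c3 * E)) := by
    calc N ≤ b * Real.exp (3 * T2) * (m0 + c3 * E) := hNle
      _ ≤ b * (8 * z ^ 6) * (m0 + c3 * E) := by
        apply mul_le_mul_of_nonneg_right _ (by positivity)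
        exact mul_le_mul_of_nonneg_left e2 hb
      _ = 8 * b * (z ^ 6 * (m0 + c3 * E)) := by ring
  have hzp : (z ^ 6) ^ (5 / 6 : ℝ) = z ^ 5 := by
    rw [← Real.rpow_natCast z 6, ← Real.rpow_mul hz0.le, ← Real.rpow_natCast z 5]
    congr 1
    norm_num
  have hN3 : N ^ (5 / 6 : ℝ) ≤ (1 + 8 * b) * (z ^ 5 * (1 + (m0 + c3 * E))) := by
    have h1 : N ^ (5 / 6 : ℝ) ≤ (8 * b * (z ^ 6 * (m0 + c3 * E))) ^ (5 / 6 : ℝ) :=
      Real.rpow_le_rpow hN hN2 (by norm_num)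
    have h2 : (8 * b * (z ^ 6 * (m0 + c3 * E))) ^ (5 / 6 : ℝ) =
        (8 * b) ^ (5 / 6 : ℝ) * (z ^ 5 * (m0 + c3 * E) ^ (5 / 6 : ℝ)) := by
      rw [Real.mul_rpow (x := 8 * b) (y := z ^ 6 * (m0 + c3 * E)) (by positivity) (by positivity),
        Real.mul_rpow (x := z ^ 6) (y := m0 + c3 * E) (by positivity) (by positivity), hzp]
    have h3 : (8 * b) ^ (5 / 6 : ℝ) ≤ 1 + 8 * b := e1c_rpow (by positivity) (by norm_num) (by norm_num)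
    have h4 : (m0 + c3 * E) ^ (5 / 6 : ℝ) ≤ 1 + (m0 + c3 * E) :=
      e1c_rpow (by positivity) (by norm_num) (by norm_num)
    calc N ^ (5 / 6 : ℝ) ≤ (8 * b) ^ (5 / 6 : ℝ) * (z ^ 5 * (m0 + c3 * E) ^ (5 / 6 : ℝ)) := h1.trans h2.le
      _ ≤ (1 + 8 * b) * (z ^ 5 * (1 + (m0 + c3 * E))) := by
        apply mul_le_mul h3 _ (by positivity) (by positivity)
        exact mul_le_mul_of_nonneg_left h4 (by positivity)
  have hS3 : S ^ (1 / 6 : ℝ) ≤ 1 + S := e1c_rpow hS (by norm_num) (by norm_num)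
  have hprod : N ^ (5 / 6 : ℝ) * S ^ (1 / 6 : ℝ) ≤ (1 + 8 * b) * (z ^ 5 * (1 + (m0 + c3 * E))) * (1 + S) :=
    mul_le_mul hN3 hS3 (by positivity) (by positivity)
  have hmc : 1 + (m0 + c3 * E) ≤ (1 + m0 + c3) * (1 + E) := by nlinarith [mul_nonneg hm hE]
  have hz5 : (z ^ 6)⁻¹ * z ^ 5 = z⁻¹ := by
    field_simp
  have hz6 : (z ^ 6)⁻¹ ≤ z⁻¹ := by
    apply inv_anti₀ hz0
    have h1 : (1 : ℝ) ≤ z ^ 5 := one_le_pow₀ hz1
    nlinarith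
  have hmain : E ≤ C1 * z⁻¹ * (1 + E) := by
    rw [e1] at hEle
    calc E ≤ a * (z ^ 6)⁻¹ * (N ^ (5 / 6 : ℝ) * S ^ (1 / 6 : ℝ) + S) := hEle
      _ ≤ a * (z ^ 6)⁻¹ * ((1 + 8 * b) * (z ^ 5 * (1 + (m0 + c3 * E))) * (1 + S) + S) := by
        apply mul_le_mul_of_nonneg_left _ (by positivity)
        linarith
      _ = a * (1 + 8 * b) * (1 + S) * ((z ^ 6)⁻¹ * z ^ 5) * (1 + (m0 + c3 * E)) + a * S * (z ^ 6)⁻¹ := by ring
      _ ≤ a * (1 + 8 * b) * (1 + S) * z⁻¹ * ((1 + m0 + c3) * (1 + E)) + a * S * (z⁻¹ * (1 + E)) := by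
        rw [hz5]
        apply add_le_add
        · exact mul_le_mul_of_nonneg_left hmc (by positivity)
        · apply mul_le_mul_of_nonneg_left _ (by positivity)
          have hzi : 0 ≤ z⁻¹ := by positivity
          nlinarith
      _ = C1 * z⁻¹ * (1 + E) := by rw [hC1]; ring
  rw [← hz] at hC
  rw [e3]
  have hzi : 0 < z⁻¹ := by positivity
  have hhalf : C1 * z⁻¹ ≤ 1 / 2 := by
    rw [← div_eq_mul_inv, div_le_iff₀ hz0]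
    linarith
  nlinarith

end UMB.R
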