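import Pool.Agent.Lib.UMB.R.A4
import Pool.Agent.Lib.UMB.R.E1

set_option autoImplicit false

/-!
# UMB.R chunk E2: bounds in the shell
-/

open Filter Topology Set MeasureTheory
open scoped ContDiff

namespace UMB.R

open Pool.Agent.Lib.PenroseSph (E3 Tens pd trg)
open UMB.Lin (Ann cAnn sig)

/-- The shell. -/
def shl (P : Par) (v : E3 → ℝ) : Set E3 := {x : E3 | P.v1 ≤ v x ∧ v x ≤ 2 * P.v1} ∩ ann P.R

/-- The shell is measurable: `v` is continuous on the open set `Ann R`. -/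
theorem meas_shell {P : Par} {v : E3 → ℝ} (hv : ContDiffOn ℝ ∞ v (Ann P.R)) : MeasurableSet (shl P v) := by
  have hO := UMB.Lin.isOpen_Ann P.R
  have h1 : IsOpen (Ann P.R ∩ v ⁻¹' Iio P.v1) := hv.continuousOn.isOpen_inter_preimage hO isOpen_Iio
  have h2 : IsOpen (Ann P.R ∩ v ⁻¹' Ioi (2 * P.v1)) := hv.continuousOn.isOpen_inter_preimage hO isOpen_Ioi
  have e : shl P v = (Ann P.R \ (Ann P.R ∩ v ⁻¹' Iio P.v1)) ∩ (Ann P.R \ (Ann P.R ∩ v ⁻¹' Ioi (2 * P.v1))) := by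
    ext x
    constructor
    · rintro ⟨⟨h3, h4⟩, h5⟩
      exact ⟨⟨h5, fun h => absurd h.2 (not_lt.2 h3)⟩, ⟨h5, fun h => absurd h.2 (not_lt.2 h4)⟩⟩
    · rintro ⟨⟨h3, h4⟩, ⟨-, h5⟩⟩
      exact ⟨⟨not_lt.1 fun h => h4 ⟨h3, h⟩, not_lt.1 fun h => h5 ⟨h3, h⟩⟩, h3⟩
  rw [e]
  exact (hO.measurableSet.diff h1.measurableSet).inter (hO.measurableSet.diff h2.measurableSet)

variable {P : Par} {v : E3 → ℝ} {Λ K Ce M Dm m0 c3 : ℝ}

/-- `CC > 0` (definition), `M > 0`. -/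
theorem In.CC_pos (h : In P v Λ K Ce M Dm m0 c3) : 0 < P.CC v ∧ 0 < M ∧ 0 < P.R := by
  have hR : 0 < P.R := by linarith [h.th.four_le]
  have h1 : 0 < P.CC v := mul_pos hR (Real.exp_pos _)
  exact ⟨h1, h1.trans_le h.cc, hR⟩

/-- `P.s` is `sv`, `P.th` is `W.theta`. -/
theorem s_eq (P : Par) (v : E3 → ℝ) : P.s v = sv P.g P.p (P.kap v) P.eps v := rfl

theorem In.met (h : In P v Λ K Ce M Dm m0 c3) : MetOn P.g (Ann P.R) where
  isOpen := UMB.Lin.isOpen_Ann P.R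
  smooth i j := (h.af.smooth i j).mono fun _ hx => h.af.lt.trans hx.1
  symm x hx := h.af.symm x (h.af.lt.trans hx.1)
  pos x hx := h.af.pos x (h.af.lt.trans hx.1)

theorem e2_v1 (h : In P v Λ K Ce M Dm m0 c3) : 0 < P.v1 := by
  have h1 := h.ok.r1_ge
  have h2 := h.ok.R1_ge
  unfold Par.v1
  apply lt_min one_pos
  apply Real.rpow_pos_of_pos
  have : 0 < P.R1 := by linarith
  positivity

/-- **E2a.** On the shell `T1 ≤ θ ≤ T2`: `θ = F(v)`, `F` is antitone on `[0, oo)` (`W.FF_anti`), `T1 = F(2 v1)`, `T2 = F(v1)`, `v1 ≥ 0`. -/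
theorem In.th_mem (h : In P v Λ K Ce M Dm m0 c3) {x : E3} (hx : x ∈ shl P v) :
    P.T1 v ≤ P.th v x ∧ P.th v x ≤ P.T2 v := by
  have hv1 := e2_v1 h
  have hanti := (W.FF_anti h.expo h.kap).antitoneOn
  obtain ⟨⟨h1, h2⟩, h3⟩ := hx
  have hvx : 0 ≤ v x := h.nonneg x h3
  constructor
  · exact hanti (show v x ∈ Ici 0 from hvx) (show 2 * P.v1 ∈ Ici (0:ℝ) from by simp only [mem_Ici]; positivity) h2
  · exact hanti (show P.v1 ∈ Ici (0:ℝ) from hv1.le) (show v x ∈ Ici 0 from hvx) h1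

theorem e2_w (h : In P v Λ K Ce M Dm m0 c3) {x : E3} (hx : x ∈ Ann P.R) :
    P.kap v ≤ W.KK P.p (v x) + P.kap v ∧ W.KK P.p (v x) + P.kap v ≤ 2 / P.q + P.kap v := by
  obtain ⟨h1, h2⟩ := W.KK_bd h.expo (h.nonneg x hx)
  have h3 := h.nonneg x hx
  have h4 := h.le_one x hx
  have hq := h.ok.q_pos
  constructor
  · linarith
  · have h5 : 2 / (1 + P.q - 1) * v x ≤ 2 / P.q * 1 := by
      rw [show 1 + P.q - 1 = P.q by ring]
      exact mul_le_mul_of_nonneg_left h4 (by positivity)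
    linarith

/-- **E2b.** `s` is positive and `CC s` is bounded and bounded away from zero on `Ann R` (for the integrability):
`1 ≤ e^θ ≤ Ce R` (`Th.pos`, `Th.up`), `κ ≤ w ≤ 2/q + κ` (`W.KK_bd`, `0 ≤ v ≤ 1`), `eps ≤ gve ≤ √(9 Λ 3 B² + eps²)` (`Cmp.inv`, `bdd`). -/
theorem In.s_bd (h : In P v Λ K Ce M Dm m0 c3) : ∃ c C : ℝ, 0 < c ∧ ∀ x ∈ Ann P.R, c ≤ P.CC v * P.s v x ∧
    P.CC v * P.s v x ≤ C := by
  obtain ⟨hCC, hM, hR⟩ := h.CC_pos
  obtain ⟨B, hB⟩ := h.bdd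
  have hq := h.ok.q_pos
  have heps := h.ok.eps_pos
  have hΛ := h.cmp.pos
  have hκ := h.kap
  have hCe : 0 < Ce := by
    obtain ⟨x, hx⟩ : ∃ x : E3, x ∈ Ann P.R := by
      refine ⟨EuclideanSpace.single 0 2, ?_⟩
      have h4 := h.th.four_le
      simp only [Ann, mem_setOf_eq, EuclideanSpace.norm_single, Real.norm_ofNat]
      exact ⟨by norm_num, by linarith⟩
    have h1 := h.th.up x hx
    have h2 : 0 < ‖x‖ := lt_trans one_pos hx.1
    by_contra hc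
    have h3 : Ce * ‖x‖ ≤ 0 := mul_nonpos_of_nonpos_of_nonneg (not_lt.1 hc) h2.le
    linarith [Real.exp_pos (P.th v x)]
  refine ⟨P.CC v * (1 / (2 / P.q + P.kap v) * P.eps),
    P.CC v * (Ce * P.R / P.kap v * Real.sqrt (9 * Λ * B ^ 2 + P.eps ^ 2)), by positivity, ?_⟩
  intro x hx
  obtain ⟨hw1, hw2⟩ := e2_w h hx
  have hw0 : 0 < W.KK P.p (v x) + P.kap v := hκ.trans_le hw1
  have hth0 := h.th.pos x hx
  have hth1 := h.th.up x hx
  have hgs : 0 ≤ gsq P.g v x := h.met.gsq_nonneg hx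
  have hx1 : 1 ≤ ‖x‖ := hx.1.le
  have hgs2 : gsq P.g v x ≤ 9 * Λ * B ^ 2 := by
    have hB0 : 0 ≤ B := (abs_nonneg _).trans (hB x hx 0)
    have e1 : ∀ a, |gradU P.g v a x| ≤ 3 * Λ * B := by
      intro a
      unfold gradU
      calc |∑ j, (P.g x)⁻¹ a j * pd j v x| ≤ ∑ j, |(P.g x)⁻¹ a j * pd j v x| := Finset.abs_sum_le_sum_abs _ _
        _ ≤ ∑ _j : Fin 3, Λ * B := by
            refine Finset.sum_le_sum fun j _ => ?_
            rw [abs_mul]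
            exact mul_le_mul (h.cmp.inv x hx1 a j) (hB x hx j) (abs_nonneg _) hΛ.le
        _ = 3 * Λ * B := by simp; ring
    calc gsq P.g v x ≤ |gsq P.g v x| := le_abs_self _
      _ ≤ ∑ a, |pd a v x * gradU P.g v a x| := Finset.abs_sum_le_sum_abs _ _
      _ ≤ ∑ _a : Fin 3, B * (3 * Λ * B) := by
          refine Finset.sum_le_sum fun a _ => ?_
          rw [abs_mul]
          exact mul_le_mul (hB x hx a) (e1 a) (abs_nonneg _) hB0
      _ = 9 * Λ * B ^ 2 := by simp; ring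
  have hG1 : P.eps ≤ gve P.g P.eps v x := by
    unfold gve
    apply Real.le_sqrt_of_sq_le
    linarith
  have hG2 : gve P.g P.eps v x ≤ Real.sqrt (9 * Λ * B ^ 2 + P.eps ^ 2) := Real.sqrt_le_sqrt (by linarith)
  have hE1 : 1 ≤ Real.exp (P.th v x) := Real.one_le_exp hth0.le
  have hE2 : Real.exp (P.th v x) ≤ Ce * P.R := hth1.trans (mul_le_mul_of_nonneg_left hx.2.le hCe.le)
  have e : P.s v x = Real.exp (P.th v x) / (W.KK P.p (v x) + P.kap v) * gve P.g P.eps v x := rfl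
  rw [e]
  constructor
  · apply mul_le_mul_of_nonneg_left _ hCC.le
    apply mul_le_mul _ hG1 heps.le (by positivity)
    exact div_le_div₀ (Real.exp_pos _).le hE1 hw0 hw2
  · apply mul_le_mul_of_nonneg_left _ hCC.le
    apply mul_le_mul _ hG2 (Real.sqrt_nonneg _) (by positivity)
    exact div_le_div₀ (by positivity) hE2 hκ hw1

/-- **E2c.** If `CC s ≥ 1/4` then `gve ≥ 2 eps`: `gve = s w e^(-θ) ≥ κ/(4 CC Ce R) ≥ κ/(4 M Ce R) ≥ 2 eps` (`eps1`), so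
`gsq/gve² = 1 - eps²/gve² ≥ 1/2`. -/
theorem In.ratio (h : In P v Λ K Ce M Dm m0 c3) {x : E3} (hx : x ∈ Ann P.R) (h1 : 1 / 4 ≤ P.CC v * P.s v x) :
    1 / 2 ≤ gsq P.g v x / P.gv v x ^ 2 := by
  obtain ⟨hCC, hM, hR⟩ := h.CC_pos
  have heps := h.ok.eps_pos
  have hκ := h.kap
  obtain ⟨hw1, hw2⟩ := e2_w h hx
  have hw0 : 0 < W.KK P.p (v x) + P.kap v := hκ.trans_le hw1
  have hth1 := h.th.up x hx
  have hx0 : 0 < ‖x‖ := lt_trans one_pos hx.1
  have hCe : 0 < Ce := by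
    by_contra hc
    have h3 : Ce * ‖x‖ ≤ 0 := mul_nonpos_of_nonpos_of_nonneg (not_lt.1 hc) hx0.le
    linarith [Real.exp_pos (P.th v x)]
  have hE2 : Real.exp (P.th v x) ≤ Ce * P.R := hth1.trans (mul_le_mul_of_nonneg_left hx.2.le hCe.le)
  have hE0 := Real.exp_pos (P.th v x)
  have hgs : 0 ≤ gsq P.g v x := h.met.gsq_nonneg hx
  have e : P.s v x = Real.exp (P.th v x) / (W.KK P.p (v x) + P.kap v) * P.gv v x := rfl
  have hgv0 : 0 ≤ P.gv v x := Real.sqrt_nonneg _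
  have hgv2 : P.gv v x ^ 2 = gsq P.g v x + P.eps ^ 2 := Real.sq_sqrt (by positivity)
  -- `κ ≤ 4 M Ce R gv`
  have h2 : P.kap v ≤ 4 * M * Ce * P.R * P.gv v x := by
    rw [e] at h1
    have h3 : W.KK P.p (v x) + P.kap v ≤ 4 * (P.CC v * (Real.exp (P.th v x) * P.gv v x)) := by
      have h4 : P.CC v * (Real.exp (P.th v x) / (W.KK P.p (v x) + P.kap v) * P.gv v x) =
          P.CC v * (Real.exp (P.th v x) * P.gv v x) / (W.KK P.p (v x) + P.kap v) := by ring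
      rw [h4, le_div_iff₀ hw0] at h1
      linarith
    have h5 : P.CC v * (Real.exp (P.th v x) * P.gv v x) ≤ M * (Ce * P.R * P.gv v x) := by
      apply mul_le_mul h.cc (mul_le_mul_of_nonneg_right hE2 hgv0) (by positivity) hM.le
    nlinarith
  have h6 : 2 * P.eps ≤ P.gv v x := by
    have h7 := h.eps1
    have h8 : P.eps * (8 * M * Ce * P.R) ≤ 4 * M * Ce * P.R * P.gv v x := h7.trans h2
    have h9 : 0 < 4 * M * Ce * P.R := by positivity
    have h10 : (4 * M * Ce * P.R) * (2 * P.eps) ≤ (4 * M * Ce * P.R) * P.gv v x := by linarith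
    exact le_of_mul_le_mul_left h10 h9
  have hgvp : 0 < P.gv v x := by linarith
  rw [le_div_iff₀ (by positivity)]
  have h11 : (2 * P.eps) ^ 2 ≤ P.gv v x ^ 2 := pow_le_pow_left₀ (by positivity) h6 2
  nlinarith

end UMB.R
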