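import Pool.Agent.Lib.UMB.R.E2

set_option autoImplicit false

/-!
# UMB.R chunk E3: the measure of the good part of the shell
-/

open Filter Topology Set MeasureTheory
open scoped ContDiff

namespace UMB.R

open Pool.Agent.Lib.PenroseSph (E3 Tens pd trg)
open UMB.Lin (Ann cAnn sig)

variable {P : Par} {v : E3 → ℝ} {Λ K Ce M Dm m0 c3 : ℝ}

/-- The good part of the shell. -/
def good (P : Par) (v : E3 → ℝ) : Set E3 := shl P v ∩ {x : E3 | |Real.sqrt (P.CC v * P.s v x) - 1| ≤ 1 / 2}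

theorem e3_s_cont (h : In P v Λ K Ce M Dm m0 c3) : ContinuousOn (fun x => P.CC v * P.s v x) (Ann P.R) :=
  ((sv_smooth h.met h.expo h.kap h.ok.eps_pos h.smooth h.nonneg).1.continuousOn).const_mul _ |>.congr fun _ _ => rfl

theorem e3_meas_good (h : In P v Λ K Ce M Dm m0 c3) : MeasurableSet (good P v) := by
  have hO := UMB.Lin.isOpen_Ann P.R
  have h1 : ContinuousOn (fun x => |Real.sqrt (P.CC v * P.s v x) - 1|) (Ann P.R) :=
    (((e3_s_cont h).sqrt).sub continuousOn_const).abs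
  have h2 : IsOpen (Ann P.R ∩ (fun x => |Real.sqrt (P.CC v * P.s v x) - 1|) ⁻¹' Ioi (1 / 2)) :=
    h1.isOpen_inter_preimage hO isOpen_Ioi
  have e : good P v = shl P v \ (Ann P.R ∩ (fun x => |Real.sqrt (P.CC v * P.s v x) - 1|) ⁻¹' Ioi (1 / 2)) := by
    ext x
    constructor
    · rintro ⟨h3, h4⟩
      refine ⟨h3, fun h5 => ?_⟩
      have h6 : |Real.sqrt (P.CC v * P.s v x) - 1| ≤ 1 / 2 := h4
      have h7 : 1 / 2 < |Real.sqrt (P.CC v * P.s v x) - 1| := h5.2
      linarith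
    · rintro ⟨h3, h4⟩
      refine ⟨h3, ?_⟩
      show |Real.sqrt (P.CC v * P.s v x) - 1| ≤ 1 / 2
      by_contra h5
      exact h4 ⟨h3.2, not_le.1 h5⟩
  rw [e]
  exact (meas_shell h.smooth).diff h2.measurableSet

theorem e3_b (h : In P v Λ K Ce M Dm m0 c3) (z : ℝ) : 0 ≤ P.b z ∧ P.b z ≤ 1 := by
  have h1 := h.ok.q_pos
  have h2 := h.ok.q_lt
  have h3 := Real.smoothTransition.nonneg ((2 * P.v1 - z) / P.v1)
  have h4 := Real.smoothTransition.le_one ((2 * P.v1 - z) / P.v1)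
  unfold Par.b
  constructor
  · have : 0 ≤ (1 - P.q) * Real.smoothTransition ((2 * P.v1 - z) / P.v1) := mul_nonneg (by linarith) h3
    linarith
  · have : (1 - P.q) * Real.smoothTransition ((2 * P.v1 - z) / P.v1) ≤ (1 - P.q) * 1 :=
      mul_le_mul_of_nonneg_left h4 (by linarith)
    linarith

theorem e3_b_cont (P : Par) : Continuous P.b := by
  unfold Par.b
  exact continuous_const.add (continuous_const.mul (Real.smoothTransition.continuous.comp
    ((continuous_const.sub continuous_id).div_const _)))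

/-- The density of `mI`. -/
noncomputable def e3_I (P : Par) (v : E3 → ℝ) (x : E3) : ℝ := (P.CC v)⁻¹ * Real.exp (-3 * P.th v x) *
    (P.CC v * P.s v x) ^ (P.b (v x) + 1) * (gsq P.g v x / P.gv v x ^ 2) * vol P.g x

theorem e3_gv_pos (h : In P v Λ K Ce M Dm m0 c3) {x : E3} (hx : x ∈ Ann P.R) : 0 < P.gv v x ∧
    P.gv v x ^ 2 = gsq P.g v x + P.eps ^ 2 := by
  have hgs : 0 ≤ gsq P.g v x := h.met.gsq_nonneg hx
  have heps := h.ok.eps_pos
  exact ⟨Real.sqrt_pos.2 (by positivity), Real.sq_sqrt (by positivity)⟩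

theorem e3_I_nonneg (h : In P v Λ K Ce M Dm m0 c3) {x : E3} (hx : x ∈ Ann P.R) : 0 ≤ e3_I P v x := by
  obtain ⟨hCC, hM, hR⟩ := h.CC_pos
  obtain ⟨c, C, hc, hcC⟩ := h.s_bd
  have h1 : 0 < P.CC v * P.s v x := hc.trans_le (hcC x hx).1
  have hgs : 0 ≤ gsq P.g v x := h.met.gsq_nonneg hx
  have hvol : 0 ≤ vol P.g x := Real.sqrt_nonneg _
  obtain ⟨h2, -⟩ := e3_gv_pos h hx
  unfold e3_I
  have := Real.rpow_pos_of_pos h1 (P.b (v x) + 1)
  positivity

theorem e3_I_int (h : In P v Λ K Ce M Dm m0 c3) : IntegrableOn (e3_I P v) (Ann P.R) := by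
  obtain ⟨hCC, hM, hR⟩ := h.CC_pos
  obtain ⟨c, C, hc, hcC⟩ := h.s_bd
  have hcont : ContinuousOn (e3_I P v) (Ann P.R) := by
    unfold e3_I
    refine ContinuousOn.mul (ContinuousOn.mul (ContinuousOn.mul (continuousOn_const.mul ?_) ?_) ?_) ?_
    · exact Real.continuous_exp.comp_continuousOn (continuousOn_const.mul h.th.smooth.continuousOn)
    · refine (e3_s_cont h).rpow (((e3_b_cont P).comp_continuousOn h.smooth.continuousOn).add continuousOn_const) ?_
      intro x hx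
      left
      exact (hc.trans_le (hcC x hx).1).ne'
    · have hg := (h.met.gsq_smooth h.smooth).continuousOn
      refine hg.div ?_ ?_
      · exact ((hg.add continuousOn_const).sqrt).pow 2
      · intro x hx
        have := (e3_gv_pos h hx).1
        positivity
    · exact h.met.vol_smooth.continuousOn
  refine IntegrableOn.of_bound (UMB.Lin.volume_Ann_lt_top P.R)
    (hcont.aestronglyMeasurable (UMB.Lin.measurableSet_Ann P.R)) ((P.CC v)⁻¹ * 1 * (max 1 C) ^ 2 * 1 * Λ) ?_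
  filter_upwards [ae_restrict_mem (UMB.Lin.measurableSet_Ann P.R)] with x hx
  rw [Real.norm_of_nonneg (e3_I_nonneg h hx)]
  have h1 : 0 < P.CC v * P.s v x := hc.trans_le (hcC x hx).1
  have hgs : 0 ≤ gsq P.g v x := h.met.gsq_nonneg hx
  have hvol : 0 ≤ vol P.g x := Real.sqrt_nonneg _
  obtain ⟨h2, h3⟩ := e3_gv_pos h hx
  obtain ⟨hb0, hb1⟩ := e3_b h (v x)
  have a1 : Real.exp (-3 * P.th v x) ≤ 1 := by
    apply Real.exp_le_one_iff.2
    have := h.th.pos x hx
    linarith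
  have a2 : (P.CC v * P.s v x) ^ (P.b (v x) + 1) ≤ (max 1 C) ^ 2 := by
    have h4 : P.CC v * P.s v x ≤ max 1 C := ((hcC x hx).2).trans (le_max_right _ _)
    calc (P.CC v * P.s v x) ^ (P.b (v x) + 1) ≤ (max 1 C) ^ (P.b (v x) + 1) :=
          Real.rpow_le_rpow h1.le h4 (by linarith)
      _ ≤ (max 1 C) ^ (2 : ℝ) := Real.rpow_le_rpow_of_exponent_le (le_max_left _ _) (by linarith)
      _ = (max 1 C) ^ 2 := Real.rpow_two _
  have a3 : gsq P.g v x / P.gv v x ^ 2 ≤ 1 := by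
    rw [div_le_one (by positivity), h3]
    nlinarith [sq_nonneg P.eps]
  have a4 := h.cmp.vol_le x hx.1.le
  have hrp := (Real.rpow_pos_of_pos h1 (P.b (v x) + 1)).le
  have hΛ := h.cmp.pos
  unfold e3_I
  gcongr

/-- **E3.** On the good part `CC s ≥ 1/4`, so `(CC s)^(b+1) ≥ 1/16` (`0 ≤ b ≤ 1`; for `CC s ≥ 1` it is `≥ 1`), `gsq/gve² ≥ 1/2` (E2c),
`e^(-3θ) ≥ e^(-3 T2)` (E2a), `vol ≥ 1/Λ`, `CC⁻¹ ≥ M⁻¹`: the integrand of `mI` is `≥ e^(-3 T2)/(32 Λ M)` there and `≥ 0` on the shell; it is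
integrable on the shell (bounded by E2b, continuous on `Ann R`, finite measure). So
`volume(good) e^(-3 T2)/(32 Λ M) ≤ mI ≤ m0 + c3 Err`. -/
theorem In.good_le (h : In P v Λ K Ce M Dm m0 c3) :
    volume.real (good P v) ≤ 32 * Λ * M * Real.exp (3 * P.T2 v) * (m0 + c3 * P.Err v) := by
  obtain ⟨hCC, hM, hR⟩ := h.CC_pos
  obtain ⟨c, C, hc, hcC⟩ := h.s_bd
  have hΛ := h.cmp.pos
  have hsub : good P v ⊆ shl P v := inter_subset_left
  have hsub2 : shl P v ⊆ Ann P.R := inter_subset_right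
  have hint := e3_I_int h
  have hmI : mI P v = ∫ x in shl P v, e3_I P v x := rfl
  set c0 : ℝ := Real.exp (-3 * P.T2 v) / (32 * Λ * M) with hc0
  have hpt : ∀ x ∈ good P v, c0 ≤ e3_I P v x := by
    intro x hx
    have hxs := hsub hx
    have hxA := hsub2 hxs
    have h1 : 0 < P.CC v * P.s v x := hc.trans_le (hcC x hxA).1
    have hg : |Real.sqrt (P.CC v * P.s v x) - 1| ≤ 1 / 2 := hx.2
    have h4 : 1 / 4 ≤ P.CC v * P.s v x := by
      have h5 := (abs_le.1 hg).1
      have h6 : 1 / 2 ≤ Real.sqrt (P.CC v * P.s v x) := by linarith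
      have h7 : (1 / 2 : ℝ) ^ 2 ≤ Real.sqrt (P.CC v * P.s v x) ^ 2 := pow_le_pow_left₀ (by norm_num) h6 2
      rw [Real.sq_sqrt h1.le] at h7
      linarith
    obtain ⟨hb0, hb1⟩ := e3_b h (v x)
    have a2 : (1 / 16 : ℝ) ≤ (P.CC v * P.s v x) ^ (P.b (v x) + 1) := by
      calc (1 / 16 : ℝ) = (1 / 4 : ℝ) ^ (2 : ℝ) := by rw [Real.rpow_two]; norm_num
        _ ≤ (1 / 4 : ℝ) ^ (P.b (v x) + 1) :=
            Real.rpow_le_rpow_of_exponent_ge (by norm_num) (by norm_num) (by linarith)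
        _ ≤ _ := Real.rpow_le_rpow (by norm_num) h4 (by linarith)
    have a3 := h.ratio hxA h4
    have a1 : Real.exp (-3 * P.T2 v) ≤ Real.exp (-3 * P.th v x) := by
      apply Real.exp_le_exp.2
      have := (h.th_mem hxs).2
      linarith
    have a4 : Λ⁻¹ ≤ vol P.g x := by
      have := h.cmp.vol_ge x hxA.1.le
      rw [inv_le_iff_one_le_mul₀' hΛ]
      exact this
    have a5 : M⁻¹ ≤ (P.CC v)⁻¹ := inv_anti₀ hCC h.cc
    have e1 : c0 = M⁻¹ * Real.exp (-3 * P.T2 v) * (1 / 16) * (1 / 2) * Λ⁻¹ := by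
      rw [hc0]
      field_simp
      norm_num
    rw [e1]
    unfold e3_I
    gcongr
  have hfin : volume (good P v) ≠ ⊤ :=
    ne_top_of_le_ne_top (UMB.Lin.volume_Ann_lt_top P.R).ne (measure_mono (hsub.trans hsub2))
  have h1 : c0 * volume.real (good P v) ≤ mI P v := by
    rw [hmI]
    calc c0 * volume.real (good P v) = ∫ _x in good P v, c0 := by rw [setIntegral_const, smul_eq_mul, mul_comm]
      _ ≤ ∫ x in good P v, e3_I P v x := by
          apply setIntegral_mono_on (integrableOn_const hfin) (hint.mono_set (hsub.trans hsub2)) (e3_meas_good h) hpt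
      _ ≤ ∫ x in shl P v, e3_I P v x := by
          apply setIntegral_mono_set (hint.mono_set hsub2)
          · rw [EventuallyLE, ae_restrict_iff' (meas_shell h.smooth)]
            exact Eventually.of_forall fun x hx => e3_I_nonneg h (hsub2 hx)
          · exact hsub.eventuallyLE
  have h2 := h1.trans h.m
  have hD : 0 < 32 * Λ * M := by positivity
  have e2 : c0 * volume.real (good P v) = volume.real (good P v) / (32 * Λ * M * Real.exp (3 * P.T2 v)) := by
    rw [hc0, show -3 * P.T2 v = -(3 * P.T2 v) by ring, Real.exp_neg]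
    field_simp
  rw [e2, div_le_iff₀ (by positivity)] at h2
  linarith

end UMB.R
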