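import Pool.Agent.Lib.UMB.R.E3

set_option autoImplicit false

/-!
# UMB.R chunk E4: bound of the transition error
-/

open Filter Topology Set MeasureTheory
open scoped ContDiff

namespace UMB.R

open Pool.Agent.Lib.PenroseSph (E3 Tens pd trg)
open UMB.Lin (Ann cAnn sig)

variable {P : Par} {v : E3 → ℝ} {Λ K Ce M Dm m0 c3 : ℝ}

/-- **E4a.** Hoelder: `β ≥ 0` bounded, continuous on the open set `U` (or a.e. strongly measurable on `G`), `G ⊆ Sh` measurable of
finite measure: `∫_G β ≤ volume(G)^(5/6) (∫_G β⁶)^(1/6) ≤ volume(G)^(5/6) (∫_Sh β⁶)^(1/6)`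
(`integral_mul_le_Lp_mul_Lq_of_nonneg` with exponents `6/5`, `6`, the functions `1` and `β`). -/
theorem holder6 {G Sh : Set E3} (hG : MeasurableSet G) (hSh : MeasurableSet Sh) (hGS : G ⊆ Sh) (hf : volume Sh < ⊤) {β : E3 → ℝ}
    (hm : AEStronglyMeasurable β (volume.restrict Sh)) {B : ℝ} (h0 : ∀ x ∈ Sh, 0 ≤ β x) (hB : ∀ x ∈ Sh, β x ≤ B) :
    ∫ x in G, β x ≤ volume.real G ^ (5 / 6 : ℝ) * (∫ x in Sh, β x ^ 6) ^ (1 / 6 : ℝ) := by
  have hfG : volume G < ⊤ := lt_of_le_of_lt (measure_mono hGS) hf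
  have : IsFiniteMeasure (volume.restrict G) := ⟨by rw [Measure.restrict_apply_univ]; exact hfG⟩
  have : IsFiniteMeasure (volume.restrict Sh) := ⟨by rw [Measure.restrict_apply_univ]; exact hf⟩
  have hmG : AEStronglyMeasurable β (volume.restrict G) := hm.mono_measure (Measure.restrict_mono hGS le_rfl)
  have hB6 : ∀ x ∈ Sh, ‖β x ^ 6‖ ≤ B ^ 6 := by
    intro x hx
    rw [norm_pow, Real.norm_eq_abs, abs_of_nonneg (h0 x hx)]
    exact pow_le_pow_left₀ (h0 x hx) (hB x hx) 6
  have i6 : IntegrableOn (fun x => β x ^ 6) Sh := by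
    refine Integrable.of_bound (hm.pow 6) (B ^ 6) ?_
    filter_upwards [ae_restrict_mem hSh] with x hx
    exact hB6 x hx
  have hpq : Real.HolderConjugate (6 / 5 : ℝ) 6 := by
    rw [Real.holderConjugate_iff]
    norm_num
  have hmem1 : MemLp (fun _ : E3 => (1 : ℝ)) (ENNReal.ofReal (6 / 5)) (volume.restrict G) := memLp_const 1
  have hmem2 : MemLp β (ENNReal.ofReal 6) (volume.restrict G) := by
    refine MemLp.of_bound hmG B ?_
    filter_upwards [ae_restrict_mem hG] with x hx
    rw [Real.norm_eq_abs, abs_of_nonneg (h0 x (hGS hx))]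
    exact hB x (hGS hx)
  have hH := integral_mul_le_Lp_mul_Lq_of_nonneg hpq (μ := volume.restrict G) (f := fun _ : E3 => (1 : ℝ)) (g := β)
    (Filter.Eventually.of_forall fun _ => zero_le_one)
    (by
      filter_upwards [ae_restrict_mem hG] with x hx
      exact h0 x (hGS hx)) hmem1 hmem2
  simp only [one_mul, Real.one_rpow] at hH
  have e1 : ∫ _x in G, (1 : ℝ) = volume.real G := by simp
  have e2 : ∫ x in G, β x ^ (6 : ℝ) = ∫ x in G, β x ^ 6 := by
    refine integral_congr_ae (Filter.Eventually.of_forall fun x => ?_)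
    exact Real.rpow_natCast (β x) 6
  rw [e1, e2] at hH
  have e3 : (1 / (6 / 5) : ℝ) = 5 / 6 := by norm_num
  rw [e3] at hH
  refine hH.trans (mul_le_mul_of_nonneg_left ?_ (by positivity))
  refine Real.rpow_le_rpow (integral_nonneg fun x => ?_) ?_ (by norm_num)
  · exact (by decide : Even 6).pow_nonneg _
  · refine setIntegral_mono_set i6 ?_ (Filter.Eventually.of_forall hGS)
    filter_upwards with x
    exact (by decide : Even 6).pow_nonneg _

/-- **E4b.** With `β = |√(CC s) - 1|`: the integrand of `Err` is at most `e^(-3 T1) Λ (21 β 1_good + 1000 β⁶)` on the shell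
(`psi_near`, `psi_far`, E2a, `Cmp.vol_le`; `0 ≤ b ≤ 1`), and `∫_good β ≤ N^(5/6) (∫_shell β⁶)^(1/6)` (E4a; `β` is bounded by E2b). -/
theorem In.err_le (h : In P v Λ K Ce M Dm m0 c3) {S : ℝ}
    (hS : ∫ x in shl P v, |Real.sqrt (P.CC v * P.s v x) - 1| ^ 6 ≤ S) :
    0 ≤ P.Err v ∧ P.Err v ≤ 1021 * Λ * Real.exp (-3 * P.T1 v) *
      (volume.real (good P v) ^ (5 / 6 : ℝ) * S ^ (1 / 6 : ℝ) + S) := by
  obtain ⟨c, C, hc0, hcC⟩ := h.s_bd
  have met := h.met
  obtain ⟨hss, hsp⟩ := sv_smooth met h.expo h.kap h.ok.eps_pos h.smooth h.nonneg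
  have hsc : ContinuousOn (P.s v) (Ann P.R) := hss.continuousOn
  set β : E3 → ℝ := fun x => |Real.sqrt (P.CC v * P.s v x) - 1| with hβ
  have hβc : ContinuousOn β (Ann P.R) :=
    ((Real.continuous_sqrt.comp_continuousOn (continuousOn_const.mul hsc)).sub continuousOn_const).abs
  have hβ0 : ∀ x, 0 ≤ β x := fun x => abs_nonneg _
  have hβB : ∀ x ∈ Ann P.R, β x ≤ Real.sqrt C + 1 := by
    intro x hx
    simp only [hβ]
    refine (abs_sub _ _).trans ?_
    rw [abs_of_nonneg (Real.sqrt_nonneg _), abs_one]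
    exact add_le_add (Real.sqrt_le_sqrt (hcC x hx).2) le_rfl
  have hShA : shl P v ⊆ Ann P.R := fun x hx => hx.2
  have hSm : MeasurableSet (shl P v) := meas_shell h.smooth
  have hSf : volume (shl P v) < ⊤ := lt_of_le_of_lt (measure_mono hShA) (UMB.Lin.volume_Ann_lt_top P.R)
  have hGS : good P v ⊆ shl P v := fun x hx => hx.1
  have hGm : MeasurableSet (good P v) := by
    have h1 : IsOpen (Ann P.R ∩ β ⁻¹' Ioi (1 / 2)) := hβc.isOpen_inter_preimage (UMB.Lin.isOpen_Ann P.R) isOpen_Ioi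
    have h2 : good P v = shl P v \ (Ann P.R ∩ β ⁻¹' Ioi (1 / 2)) := by
      ext x
      constructor
      · intro hx
        refine ⟨hx.1, fun hx2 => ?_⟩
        have q1 : β x ≤ 1 / 2 := hx.2
        have q2 : 1 / 2 < β x := hx2.2
        linarith
      · intro hx
        refine ⟨hx.1, ?_⟩
        by_contra hcon
        have q2 : 1 / 2 < β x := not_le.1 hcon
        exact hx.2 ⟨hShA hx.1, q2⟩
    rw [h2]
    exact hSm.diff h1.measurableSet
  have hβm : AEStronglyMeasurable β (volume.restrict (shl P v)) :=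
    (hβc.mono hShA).aestronglyMeasurable hSm
  have : IsFiniteMeasure (volume.restrict (shl P v)) := ⟨by rw [Measure.restrict_apply_univ]; exact hSf⟩
  have hβi : IntegrableOn β (shl P v) := by
    refine Integrable.of_bound hβm (Real.sqrt C + 1) ?_
    filter_upwards [ae_restrict_mem hSm] with x hx
    rw [Real.norm_eq_abs, abs_of_nonneg (hβ0 x)]
    exact hβB x (hShA hx)
  have hβ6 : IntegrableOn (fun x => β x ^ 6) (shl P v) := by
    refine Integrable.of_bound (hβm.pow 6) ((Real.sqrt C + 1) ^ 6) ?_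
    filter_upwards [ae_restrict_mem hSm] with x hx
    rw [norm_pow, Real.norm_eq_abs, abs_of_nonneg (hβ0 x)]
    exact pow_le_pow_left₀ (hβ0 x) (hβB x (hShA hx)) 6
  have hΛ := h.cmp.pos
  have hX : ∀ x ∈ Ann P.R, 0 < P.CC v * P.s v x := fun x hx => lt_of_lt_of_le hc0 (hcC x hx).1
  have hErr : P.Err v = ∫ x in shl P v, Real.exp (-3 * P.th v x) *
    ((P.CC v * P.s v x) ^ (P.b (v x) + 1) * |Real.log (P.CC v * P.s v x)|) * vol P.g x := rfl
  have hpt0 : ∀ x ∈ shl P v, 0 ≤ Real.exp (-3 * P.th v x) *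
    ((P.CC v * P.s v x) ^ (P.b (v x) + 1) * |Real.log (P.CC v * P.s v x)|) * vol P.g x := by
    intro x hx
    have h1 := (hX x (hShA hx)).le
    have h2 : 0 ≤ vol P.g x := Real.sqrt_nonneg _
    positivity
  have hErr0 : 0 ≤ P.Err v := by
    rw [hErr]
    exact setIntegral_nonneg hSm hpt0
  refine ⟨hErr0, ?_⟩
  have hgi : IntegrableOn ((good P v).indicator β) (shl P v) := hβi.indicator hGm
  have hbi : IntegrableOn (fun x => Real.exp (-3 * P.T1 v) * Λ * (21 * (good P v).indicator β x + 1000 * β x ^ 6))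
      (shl P v) := ((hgi.const_mul 21).add (hβ6.const_mul 1000)).const_mul _
  have hle : P.Err v ≤ ∫ x in shl P v, Real.exp (-3 * P.T1 v) * Λ * (21 * (good P v).indicator β x + 1000 * β x ^ 6) := by
    rw [hErr]
    refine integral_mono_of_nonneg ?_ hbi ?_
    · filter_upwards [ae_restrict_mem hSm] with x hx
      exact hpt0 x hx
    · filter_upwards [ae_restrict_mem hSm] with x hx
      have hxA := hShA hx
      have h1 := hX x hxA
      have hb0 : 0 ≤ P.b (v x) := by
        have := h.expo.ge (v x)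
        have h2 := h.ok.q_pos
        unfold Par.p at this
        linarith
      have hb1 : P.b (v x) ≤ 1 := by
        have := h.expo.le (v x)
        unfold Par.p at this
        linarith
      have h3 : Real.exp (-3 * P.th v x) ≤ Real.exp (-3 * P.T1 v) :=
        Real.exp_le_exp.2 (by linarith [(h.th_mem hx).1])
      have h4 : vol P.g x ≤ Λ := h.cmp.vol_le x hxA.1.le
      have h5 : 0 ≤ vol P.g x := Real.sqrt_nonneg _
      have h6 : (P.CC v * P.s v x) ^ (P.b (v x) + 1) * |Real.log (P.CC v * P.s v x)|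
          ≤ 21 * (good P v).indicator β x + 1000 * β x ^ 6 := by
        have h7 : 0 ≤ β x ^ 6 := by positivity
        by_cases hg : x ∈ good P v
        · rw [indicator_of_mem hg]
          have h8 := psi_near h1 hb0 hb1 hg.2
          simp only [hβ] at h7 ⊢
          linarith
        · rw [indicator_of_notMem hg]
          have h9 : 1 / 2 < |Real.sqrt (P.CC v * P.s v x) - 1| := by
            by_contra hcon
            exact hg ⟨hx, not_lt.1 hcon⟩
          have h8 := psi_far h1 hb0 hb1 h9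
          simp only [hβ] at h7 ⊢
          linarith
      have h10 : 0 ≤ (P.CC v * P.s v x) ^ (P.b (v x) + 1) * |Real.log (P.CC v * P.s v x)| := by positivity
      calc Real.exp (-3 * P.th v x) * ((P.CC v * P.s v x) ^ (P.b (v x) + 1) * |Real.log (P.CC v * P.s v x)|) * vol P.g x
          ≤ Real.exp (-3 * P.T1 v) * (21 * (good P v).indicator β x + 1000 * β x ^ 6) * Λ := by
            refine mul_le_mul (mul_le_mul h3 h6 h10 (Real.exp_pos _).le) h4 h5 ?_
            exact mul_nonneg (Real.exp_pos _).le (h10.trans h6)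
        _ = _ := by ring
  have hval : ∫ x in shl P v, Real.exp (-3 * P.T1 v) * Λ * (21 * (good P v).indicator β x + 1000 * β x ^ 6)
      = Real.exp (-3 * P.T1 v) * Λ * (21 * (∫ x in good P v, β x) + 1000 * ∫ x in shl P v, β x ^ 6) := by
    rw [integral_const_mul, integral_add (hgi.const_mul 21) (hβ6.const_mul 1000), integral_const_mul, integral_const_mul,
      setIntegral_indicator hGm, inter_eq_self_of_subset_right hGS]
  have hH := holder6 hGm hSm hGS hSf hβm (fun x _ => hβ0 x) (fun x hx => hβB x (hShA hx))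
  have hI0 : 0 ≤ ∫ x in shl P v, β x ^ 6 := integral_nonneg fun x => by positivity
  have hS0 : 0 ≤ S := hI0.trans hS
  have hI1 : (∫ x in shl P v, β x ^ 6) ^ (1 / 6 : ℝ) ≤ S ^ (1 / 6 : ℝ) := Real.rpow_le_rpow hI0 hS (by norm_num)
  have hN0 : 0 ≤ volume.real (good P v) ^ (5 / 6 : ℝ) := by positivity
  have hT : 0 ≤ volume.real (good P v) ^ (5 / 6 : ℝ) * S ^ (1 / 6 : ℝ) := by positivity
  have h21 : 21 * (∫ x in good P v, β x) + 1000 * ∫ x in shl P v, β x ^ 6
      ≤ 1021 * (volume.real (good P v) ^ (5 / 6 : ℝ) * S ^ (1 / 6 : ℝ) + S) := by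
    have h22 : ∫ x in good P v, β x ≤ volume.real (good P v) ^ (5 / 6 : ℝ) * S ^ (1 / 6 : ℝ) :=
      hH.trans (mul_le_mul_of_nonneg_left hI1 hN0)
    linarith
  rw [hval] at hle
  have hE0 : 0 ≤ Real.exp (-3 * P.T1 v) * Λ := by positivity
  refine hle.trans ((mul_le_mul_of_nonneg_left h21 hE0).trans (le_of_eq ?_))
  ring

end UMB.R
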