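import Pool.Agent.Lib.UMB.R.Defs

set_option autoImplicit false

/-!
# UMB.R chunk H3: Sobolev inequality
-/

open Filter Topology Set MeasureTheory
open scoped ContDiff

namespace UMB.R

open Pool.Agent.Lib.PenroseSph (E3 Tens pd trg)
open UMB.Lin (Ann cAnn sig)

theorem h3_fderiv (u : E3 → ℝ) (x : E3) : ‖fderiv ℝ u x‖ ^ 2 ≤ ∑ i, pd i u x ^ 2 := by
  have h0 : 0 ≤ ∑ i, pd i u x ^ 2 := Finset.sum_nonneg fun i _ => sq_nonneg _
  have h1 : ‖fderiv ℝ u x‖ ≤ Real.sqrt (∑ i, pd i u x ^ 2) := by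
    apply ContinuousLinearMap.opNorm_le_bound _ (Real.sqrt_nonneg _)
    intro y
    have h2 : y = ∑ i, y i • (EuclideanSpace.single i (1 : ℝ) : E3) := by
      ext j
      simp [Finset.sum_apply, Pi.single_apply]
    have h3 : fderiv ℝ u x y = ∑ i, pd i u x * y i := by
      conv_lhs => rw [h2]
      rw [map_sum]
      refine Finset.sum_congr rfl fun i _ => ?_
      rw [map_smul, smul_eq_mul, mul_comm]
      rfl
    rw [h3, Real.norm_eq_abs]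
    have h4 : ‖y‖ = Real.sqrt (∑ i, y i ^ 2) := by
      rw [← EuclideanSpace.real_norm_sq_eq, Real.sqrt_sq (norm_nonneg y)]
    rw [h4, ← Real.sqrt_mul h0]
    apply Real.abs_le_sqrt
    exact Finset.sum_mul_sq_le_sq_mul_sq Finset.univ (fun i => pd i u x) (fun i => y i)
  calc ‖fderiv ℝ u x‖ ^ 2 ≤ (Real.sqrt (∑ i, pd i u x ^ 2)) ^ 2 := pow_le_pow_left₀ (norm_nonneg _) h1 2
    _ = _ := Real.sq_sqrt h0

/-- **H3.** `MeasureTheory.eLpNorm_le_eLpNorm_fderiv_of_eq` with `F = ℝ`, `finrank ℝ E3 = 3`, `p = 2`, `p' = 6`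
(`1/6 = 1/2 - 1/3`), raised to the power 6; `‖fderiv ℝ u x‖² ≤ ∑ (pd i u x)²` (Cauchy-Schwarz in the orthonormal basis
`EuclideanSpace.single i 1`); `eLpNorm` as an integral (`eLpNorm_eq_lintegral_rpow_enorm`, `ofReal_integral_eq_lintegral_ofReal`,
everything is continuous with compact support). -/
theorem sobolev : ∃ C : ℝ, 0 < C ∧ ∀ u : E3 → ℝ, ContDiff ℝ 1 u → HasCompactSupport u →
    ∫ x, u x ^ 6 ≤ C * (∫ x, ∑ i, pd i u x ^ 2) ^ 3 := by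
  obtain ⟨K, hK⟩ : ∃ K : NNReal, K = SNormLESNormFDerivOfEqConst ℝ (volume : Measure E3) ((2 : NNReal) : ℝ) := ⟨_, rfl⟩
  refine ⟨(K : ℝ) ^ 6 + 1, by positivity, ?_⟩
  intro u hu hc
  have hdc : Continuous (fderiv ℝ u) := hu.continuous_fderiv (by norm_num)
  have hds : HasCompactSupport (fderiv ℝ u) := hc.fderiv ℝ
  have hm6 : MemLp u 6 volume := hu.continuous.memLp_of_hasCompactSupport hc
  have hm2 : MemLp (fderiv ℝ u) 2 volume := hdc.memLp_of_hasCompactSupport hds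
  have h1 := eLpNorm_le_eLpNorm_fderiv_of_eq (F := ℝ) (volume : Measure E3) hu hc (p := 2) (p' := 6) (by norm_num)
    (by simp) (by simp; norm_num)
  have e6 : eLpNorm u ((6 : NNReal) : ENNReal) volume = ENNReal.ofReal ((∫ x, ‖u x‖ ^ (6 : ℝ)) ^ (6 : ℝ)⁻¹) := by
    have h2 := hm6.eLpNorm_eq_integral_rpow_norm (by norm_num) (by norm_num)
    simpa using h2
  have e2 : eLpNorm (fderiv ℝ u) ((2 : NNReal) : ENNReal) volume =
      ENNReal.ofReal ((∫ x, ‖fderiv ℝ u x‖ ^ (2 : ℝ)) ^ (2 : ℝ)⁻¹) := by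
    have h2 := hm2.eLpNorm_eq_integral_rpow_norm (by norm_num) (by norm_num)
    simpa using h2
  rw [e6, e2, ← hK] at h1
  obtain ⟨A, hA⟩ : ∃ A, A = ∫ x, ‖u x‖ ^ (6 : ℝ) := ⟨_, rfl⟩
  obtain ⟨B, hB⟩ : ∃ B, B = ∫ x, ‖fderiv ℝ u x‖ ^ (2 : ℝ) := ⟨_, rfl⟩
  have hA0 : 0 ≤ A := by rw [hA]; exact integral_nonneg fun x => Real.rpow_nonneg (norm_nonneg _) _
  have hB0 : 0 ≤ B := by rw [hB]; exact integral_nonneg fun x => Real.rpow_nonneg (norm_nonneg _) _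
  rw [← hA, ← hB] at h1
  have h2 : ENNReal.ofReal (A ^ (6 : ℝ)⁻¹) ≤ ENNReal.ofReal ((K : ℝ) * B ^ (2 : ℝ)⁻¹) := by
    rw [ENNReal.ofReal_mul (NNReal.coe_nonneg K), ENNReal.ofReal_coe_nnreal]
    exact h1
  have h3 : A ^ (6 : ℝ)⁻¹ ≤ (K : ℝ) * B ^ (2 : ℝ)⁻¹ :=
    (ENNReal.ofReal_le_ofReal_iff (mul_nonneg (NNReal.coe_nonneg K) (Real.rpow_nonneg hB0 _))).1 h2
  have h4 : (A ^ (6 : ℝ)⁻¹) ^ 6 ≤ ((K : ℝ) * B ^ (2 : ℝ)⁻¹) ^ 6 :=
    pow_le_pow_left₀ (Real.rpow_nonneg hA0 _) h3 6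
  have h5 : (A ^ (6 : ℝ)⁻¹) ^ 6 = A := by
    rw [← Real.rpow_natCast, ← Real.rpow_mul hA0]
    norm_num
  have h6 : ((K : ℝ) * B ^ (2 : ℝ)⁻¹) ^ 6 = (K : ℝ) ^ 6 * B ^ 3 := by
    rw [mul_pow]
    congr 1
    rw [← Real.rpow_natCast, ← Real.rpow_mul hB0, ← Real.rpow_natCast B 3]
    norm_num
  rw [h5, h6] at h4
  have hAu : A = ∫ x, u x ^ 6 := by
    rw [hA]
    congr 1
    funext x
    have h7 : (6 : ℝ) = ((6 : ℕ) : ℝ) := by norm_num
    rw [h7, Real.rpow_natCast, Real.norm_eq_abs, Even.pow_abs (by decide)]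
  have hpc : ∀ i, Continuous fun x => pd i u x := fun i => hdc.clm_apply continuous_const
  have hpcs : ∀ i, HasCompactSupport fun x => pd i u x ^ 2 := by
    intro i
    refine hds.mono' ?_
    intro x hx
    apply subset_tsupport
    rw [Function.mem_support] at hx ⊢
    intro h0
    apply hx
    show (fderiv ℝ u x (EuclideanSpace.single i 1)) ^ 2 = 0
    rw [h0]
    simp
  have hint : Integrable (fun x => ∑ i, pd i u x ^ 2) volume :=
    integrable_finsetSum _ fun i _ => ((hpc i).pow 2).integrable_of_hasCompactSupport (hpcs i)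
  have hBu : B ≤ ∫ x, ∑ i, pd i u x ^ 2 := by
    rw [hB]
    apply integral_mono_of_nonneg
    · exact Eventually.of_forall fun x => Real.rpow_nonneg (norm_nonneg _) _
    · exact hint
    · refine Eventually.of_forall fun x => ?_
      show ‖fderiv ℝ u x‖ ^ (2 : ℝ) ≤ ∑ i, pd i u x ^ 2
      rw [Real.rpow_two]
      exact h3_fderiv u x
  rw [← hAu]
  have h8 : B ^ 3 ≤ (∫ x, ∑ i, pd i u x ^ 2) ^ 3 := pow_le_pow_left₀ hB0 hBu 3
  have h9 : 0 ≤ B ^ 3 := by positivity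
  have hK6 : (0 : ℝ) ≤ (K : ℝ) ^ 6 := by positivity
  calc A ≤ (K : ℝ) ^ 6 * B ^ 3 := h4
    _ ≤ ((K : ℝ) ^ 6 + 1) * B ^ 3 := by nlinarith
    _ ≤ ((K : ℝ) ^ 6 + 1) * (∫ x, ∑ i, pd i u x ^ 2) ^ 3 := mul_le_mul_of_nonneg_left h8 (by positivity)

end UMB.R
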