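import Pool.Agent.Lib.UMB.R.H2
import Pool.Agent.Lib.UMB.R.H3

set_option autoImplicit false

/-!
# UMB.R chunk H4: Hardy and Sobolev together (R2)
-/

open Filter Topology Set MeasureTheory
open scoped ContDiff

namespace UMB.R

open Pool.Agent.Lib.PenroseSph (E3 Tens pd trg)
open UMB.Lin (Ann cAnn sig)

/-- A nonnegative differentiable function has zero derivatives at its zeros. -/
theorem h4_min {ζ : E3 → ℝ} (h0 : ∀ x, 0 ≤ ζ x) {x : E3} (hx : ζ x = 0) (i : Fin 3) : pd i ζ x = 0 := by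
  have h1 : IsLocalMin ζ x := by
    refine Eventually.of_forall fun y => ?_
    rw [hx]
    exact h0 y
  unfold pd
  rw [h1.fderiv_eq_zero]
  rfl

/-- The cut-off function `ζ φ` is smooth. -/
theorem h4_cd {R : ℝ} (hR : 16 ≤ R) {ζ φ : E3 → ℝ} (hζ : ContDiff ℝ ∞ ζ) (hφ : ContDiffOn ℝ ∞ φ (Ann R))
    (h2 : ∀ x : E3, ‖x‖ ≤ 2 → ζ x = 0) (h3 : ∀ x : E3, 3 * R / 4 ≤ ‖x‖ → ζ x = 0) :
    ContDiff ℝ 1 fun x => ζ x * φ x := by
  rw [contDiff_iff_contDiffAt]
  intro x
  by_cases hx : x ∈ Ann R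
  · have h4 : ContDiffAt ℝ ∞ φ x := (hφ x hx).contDiffAt ((UMB.Lin.isOpen_Ann R).mem_nhds hx)
    exact (hζ.contDiffAt.mul h4).of_le (by exact_mod_cast le_top)
  · have h5 : (fun y => ζ y * φ y) =ᶠ[𝓝 x] fun _ => 0 := by
      have h6 : ‖x‖ ≤ 1 ∨ R ≤ ‖x‖ := by
        by_contra hcon
        push Not at hcon
        exact hx hcon
      rcases h6 with h6 | h6
      · have h7 : {y : E3 | ‖y‖ < 2} ∈ 𝓝 x :=
          (isOpen_lt continuous_norm continuous_const).mem_nhds (by show ‖x‖ < 2; linarith)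
        filter_upwards [h7] with y hy
        rw [h2 y (le_of_lt hy), zero_mul]
      · have h7 : {y : E3 | 3 * R / 4 < ‖y‖} ∈ 𝓝 x :=
          (isOpen_lt continuous_const continuous_norm).mem_nhds (by show 3 * R / 4 < ‖x‖; linarith)
        filter_upwards [h7] with y hy
        rw [h3 y (le_of_lt hy), zero_mul]
    exact (contDiffAt_const (c := (0 : ℝ))).congr_of_eventuallyEq h5

/-- **H4.** `u = ζ φ` with `ζ` of H1b (`u = 0` outside `2 < |x| < 3R/4`, so it is `C¹` on `E3` with compact support):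
`∑ (pd i u)² ≤ 2 ζ² |∇φ|² + 2 φ² |∇ζ|² ≤ 2 |∇φ|² + 2 C φ²/|x|²`, zero outside `2 ≤ |x| ≤ 3R/4 ≤ R'`. H3 for `u`, H2 for the
second term, `u = φ` on `4 ≤ |x| ≤ R/2`. -/
theorem sob_ann : ∃ C : ℝ, 0 < C ∧ ∀ (R R' : ℝ) (φ : E3 → ℝ) (A B : ℝ), 16 ≤ R → 3 * R / 4 ≤ R' → R' < R →
    ContDiffOn ℝ ∞ φ (Ann R) → IntegrableOn (fun x => ∑ i, pd i φ x ^ 2) (Ann R) →
    ∫ x in Ann R, ∑ i, pd i φ x ^ 2 ≤ A → 0 ≤ B → (∀ x : E3, ‖x‖ = R' → R' * φ x ^ 2 ≤ B) →
    ∫ x in {x : E3 | 4 ≤ ‖x‖ ∧ ‖x‖ ≤ R / 2}, φ x ^ 6 ≤ C * (A + B) ^ 3 := by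
  obtain ⟨C1, hC1, hcut⟩ := cut_sob
  obtain ⟨C2, hC2, hhardy⟩ := hardy
  obtain ⟨C3, hC3, hsob⟩ := sobolev
  refine ⟨C3 * (2 + 2 * C1 * C2) ^ 3, by positivity, ?_⟩
  intro R R' φ A B hR hRR' hR'R hφ hint hA hB hbd
  obtain ⟨ζ, hζ, hζ01, hζ2, hζ3, hζ1, hζd⟩ := hcut R hR
  have hR' : 2 < R' := by linarith
  obtain ⟨u, hu⟩ : ∃ u : E3 → ℝ, u = fun x => ζ x * φ x := ⟨_, rfl⟩
  have hucd : ContDiff ℝ 1 u := by rw [hu]; exact h4_cd hR hζ hφ hζ2 hζ3
  have husupp : HasCompactSupport u := by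
    apply HasCompactSupport.intro (isCompact_closedBall (0 : E3) (3 * R / 4))
    intro x hx
    rw [Metric.mem_closedBall, dist_zero_right, not_le] at hx
    rw [hu]
    simp only
    rw [hζ3 x hx.le, zero_mul]
  have h1 := hsob u hucd husupp
  -- pointwise bound of the gradient
  obtain ⟨D, hD⟩ : ∃ D : Set E3, D = {x : E3 | 2 ≤ ‖x‖ ∧ ‖x‖ < R'} := ⟨_, rfl⟩
  have hDm : MeasurableSet D := by
    rw [hD]
    exact (measurableSet_le measurable_const measurable_norm).inter (measurableSet_lt measurable_norm measurable_const)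
  have hAm := UMB.Lin.measurableSet_Ann R
  have hpt : ∀ x, ∑ i, pd i u x ^ 2 ≤ (Ann R).indicator (fun x => 2 * ∑ i, pd i φ x ^ 2) x +
      D.indicator (fun x => 2 * C1 * (φ x ^ 2 / ‖x‖ ^ 2)) x := by
    intro x
    have hn1 : 0 ≤ (Ann R).indicator (fun x => 2 * ∑ i, pd i φ x ^ 2) x :=
      indicator_nonneg (fun y _ => mul_nonneg zero_le_two (Finset.sum_nonneg fun i _ => sq_nonneg _)) x
    have hn2 : 0 ≤ D.indicator (fun x => 2 * C1 * (φ x ^ 2 / ‖x‖ ^ 2)) x :=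
      indicator_nonneg (fun y _ => by positivity) x
    by_cases hx : x ∈ Ann R
    · have hφd : DifferentiableAt ℝ φ x :=
        ((hφ x hx).contDiffAt ((UMB.Lin.isOpen_Ann R).mem_nhds hx)).differentiableAt (by simp)
      have hζd' : DifferentiableAt ℝ ζ x := hζ.contDiffAt.differentiableAt (by simp)
      have hpd : ∀ i, pd i u x = ζ x * pd i φ x + φ x * pd i ζ x := by
        intro i
        unfold pd
        have h2 : fderiv ℝ u x = ζ x • fderiv ℝ φ x + φ x • fderiv ℝ ζ x := by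
          rw [hu]
          exact fderiv_fun_mul hζd' hφd
        rw [h2]
        simp [smul_eq_mul]
      have hz : ζ x = 0 → ∑ i, pd i u x ^ 2 = 0 := by
        intro h3
        apply Finset.sum_eq_zero
        intro i _
        rw [hpd i, h3, h4_min (fun y => (hζ01 y).1) h3 i]
        ring
      by_cases hxD : x ∈ D
      · rw [indicator_of_mem hx, indicator_of_mem hxD]
        rw [hD] at hxD
        have hx2 : 0 < ‖x‖ ^ 2 := by
          have := hxD.1
          positivity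
        have h2 : ∑ i, pd i u x ^ 2 ≤ ∑ i, (2 * pd i φ x ^ 2 + 2 * φ x ^ 2 * pd i ζ x ^ 2) := by
          refine Finset.sum_le_sum fun i _ => ?_
          rw [hpd i]
          have h3 : ζ x ^ 2 ≤ 1 := pow_le_one₀ (hζ01 x).1 (hζ01 x).2
          have h4 : ζ x ^ 2 * pd i φ x ^ 2 ≤ pd i φ x ^ 2 := mul_le_of_le_one_left (sq_nonneg _) h3
          nlinarith [sq_nonneg (ζ x * pd i φ x - φ x * pd i ζ x)]
        have h3 : ∑ i, (2 * pd i φ x ^ 2 + 2 * φ x ^ 2 * pd i ζ x ^ 2) =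
            2 * ∑ i, pd i φ x ^ 2 + 2 * φ x ^ 2 * ∑ i, pd i ζ x ^ 2 := by
          rw [Finset.sum_add_distrib, Finset.mul_sum, Finset.mul_sum]
        have h4 : ∑ i, pd i ζ x ^ 2 ≤ C1 / ‖x‖ ^ 2 := by
          rw [le_div_iff₀ hx2, mul_comm]
          exact hζd x
        have h5 : 2 * φ x ^ 2 * ∑ i, pd i ζ x ^ 2 ≤ 2 * C1 * (φ x ^ 2 / ‖x‖ ^ 2) := by
          calc _ ≤ 2 * φ x ^ 2 * (C1 / ‖x‖ ^ 2) := mul_le_mul_of_nonneg_left h4 (by positivity)
            _ = _ := by ring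
        linarith
      · have hz0 : ζ x = 0 := by
          rw [hD] at hxD
          rcases lt_or_ge ‖x‖ 2 with h2 | h2
          · exact hζ2 x h2.le
          · apply hζ3 x
            by_contra hcon
            push Not at hcon
            exact hxD ⟨h2, by linarith⟩
        rw [hz hz0]
        linarith
    · have h5 : u =ᶠ[𝓝 x] fun _ => 0 := by
        have h6 : ‖x‖ ≤ 1 ∨ R ≤ ‖x‖ := by
          by_contra hcon
          push Not at hcon
          exact hx hcon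
        rcases h6 with h6 | h6
        · have h7 : {y : E3 | ‖y‖ < 2} ∈ 𝓝 x :=
            (isOpen_lt continuous_norm continuous_const).mem_nhds (by show ‖x‖ < 2; linarith)
          filter_upwards [h7] with y hy
          rw [hu]
          simp only
          rw [hζ2 y (le_of_lt hy), zero_mul]
        · have h7 : {y : E3 | 3 * R / 4 < ‖y‖} ∈ 𝓝 x :=
            (isOpen_lt continuous_const continuous_norm).mem_nhds (by show 3 * R / 4 < ‖x‖; linarith)
          filter_upwards [h7] with y hy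
          rw [hu]
          simp only
          rw [hζ3 y (le_of_lt hy), zero_mul]
      have h6 : ∑ i, pd i u x ^ 2 = 0 := by
        apply Finset.sum_eq_zero
        intro i _
        unfold pd
        rw [h5.fderiv_eq]
        simp
      rw [h6]
      linarith
  -- integrability
  have hcA : {x : E3 | 2 ≤ ‖x‖ ∧ ‖x‖ ≤ R'} ⊆ Ann R := by
    intro x hx
    exact ⟨by linarith [hx.1], by linarith [hx.2]⟩
  have hcomp : IsCompact {x : E3 | 2 ≤ ‖x‖ ∧ ‖x‖ ≤ R'} := by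
    have h2 : IsClosed {x : E3 | 2 ≤ ‖x‖ ∧ ‖x‖ ≤ R'} :=
      (isClosed_le continuous_const continuous_norm).inter (isClosed_le continuous_norm continuous_const)
    refine (isCompact_closedBall (0 : E3) R').of_isClosed_subset h2 ?_
    intro x hx
    rw [Metric.mem_closedBall, dist_zero_right]
    exact hx.2
  have hDint : IntegrableOn (fun x => 2 * C1 * (φ x ^ 2 / ‖x‖ ^ 2)) D := by
    have h2 : ContinuousOn (fun x => 2 * C1 * (φ x ^ 2 / ‖x‖ ^ 2)) {x : E3 | 2 ≤ ‖x‖ ∧ ‖x‖ ≤ R'} := by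
      apply ContinuousOn.mul continuousOn_const
      apply ContinuousOn.div
      · exact ((hφ.continuousOn).mono hcA).pow 2
      · exact (continuous_norm.pow 2).continuousOn
      · intro x hx
        have := hx.1
        positivity
    refine (h2.integrableOn_compact hcomp).mono_set ?_
    rw [hD]
    exact fun x hx => ⟨hx.1, hx.2.le⟩
  have hAint : IntegrableOn (fun x => 2 * ∑ i, pd i φ x ^ 2) (Ann R) := hint.const_mul 2
  have hI1 : Integrable ((Ann R).indicator fun x => 2 * ∑ i, pd i φ x ^ 2) := (integrable_indicator_iff hAm).2 hAint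
  have hI2 : Integrable (D.indicator fun x => 2 * C1 * (φ x ^ 2 / ‖x‖ ^ 2)) := (integrable_indicator_iff hDm).2 hDint
  have h2 : ∫ x, ∑ i, pd i u x ^ 2 ≤ 2 * (∫ x in Ann R, ∑ i, pd i φ x ^ 2) +
      2 * C1 * ∫ x in D, φ x ^ 2 / ‖x‖ ^ 2 := by
    calc ∫ x, ∑ i, pd i u x ^ 2 ≤ ∫ x, ((Ann R).indicator (fun x => 2 * ∑ i, pd i φ x ^ 2) x +
          D.indicator (fun x => 2 * C1 * (φ x ^ 2 / ‖x‖ ^ 2)) x) := by
          apply integral_mono_of_nonneg
          · exact Eventually.of_forall fun x => Finset.sum_nonneg fun i _ => sq_nonneg _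
          · exact hI1.add hI2
          · exact Eventually.of_forall hpt
      _ = _ := by
          rw [integral_add hI1 hI2, integral_indicator hAm, integral_indicator hDm, integral_const_mul,
            integral_const_mul]
  have h3 := hhardy R R' φ B hR' hR'R hφ hint hB hbd
  rw [← hD] at h3
  obtain ⟨I, hI⟩ : ∃ I, I = ∫ x in Ann R, ∑ i, pd i φ x ^ 2 := ⟨_, rfl⟩
  have hI0 : 0 ≤ I := by
    rw [hI]
    exact setIntegral_nonneg hAm fun x _ => Finset.sum_nonneg fun i _ => sq_nonneg _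
  rw [← hI] at h2 h3 hA
  have h4 : ∫ x, ∑ i, pd i u x ^ 2 ≤ (2 + 2 * C1 * C2) * (A + B) := by
    have h5 : 2 * C1 * ∫ x in D, φ x ^ 2 / ‖x‖ ^ 2 ≤ 2 * C1 * (C2 * (B + I)) :=
      mul_le_mul_of_nonneg_left h3 (by positivity)
    have h6 : 2 * C1 * (C2 * (B + I)) ≤ 2 * C1 * (C2 * (B + A)) := by
      apply mul_le_mul_of_nonneg_left _ (by positivity)
      apply mul_le_mul_of_nonneg_left _ hC2.le
      linarith
    nlinarith
  have h5 : 0 ≤ ∫ x, ∑ i, pd i u x ^ 2 := integral_nonneg fun x => Finset.sum_nonneg fun i _ => sq_nonneg _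
  have h6 : ∫ x, u x ^ 6 ≤ C3 * ((2 + 2 * C1 * C2) * (A + B)) ^ 3 := by
    refine h1.trans (mul_le_mul_of_nonneg_left ?_ hC3.le)
    exact pow_le_pow_left₀ h5 h4 3
  have hSm : MeasurableSet {x : E3 | 4 ≤ ‖x‖ ∧ ‖x‖ ≤ R / 2} :=
    (measurableSet_le measurable_const measurable_norm).inter (measurableSet_le measurable_norm measurable_const)
  have h7 : ∫ x in {x : E3 | 4 ≤ ‖x‖ ∧ ‖x‖ ≤ R / 2}, φ x ^ 6 =
      ∫ x in {x : E3 | 4 ≤ ‖x‖ ∧ ‖x‖ ≤ R / 2}, u x ^ 6 := by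
    apply setIntegral_congr_fun hSm
    intro x hx
    rw [hu]
    simp only
    rw [hζ1 x hx.1 hx.2, one_mul]
  have h8 : Integrable fun x => u x ^ 6 := by
    apply (hucd.continuous.pow 6).integrable_of_hasCompactSupport
    refine husupp.mono ?_
    intro x hx
    rw [Function.mem_support] at hx ⊢
    intro h0
    exact hx (by show u x ^ 6 = 0; rw [h0]; norm_num)
  have h9 : ∫ x in {x : E3 | 4 ≤ ‖x‖ ∧ ‖x‖ ≤ R / 2}, u x ^ 6 ≤ ∫ x, u x ^ 6 :=
    setIntegral_le_integral h8 (Eventually.of_forall fun x => by show 0 ≤ u x ^ 6; positivity)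
  rw [h7]
  calc _ ≤ C3 * ((2 + 2 * C1 * C2) * (A + B)) ^ 3 := h9.trans h6
    _ = C3 * (2 + 2 * C1 * C2) ^ 3 * (A + B) ^ 3 := by ring

end UMB.R
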