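import Pool.Agent.Lib.UMB.R.A8
import Pool.Agent.Lib.UMB.R.H4
import Pool.Agent.Lib.UMB.R.E4
import Pool.Agent.Lib.UMB.R.E1c

set_option autoImplicit false

/-!
# UMB.R chunk E5: the rounding theorem (R3) from the hypotheses `In`
-/

open Filter Topology Set MeasureTheory
open scoped ContDiff

namespace UMB.R

open Pool.Agent.Lib.PenroseSph (E3 Tens pd trg)
open UMB.Lin (Ann cAnn sig)

theorem e5_set (R : ℝ) : MeasurableSet {x : E3 | 4 ≤ ‖x‖ ∧ ‖x‖ ≤ R / 2} :=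
  ((isClosed_le continuous_const continuous_norm).inter (isClosed_le continuous_norm continuous_const)).measurableSet

theorem e5_compact (R : ℝ) : IsCompact {x : E3 | 4 ≤ ‖x‖ ∧ ‖x‖ ≤ R / 2} := by
  apply (isCompact_closedBall (0 : E3) (R / 2)).of_isClosed_subset
    ((isClosed_le continuous_const continuous_norm).inter (isClosed_le continuous_norm continuous_const))
  intro x hx
  rw [mem_closedBall_zero_iff]
  exact hx.2

/-- **E5a.** `φ = √s - √(CC⁻¹)` on `Ann R`: `φ` is smooth (A4a), `pd i φ = pd i √s`, so with A8 (`κ = P.kap v`, `p0 = 1 + q`) and H4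
(`B = 1`, `R ≥ 32`): `∫_{4 ≤ |x| ≤ R/2} φ⁶ ≤ C (C (1 + Dm) + 1)³`. The shell lies in `{4 ≤ |x| ≤ R/2}`, and
`√(CC s) - 1 = √CC φ`, `CC ≤ M`. -/
theorem six (Λ K Ce M Dm : ℝ) (hCe : 0 ≤ Ce) : ∃ S : ℝ, 0 ≤ S ∧ ∀ (P : Par) (v : E3 → ℝ) (m0 c3 : ℝ),
    In P v Λ K Ce M Dm m0 c3 → ∫ x in shl P v, |Real.sqrt (P.CC v * P.s v x) - 1| ^ 6 ≤ S := by
  obtain ⟨C8, hC8, h8⟩ := int_grad_W Λ K Ce hCe
  obtain ⟨C4, hC4, h4⟩ := sob_ann
  refine ⟨|M| ^ 3 * (C4 * (C8 * (1 + |Dm|) + 1) ^ 3), by positivity, ?_⟩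
  intro P v m0 c3 h
  obtain ⟨hCC, hM, hR⟩ := h.CC_pos
  have hq := h.ok.q_pos
  have hmet := h.met
  obtain ⟨hsm, hspos⟩ := sv_smooth hmet h.expo h.kap h.ok.eps_pos h.smooth h.nonneg
  have hsm1 : ContDiffOn ℝ ∞ (fun y => Real.sqrt (sv P.g P.p (P.kap v) P.eps v y)) (Ann P.R) :=
    hsm.sqrt fun x hx => (hspos x hx).ne'
  set φ : E3 → ℝ := fun x => Real.sqrt (P.s v x) - Real.sqrt (P.CC v)⁻¹ with hφ
  have hφs : ContDiffOn ℝ ∞ φ (Ann P.R) := hsm1.sub contDiffOn_const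
  have hpd : ∀ x ∈ Ann P.R, ∑ i, pd i φ x ^ 2 =
      ∑ i, pd i (fun y => Real.sqrt (sv P.g P.p (P.kap v) P.eps v y)) x ^ 2 := by
    intro x hx
    refine Finset.sum_congr rfl fun i _ => ?_
    congr 1
    unfold pd
    rw [hφ]
    rw [fderiv_sub_const]
    rfl
  obtain ⟨hi, hle⟩ := h8 P.g P.k P.a P.R h.af h.cmp h.kk h.kb (1 + P.q) P.p h.expo (P.kap v) P.eps h.kap h.ok.eps_pos v
    h.smooth h.nonneg h.th (by
      have := h.eps2
      rw [show 1 + P.q - 1 = P.q by ring]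
      exact this)
  have hmeas : MeasurableSet (Ann P.R) := UMB.Lin.measurableSet_Ann P.R
  have hiφ : IntegrableOn (fun x => ∑ i, pd i φ x ^ 2) (Ann P.R) := by
    refine hi.congr_fun (fun x hx => ?_) hmeas
    exact (hpd x hx).symm
  have hA : ∫ x in Ann P.R, ∑ i, pd i φ x ^ 2 ≤ C8 * (1 + |Dm|) := by
    rw [setIntegral_congr_fun hmeas hpd]
    refine hle.trans (mul_le_mul_of_nonneg_left ?_ hC8)
    have := h.en
    have h2 : E.En P.g P.k P.R (P.th v) ≤ |Dm| := this.trans (le_abs_self _)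
    have h3 : E.En P.g P.k P.R (W.theta P.p (P.kap v) v) = E.En P.g P.k P.R (P.th v) := rfl
    rw [h3]
    linarith
  obtain ⟨R', hR1, hR2, hR3⟩ := h.bd
  have hR32 : 32 ≤ P.R := by
    have h1 := h.ok.r1_ge
    have h2 := h.ok.R1_ge
    have h3 := h.ok.R_ge
    linarith
  have hmain := h4 P.R R' φ (C8 * (1 + |Dm|)) 1 (by linarith) hR1 hR2 hφs hiφ hA zero_le_one hR3
  have hsub : shl P v ⊆ {x : E3 | 4 ≤ ‖x‖ ∧ ‖x‖ ≤ P.R / 2} := fun x hx => h.shell x hx.2 hx.1.1 hx.1.2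
  have hsub2 : {x : E3 | 4 ≤ ‖x‖ ∧ ‖x‖ ≤ P.R / 2} ⊆ Ann P.R := by
    intro x hx
    exact ⟨by linarith [hx.1], by linarith [hx.2]⟩
  have hi6 : IntegrableOn (fun x => φ x ^ 6) {x : E3 | 4 ≤ ‖x‖ ∧ ‖x‖ ≤ P.R / 2} :=
    ((hφs.continuousOn.mono hsub2).pow 6).integrableOn_compact (e5_compact P.R)
  have hpt : ∀ x ∈ shl P v, |Real.sqrt (P.CC v * P.s v x) - 1| ^ 6 = P.CC v ^ 3 * φ x ^ 6 := by
    intro x hx
    have h1 : Real.sqrt (P.CC v * P.s v x) = Real.sqrt (P.CC v) * Real.sqrt (P.s v x) := Real.sqrt_mul hCC.le _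
    have h2 : Real.sqrt (P.CC v) * Real.sqrt (P.CC v)⁻¹ = 1 := by
      rw [← Real.sqrt_mul hCC.le, mul_inv_cancel₀ hCC.ne', Real.sqrt_one]
    have h3 : Real.sqrt (P.CC v * P.s v x) - 1 = Real.sqrt (P.CC v) * φ x := by
      rw [hφ, h1]
      simp only
      rw [mul_sub, h2]
    rw [h3]
    have h5 : |Real.sqrt (P.CC v) * φ x| ^ 6 = (Real.sqrt (P.CC v) * φ x) ^ 6 := by
      rw [← abs_pow]
      exact abs_of_nonneg (by positivity)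
    rw [h5, mul_pow]
    congr 1
    have h6 : Real.sqrt (P.CC v) ^ 2 = P.CC v := Real.sq_sqrt hCC.le
    calc Real.sqrt (P.CC v) ^ 6 = (Real.sqrt (P.CC v) ^ 2) ^ 3 := by ring
      _ = P.CC v ^ 3 := by rw [h6]
  rw [setIntegral_congr_fun (meas_shell h.smooth) hpt, integral_const_mul]
  have h7 : ∫ x in shl P v, φ x ^ 6 ≤ ∫ x in {x : E3 | 4 ≤ ‖x‖ ∧ ‖x‖ ≤ P.R / 2}, φ x ^ 6 := by
    apply setIntegral_mono_set hi6
    · exact Eventually.of_forall fun x => by positivity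
    · exact hsub.eventuallyLE
  have h8' : P.CC v ^ 3 ≤ |M| ^ 3 := pow_le_pow_left₀ hCC.le (h.cc.trans (le_abs_self _)) 3
  have h9 : 0 ≤ ∫ x in shl P v, φ x ^ 6 := integral_nonneg fun x => by positivity
  exact mul_le_mul h8' (h7.trans hmain) h9 (by positivity)

/-- **E5.** E5a, E4b, E3 and `last_alg` (`a = 1021 Λ`, `b = 32 Λ M`). -/
theorem r3_core (Λ K Ce M Dm m0 c3 : ℝ) (hΛ : 0 < Λ) (hCe : 0 ≤ Ce) (hM : 0 ≤ M) (hm : 0 ≤ m0) (hc : 0 ≤ c3) :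
    ∃ C : ℝ, 0 < C ∧ ∀ (P : Par) (v : E3 → ℝ), In P v Λ K Ce M Dm m0 c3 → C ≤ Real.exp (P.T1 v / 2) →
      P.Err v ≤ C * Real.exp (-(P.T1 v / 2)) := by
  obtain ⟨S, hS0, hS⟩ := six Λ K Ce M Dm hCe
  obtain ⟨C, hC0, hC⟩ := last_alg (a := 1021 * Λ) (b := 32 * Λ * M) (m0 := m0) (c3 := c3) (S := S) (by positivity)
    (by positivity) hm hc hS0
  refine ⟨C, hC0, fun P v h hT => ?_⟩
  obtain ⟨h1, h2⟩ := h.err_le (hS P v m0 c3 h)
  exact hC (P.Err v) (volume.real (good P v)) (P.T1 v) (P.T2 v) h1 measureReal_nonneg h.T1 h.T12 h2 h.good_le hT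

end UMB.R
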