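import Pool.Agent.Lib.UMB.R.Defs

set_option autoImplicit false

/-!
# UMB.R chunk H1: radial cut-off functions
-/

open Filter Topology Set MeasureTheory
open scoped ContDiff

namespace UMB.R

open Pool.Agent.Lib.PenroseSph (E3 Tens pd trg)
open UMB.Lin (Ann cAnn sig)

/-- Derivative of a function of `|x|²`. -/
theorem h1_pd {g : ℝ → ℝ} {g' : ℝ} {x : E3} (hg : HasDerivAt g g' (‖x‖ ^ 2)) (i : Fin 3) :
    pd i (fun y : E3 => g (‖y‖ ^ 2)) x = g' * (2 * x i) := by
  have h1 : HasFDerivAt (fun y : E3 => ‖y‖ ^ 2) (2 • (innerSL ℝ x)) x := (hasStrictFDerivAt_norm_sq x).hasFDerivAt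
  have h2 : HasFDerivAt (fun y : E3 => g (‖y‖ ^ 2)) (g' • (2 • (innerSL ℝ x))) x := hg.comp_hasFDerivAt x h1
  unfold pd
  rw [h2.fderiv]
  simp only [ContinuousLinearMap.smul_apply, innerSL_apply_apply, smul_eq_mul, nsmul_eq_mul]
  have h3 : inner ℝ x (EuclideanSpace.single i (1 : ℝ) : E3) = x i := by
    rw [EuclideanSpace.inner_single_right]
    simp
  rw [h3]
  push_cast
  ring

theorem h1_sum_sq (x : E3) : ∑ i, x i ^ 2 = ‖x‖ ^ 2 := (EuclideanSpace.real_norm_sq_eq x).symm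

theorem h1_st_deriv (s : ℝ) : HasDerivAt Real.smoothTransition (deriv Real.smoothTransition s) s :=
  ((Real.smoothTransition.contDiff (n := 1)).differentiable (by norm_num) s).hasDerivAt

/-- **H1a.** Inner cut-off: `ζ x = smoothTransition (|x|² - 3)` is smooth, `0` for `|x|² ≤ 3`, `1` for `|x| ≥ 2`, and
`x . ∇ζ ≥ 0` (`smoothTransition` is monotone, so its derivative is `≥ 0`). -/
theorem cut_in : ∃ ζ : E3 → ℝ, ContDiff ℝ ∞ ζ ∧ (∀ x, 0 ≤ ζ x ∧ ζ x ≤ 1) ∧ (∀ x : E3, ‖x‖ ≤ 3 / 2 → ζ x = 0) ∧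
    (∀ x : E3, 2 ≤ ‖x‖ → ζ x = 1) ∧ ∀ x : E3, 0 ≤ ∑ i, x i * pd i ζ x := by
  refine ⟨fun x => Real.smoothTransition (‖x‖ ^ 2 - 3), ?_, ?_, ?_, ?_, ?_⟩
  · exact (Real.smoothTransition.contDiff (n := (⊤ : ℕ∞))).comp ((contDiff_norm_sq ℝ).sub contDiff_const)
  · intro x
    exact ⟨Real.smoothTransition.nonneg _, Real.smoothTransition.le_one _⟩
  · intro x hx
    apply Real.smoothTransition.zero_of_nonpos
    have := norm_nonneg x
    nlinarith
  · intro x hx
    apply Real.smoothTransition.one_of_one_le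
    nlinarith
  · intro x
    have h1 : HasDerivAt (fun s : ℝ => Real.smoothTransition (s - 3)) (deriv Real.smoothTransition (‖x‖ ^ 2 - 3))
        (‖x‖ ^ 2) := by
      have h2 := (h1_st_deriv (‖x‖ ^ 2 - 3)).comp (‖x‖ ^ 2) ((hasDerivAt_id (‖x‖ ^ 2)).sub_const 3)
      rw [mul_one] at h2
      exact h2
    have h3 : ∀ i, x i * pd i (fun y : E3 => Real.smoothTransition (‖y‖ ^ 2 - 3)) x =
        2 * deriv Real.smoothTransition (‖x‖ ^ 2 - 3) * x i ^ 2 := by
      intro i
      rw [h1_pd h1 i]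
      ring
    simp_rw [h3]
    rw [← Finset.mul_sum, h1_sum_sq]
    have h4 : 0 ≤ deriv Real.smoothTransition (‖x‖ ^ 2 - 3) := Real.smoothTransition.monotone.deriv_nonneg
    positivity

/-- The derivative of `smoothTransition` is bounded and vanishes outside `[0, 1]`. -/
theorem h1_st : ∃ C : ℝ, 0 ≤ C ∧ (∀ s, |deriv Real.smoothTransition s| ≤ C) ∧
    (∀ s, s < 0 → deriv Real.smoothTransition s = 0) ∧ ∀ s, 1 < s → deriv Real.smoothTransition s = 0 := by
  have h0 : ∀ s, s < 0 → deriv Real.smoothTransition s = 0 := by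
    intro s hs
    have h1 : Real.smoothTransition =ᶠ[𝓝 s] fun _ => 0 := by
      filter_upwards [Iio_mem_nhds hs] with t ht
      exact Real.smoothTransition.zero_of_nonpos (le_of_lt ht)
    rw [h1.deriv_eq, deriv_const]
  have h1 : ∀ s, 1 < s → deriv Real.smoothTransition s = 0 := by
    intro s hs
    have h1 : Real.smoothTransition =ᶠ[𝓝 s] fun _ => 1 := by
      filter_upwards [Ioi_mem_nhds hs] with t ht
      exact Real.smoothTransition.one_of_one_le (le_of_lt ht)
    rw [h1.deriv_eq, deriv_const]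
  have hc : Continuous (deriv Real.smoothTransition) :=
    (Real.smoothTransition.contDiff (n := 1)).continuous_deriv (by norm_num)
  obtain ⟨C, hC⟩ := (isCompact_Icc (a := (0 : ℝ)) (b := 1)).exists_bound_of_continuousOn hc.continuousOn
  refine ⟨|C|, abs_nonneg _, ?_, h0, h1⟩
  intro s
  rcases lt_or_ge s 0 with hs | hs
  · rw [h0 s hs, abs_zero]
    exact abs_nonneg _
  rcases lt_or_ge 1 s with hs' | hs'
  · rw [h1 s hs', abs_zero]
    exact abs_nonneg _
  have := hC s ⟨hs, hs'⟩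
  rw [Real.norm_eq_abs] at this
  exact this.trans (le_abs_self _)

/-- **H1b.** Cut-off for the Sobolev inequality: `ζ x = smoothTransition ((|x|² - 4)/12) · smoothTransition ((9/16 - |x|²/R²)/(5/16))`
is smooth, `1` for `4 ≤ |x| ≤ R/2`, `0` for `|x| ≤ 2` and for `|x| ≥ 3R/4`, and `|x| |∇ζ| ≤ C` with an absolute `C`
(`|smoothTransition'| ≤ C0`: continuous, zero outside `[0,1]`; on the supports `|x|²/12 ≤ 16/12`, `|x|²/R² ≤ 9/16`). -/
theorem cut_sob : ∃ C : ℝ, 0 < C ∧ ∀ R : ℝ, 16 ≤ R → ∃ ζ : E3 → ℝ, ContDiff ℝ ∞ ζ ∧ (∀ x, 0 ≤ ζ x ∧ ζ x ≤ 1) ∧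
    (∀ x : E3, ‖x‖ ≤ 2 → ζ x = 0) ∧ (∀ x : E3, 3 * R / 4 ≤ ‖x‖ → ζ x = 0) ∧
    (∀ x : E3, 4 ≤ ‖x‖ → ‖x‖ ≤ R / 2 → ζ x = 1) ∧ ∀ x : E3, ‖x‖ ^ 2 * ∑ i, pd i ζ x ^ 2 ≤ C := by
  obtain ⟨C0, hC0, hb, h0, h1⟩ := h1_st
  refine ⟨4 * (C0 * (4 / 3) + C0 * (9 / 5)) ^ 2 + 1, by positivity, ?_⟩
  intro R hR
  have hR0 : 0 < R := by linarith
  have hR2 : 0 < R ^ 2 := by positivity
  refine ⟨fun x => Real.smoothTransition ((‖x‖ ^ 2 - 4) / 12) *
    Real.smoothTransition ((9 / 16 - ‖x‖ ^ 2 / R ^ 2) / (5 / 16)), ?_, ?_, ?_, ?_, ?_, ?_⟩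
  · apply ContDiff.mul
    · exact (Real.smoothTransition.contDiff (n := (⊤ : ℕ∞))).comp (((contDiff_norm_sq ℝ).sub contDiff_const).div_const 12)
    · exact (Real.smoothTransition.contDiff (n := (⊤ : ℕ∞))).comp
        ((contDiff_const.sub ((contDiff_norm_sq ℝ).div_const (R ^ 2))).div_const (5 / 16))
  · intro x
    exact ⟨mul_nonneg (Real.smoothTransition.nonneg _) (Real.smoothTransition.nonneg _),
      mul_le_one₀ (Real.smoothTransition.le_one _) (Real.smoothTransition.nonneg _) (Real.smoothTransition.le_one _)⟩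
  · intro x hx
    have h2 : Real.smoothTransition ((‖x‖ ^ 2 - 4) / 12) = 0 := by
      apply Real.smoothTransition.zero_of_nonpos
      have := norm_nonneg x
      have h3 : ‖x‖ ^ 2 ≤ 4 := by nlinarith
      linarith
    simp only [h2, zero_mul]
  · intro x hx
    have h2 : Real.smoothTransition ((9 / 16 - ‖x‖ ^ 2 / R ^ 2) / (5 / 16)) = 0 := by
      apply Real.smoothTransition.zero_of_nonpos
      have h3 : 9 / 16 ≤ ‖x‖ ^ 2 / R ^ 2 := by
        rw [le_div_iff₀ hR2]
        have h4 : (3 * R / 4) ^ 2 ≤ ‖x‖ ^ 2 := pow_le_pow_left₀ (by positivity) hx 2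
        linarith
      rw [div_le_iff₀ (by norm_num)]
      linarith
    simp only [h2, mul_zero]
  · intro x hx hx'
    have h2 : Real.smoothTransition ((‖x‖ ^ 2 - 4) / 12) = 1 := by
      apply Real.smoothTransition.one_of_one_le
      have h3 : 16 ≤ ‖x‖ ^ 2 := by nlinarith
      linarith
    have h4 : Real.smoothTransition ((9 / 16 - ‖x‖ ^ 2 / R ^ 2) / (5 / 16)) = 1 := by
      apply Real.smoothTransition.one_of_one_le
      have h5 : ‖x‖ ^ 2 / R ^ 2 ≤ 1 / 4 := by
        rw [div_le_iff₀ hR2]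
        have h6 : ‖x‖ ^ 2 ≤ (R / 2) ^ 2 := pow_le_pow_left₀ (norm_nonneg x) hx' 2
        linarith
      rw [le_div_iff₀ (by norm_num)]
      linarith
    simp only [h2, h4, mul_one]
  · intro x
    obtain ⟨s, hs⟩ : ∃ s, s = ‖x‖ ^ 2 := ⟨_, rfl⟩
    have hs0 : 0 ≤ s := by rw [hs]; positivity
    obtain ⟨u, hu⟩ : ∃ u, u = (s - 4) / 12 := ⟨_, rfl⟩
    obtain ⟨v, hv⟩ : ∃ v, v = (9 / 16 - s / R ^ 2) / (5 / 16) := ⟨_, rfl⟩
    obtain ⟨G', hG'⟩ : ∃ G', G' = deriv Real.smoothTransition u * (1 / 12) * Real.smoothTransition v +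
        Real.smoothTransition u * (deriv Real.smoothTransition v * (-(1 / R ^ 2) / (5 / 16))) := ⟨_, rfl⟩
    have hd : HasDerivAt (fun s : ℝ => Real.smoothTransition ((s - 4) / 12) *
        Real.smoothTransition ((9 / 16 - s / R ^ 2) / (5 / 16))) G' (‖x‖ ^ 2) := by
      rw [← hs, hG', hu, hv]
      apply HasDerivAt.mul
      · exact (h1_st_deriv ((s - 4) / 12)).comp s (((hasDerivAt_id s).sub_const 4).div_const 12)
      · exact (h1_st_deriv ((9 / 16 - s / R ^ 2) / (5 / 16))).comp s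
          ((((hasDerivAt_id s).div_const (R ^ 2)).const_sub (9 / 16)).div_const (5 / 16))
    have h2 : ∀ i, pd i (fun y : E3 => Real.smoothTransition ((‖y‖ ^ 2 - 4) / 12) *
        Real.smoothTransition ((9 / 16 - ‖y‖ ^ 2 / R ^ 2) / (5 / 16))) x = G' * (2 * x i) := fun i => h1_pd hd i
    simp_rw [h2]
    have h3 : ∑ i, (G' * (2 * x i)) ^ 2 = 4 * G' ^ 2 * s := by
      have h4 : ∀ i, (G' * (2 * x i)) ^ 2 = 4 * G' ^ 2 * x i ^ 2 := fun i => by ring
      simp_rw [h4]
      rw [← Finset.mul_sum, h1_sum_sq, hs]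
    rw [h3, ← hs]
    have h5 : |s * G'| ≤ C0 * (4 / 3) + C0 * (9 / 5) := by
      have h6 : s * G' = (s * deriv Real.smoothTransition u * (1 / 12)) * Real.smoothTransition v +
          Real.smoothTransition u * (s * deriv Real.smoothTransition v * (-(1 / R ^ 2) / (5 / 16))) := by
        rw [hG']
        ring
      have h7 : |s * deriv Real.smoothTransition u * (1 / 12)| ≤ C0 * (4 / 3) := by
        rcases le_or_gt u 1 with hu1 | hu1
        · have h8 : s ≤ 16 := by rw [hu] at hu1; linarith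
          rw [abs_mul, abs_mul, abs_of_nonneg hs0, abs_of_pos (by norm_num : (0 : ℝ) < 1 / 12)]
          have h9 := hb u
          have h10 := abs_nonneg (deriv Real.smoothTransition u)
          nlinarith
        · rw [h1 u hu1]
          simp only [mul_zero, zero_mul, abs_zero]
          positivity
      have h8 : |s * deriv Real.smoothTransition v * (-(1 / R ^ 2) / (5 / 16))| ≤ C0 * (9 / 5) := by
        rcases lt_or_ge v 0 with hv0 | hv0
        · rw [h0 v hv0]
          simp only [mul_zero, zero_mul, abs_zero]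
          positivity
        · have h9 : s / R ^ 2 ≤ 9 / 16 := by
            rw [hv, le_div_iff₀ (by norm_num)] at hv0
            linarith
          have h10 : s * deriv Real.smoothTransition v * (-(1 / R ^ 2) / (5 / 16)) =
              -(deriv Real.smoothTransition v * (s / R ^ 2 * (16 / 5))) := by
            field_simp
          have h11 : 0 ≤ s / R ^ 2 := by positivity
          rw [h10, abs_neg, abs_mul, abs_of_nonneg (by positivity : 0 ≤ s / R ^ 2 * (16 / 5))]
          have h12 := hb v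
          calc _ ≤ C0 * (9 / 16 * (16 / 5)) := by
                apply mul_le_mul h12 _ (by positivity) hC0
                linarith
            _ = C0 * (9 / 5) := by ring
      rw [h6]
      refine (abs_add_le _ _).trans (add_le_add ?_ ?_)
      · rw [abs_mul, abs_of_nonneg (Real.smoothTransition.nonneg v)]
        exact (mul_le_of_le_one_right (abs_nonneg _) (Real.smoothTransition.le_one v)).trans h7
      · rw [abs_mul, abs_of_nonneg (Real.smoothTransition.nonneg u)]
        exact (mul_le_of_le_one_left (abs_nonneg _) (Real.smoothTransition.le_one u)).trans h8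
    have h6 : s * (4 * G' ^ 2 * s) = 4 * (s * G') ^ 2 := by ring
    rw [h6, ← sq_abs]
    have h7 : |s * G'| ^ 2 ≤ (C0 * (4 / 3) + C0 * (9 / 5)) ^ 2 := pow_le_pow_left₀ (abs_nonneg _) h5 2
    linarith

end UMB.R
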