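import Pool.Agent.Lib.UMB.R.H1
import Pool.Agent.Lib.UMB.E.P8c

set_option autoImplicit false

/-!
# UMB.R chunk H2: Hardy inequality in the annulus
-/

open Filter Topology Set MeasureTheory
open scoped ContDiff

namespace UMB.R

open Pool.Agent.Lib.PenroseSph (E3 Tens pd trg)
open UMB.Lin (Ann cAnn sig)

theorem h2_line {f : E3 → ℝ} {x : E3} (hf : DifferentiableAt ℝ f x) (i : Fin 3) :
    HasDerivAt (fun t : ℝ => f (x + t • (EuclideanSpace.single i (1 : ℝ) : E3))) (pd i f x) 0 := by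
  have h1 : HasDerivAt (fun t : ℝ => x + t • (EuclideanSpace.single i (1 : ℝ) : E3))
      (EuclideanSpace.single i (1 : ℝ) : E3) 0 := by
    have h2 := ((hasDerivAt_id (0 : ℝ)).smul_const (EuclideanSpace.single i (1 : ℝ) : E3)).const_add x
    rw [one_smul] at h2
    exact h2
  have h3 : HasFDerivAt f (fderiv ℝ f x) (x + (0 : ℝ) • (EuclideanSpace.single i (1 : ℝ) : E3)) := by
    rw [zero_smul, add_zero]
    exact hf.hasFDerivAt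
  exact h3.comp_hasDerivAt (0 : ℝ) h1

theorem h2_G_smooth {R : ℝ} {φ ζ : E3 → ℝ} (hφ : ContDiffOn ℝ ∞ φ (Ann R)) (hζ : ContDiff ℝ ∞ ζ) (i : Fin 3) :
    ContDiffOn ℝ ∞ (fun y => ζ y * φ y ^ 2 * y i / ‖y‖ ^ 2) (Ann R) := by
  have hc : ContDiff ℝ ∞ (fun y : E3 => y i) := (EuclideanSpace.proj i : E3 →L[ℝ] ℝ).contDiff
  refine ContDiffOn.div ((hζ.contDiffOn.mul (hφ.pow 2)).mul hc.contDiffOn) (contDiff_norm_sq ℝ).contDiffOn ?_
  intro x hx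
  have : 1 < ‖x‖ := hx.1
  positivity

theorem h2_pdG {R : ℝ} {φ ζ : E3 → ℝ} (hφ : ContDiffOn ℝ ∞ φ (Ann R)) (hζ : ContDiff ℝ ∞ ζ) {x : E3} (hx : x ∈ Ann R)
    (i : Fin 3) : pd i (fun y => ζ y * φ y ^ 2 * y i / ‖y‖ ^ 2) x =
      (((pd i ζ x * φ x ^ 2 + ζ x * (2 * φ x * pd i φ x)) * x i + ζ x * φ x ^ 2) * ‖x‖ ^ 2
        - ζ x * φ x ^ 2 * x i * (2 * x i)) / (‖x‖ ^ 2) ^ 2 := by
  have hx0 : 0 < ‖x‖ ^ 2 := by
    have : 1 < ‖x‖ := hx.1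
    positivity
  have hdφ : DifferentiableAt ℝ φ x := E.p8c_diff hφ hx
  have hdζ : DifferentiableAt ℝ ζ x := hζ.differentiable (by simp) x
  have hdG : DifferentiableAt ℝ (fun y => ζ y * φ y ^ 2 * y i / ‖y‖ ^ 2) x := E.p8c_diff (h2_G_smooth hφ hζ i) hx
  have e0 : x + (0 : ℝ) • (EuclideanSpace.single i (1 : ℝ) : E3) = x := by rw [zero_smul, add_zero]
  have l1 := h2_line hdζ i
  have l2 := h2_line hdφ i
  have l3 : HasDerivAt (fun t : ℝ => (x + t • (EuclideanSpace.single i (1 : ℝ) : E3)) i) 1 0 := by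
    have h1 := ((hasDerivAt_id (0 : ℝ)).mul_const (1 : ℝ)).const_add (x i)
    rw [one_mul] at h1
    refine h1.congr_of_eventuallyEq (Filter.Eventually.of_forall fun t => ?_)
    simp
  have l4 : HasDerivAt (fun t : ℝ => ‖x + t • (EuclideanSpace.single i (1 : ℝ) : E3)‖ ^ 2) (2 * x i) 0 := by
    have h1 : ∀ t : ℝ, ‖x + t • (EuclideanSpace.single i (1 : ℝ) : E3)‖ ^ 2 = ‖x‖ ^ 2 + 2 * t * x i + t ^ 2 := by
      intro t
      rw [norm_add_sq_real, norm_smul, real_inner_smul_right, EuclideanSpace.inner_single_right]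
      simp
      ring
    have h2 : HasDerivAt (fun t : ℝ => ‖x‖ ^ 2 + 2 * t * x i + t ^ 2) (0 + 2 * 1 * x i + 2 * 0) 0 := by
      have h3 := (((hasDerivAt_id (0 : ℝ)).const_mul 2).mul_const (x i)).const_add (‖x‖ ^ 2)
      have h4 := (hasDerivAt_pow 2 (0 : ℝ))
      have h5 := h3.add h4
      refine h5.congr_deriv ?_
      simp
    simp only [h1]
    refine h2.congr_deriv ?_
    ring
  have l5 := ((l1.mul (l2.pow 2)).mul l3).div l4 (by rw [e0]; exact hx0.ne')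
  have l6 := h2_line hdG i
  have l7 := l6.unique l5
  rw [l7]
  simp only [Pi.mul_apply, Pi.pow_apply, e0]
  ring

/-- **H2a.** Pointwise: with `ζ` of H1a and `F i = ζ φ² x_i/|x|²` (`div (x/|x|²) = 1/|x|²` in dimension 3):
`∑ ∂_i F_i = ζ φ²/|x|² + 2 ζ φ (x.∇φ)/|x|² + (x.∇ζ) φ²/|x|² ≥ ζ φ²/(2|x|²) - 2 ζ |∇φ|²`
(`|x.∇φ| ≤ |x| |∇φ|`, `2ab ≤ a²/2 + 2b²`). -/
theorem hardy_ptw {R : ℝ} {φ ζ : E3 → ℝ} (hφ : ContDiffOn ℝ ∞ φ (Ann R)) (hζ : ContDiff ℝ ∞ ζ)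
    (h0 : ∀ x, 0 ≤ ζ x) (h1 : ∀ x : E3, 0 ≤ ∑ i, x i * pd i ζ x) {x : E3} (hx : x ∈ Ann R) :
    ζ x * φ x ^ 2 / (2 * ‖x‖ ^ 2) - 2 * ζ x * ∑ i, pd i φ x ^ 2 ≤
      ∑ i, pd i (fun y => ζ y * φ y ^ 2 * y i / ‖y‖ ^ 2) x := by
  have hx1 : 1 < ‖x‖ := hx.1
  have hN : 0 < ‖x‖ ^ 2 := by positivity
  have hNs : ‖x‖ ^ 2 = x 0 ^ 2 + x 1 ^ 2 + x 2 ^ 2 := by
    rw [EuclideanSpace.real_norm_sq_eq, Fin.sum_univ_three]
  have hz := h0 x
  have hz1 := h1 x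
  simp only [h2_pdG hφ hζ hx]
  rw [Fin.sum_univ_three] at hz1
  simp only [Fin.sum_univ_three]
  set N := ‖x‖ ^ 2 with hNdef
  set D : ℝ := x 0 * pd 0 φ x + x 1 * pd 1 φ x + x 2 * pd 2 φ x with hD
  set Z : ℝ := x 0 * pd 0 ζ x + x 1 * pd 1 ζ x + x 2 * pd 2 ζ x with hZ
  set Q : ℝ := pd 0 φ x ^ 2 + pd 1 φ x ^ 2 + pd 2 φ x ^ 2 with hQ
  have hsum : (((pd 0 ζ x * φ x ^ 2 + ζ x * (2 * φ x * pd 0 φ x)) * x 0 + ζ x * φ x ^ 2) * N
        - ζ x * φ x ^ 2 * x 0 * (2 * x 0)) / N ^ 2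
      + (((pd 1 ζ x * φ x ^ 2 + ζ x * (2 * φ x * pd 1 φ x)) * x 1 + ζ x * φ x ^ 2) * N
        - ζ x * φ x ^ 2 * x 1 * (2 * x 1)) / N ^ 2
      + (((pd 2 ζ x * φ x ^ 2 + ζ x * (2 * φ x * pd 2 φ x)) * x 2 + ζ x * φ x ^ 2) * N
        - ζ x * φ x ^ 2 * x 2 * (2 * x 2)) / N ^ 2
      = ζ x * φ x ^ 2 / N + 2 * ζ x * φ x * D / N + Z * φ x ^ 2 / N := by
    have e1 : ζ x * φ x ^ 2 / N + 2 * ζ x * φ x * D / N + Z * φ x ^ 2 / N
        = ((ζ x * φ x ^ 2 + 2 * ζ x * φ x * D + Z * φ x ^ 2) * N) / N ^ 2 := by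
      field_simp
    rw [e1, ← add_div, ← add_div]
    congr 1
    rw [hD, hZ]
    have e2 : ζ x * φ x ^ 2 * (x 0 ^ 2 + x 1 ^ 2 + x 2 ^ 2) = ζ x * φ x ^ 2 * N := by rw [hNs]
    linear_combination (-2) * e2
  rw [hsum]
  have hDQ : D ^ 2 ≤ N * Q := by
    rw [hNs, hD, hQ]
    nlinarith [sq_nonneg (x 0 * pd 1 φ x - x 1 * pd 0 φ x), sq_nonneg (x 0 * pd 2 φ x - x 2 * pd 0 φ x),
      sq_nonneg (x 1 * pd 2 φ x - x 2 * pd 1 φ x)]
  have h2 : 0 ≤ ζ x * ((φ x + 2 * D) ^ 2) := mul_nonneg hz (sq_nonneg _)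
  have h3 : 0 ≤ ζ x * (N * Q - D ^ 2) := mul_nonneg hz (by linarith)
  have h4 : 0 ≤ Z * φ x ^ 2 := mul_nonneg hz1 (sq_nonneg _)
  have h5 : ζ x * φ x ^ 2 / N + 2 * ζ x * φ x * D / N + Z * φ x ^ 2 / N
      - (ζ x * φ x ^ 2 / (2 * N) - 2 * ζ x * Q)
      = (ζ x * (φ x + 2 * D) ^ 2 / 2 + 2 * (ζ x * (N * Q - D ^ 2)) + Z * φ x ^ 2) / N := by
    field_simp
    ring
  have h6 : 0 ≤ (ζ x * (φ x + 2 * D) ^ 2 / 2 + 2 * (ζ x * (N * Q - D ^ 2)) + Z * φ x ^ 2) / N := by positivity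
  linarith

/-- **H2.** `E.div_sub` (E/P6.lean) on `Ann R'` for `F i = ζ φ² x_i/|x|²` (zero for `1 < |x| < 3/2`): the boundary term is
`R'² ∫ φ(R'n)² (R' n_i) n_i/R'² dn = R' ∫ φ(R'n)² dn ≤ B · sig(univ) = 4 π B` (`∑ n_i² = 1`; finite measure; or keep
`sig.real univ` in the constant). With H2a, `∫_{Ann R'} ζ |∇φ|² ≤ ∫_{Ann R} |∇φ|²` and `ζ = 1` for `|x| ≥ 2`. All integrands are
continuous on `Ann R ⊇ closure` away from `|x| = 1`, where `ζ` vanishes: bounded on `Ann R'`. -/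
theorem hardy : ∃ C : ℝ, 0 < C ∧ ∀ (R R' : ℝ) (φ : E3 → ℝ) (B : ℝ), 2 < R' → R' < R → ContDiffOn ℝ ∞ φ (Ann R) →
    IntegrableOn (fun x => ∑ i, pd i φ x ^ 2) (Ann R) → 0 ≤ B → (∀ x : E3, ‖x‖ = R' → R' * φ x ^ 2 ≤ B) →
    ∫ x in {x : E3 | 2 ≤ ‖x‖ ∧ ‖x‖ < R'}, φ x ^ 2 / ‖x‖ ^ 2 ≤ C * (B + ∫ x in Ann R, ∑ i, pd i φ x ^ 2) := by
  obtain ⟨ζ, hζ, hζ01, hζ0, hζ1, hζx⟩ := cut_in
  refine ⟨2 * (sig.real univ) + 4, by positivity, ?_⟩
  intro R R' φ B hR' hR'R hφ hint hB0 hB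
  have hR0 : 0 < R' := by linarith
  set F : Fin 3 → E3 → ℝ := fun i y => ζ y * φ y ^ 2 * y i / ‖y‖ ^ 2 with hF
  have hFs : ∀ i, ContDiffOn ℝ ∞ (F i) (Ann R) := fun i => h2_G_smooth hφ hζ i
  have hz : ∀ x : E3, 1 < ‖x‖ → ‖x‖ < 1 + 1 / 2 → ζ x = 0 := fun x _ hx => hζ0 x (by linarith)
  have hF0 : ∀ (i : Fin 3) (x : E3), 1 < ‖x‖ → ‖x‖ < 1 + 1 / 2 → F i x = 0 := by
    intro i x h1 h2
    simp only [hF, hz x h1 h2]
    simp
  have hdiv := E.div_sub (fun i => (hFs i).of_le (by norm_cast)) (s := 1 / 2) (by norm_num) hF0 (R' := R') (by linarith) hR'R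
  have hpφ : ∀ i, ContinuousOn (pd i φ) (Ann R) := fun i => (smooth_pd (UMB.Lin.isOpen_Ann R) hφ i).continuousOn
  have hcQ : ContinuousOn (fun x => ∑ i, pd i φ x ^ 2) (Ann R) := continuousOn_finsetSum _ fun i _ => (hpφ i).pow 2
  have hcN : ContinuousOn (fun x : E3 => ‖x‖ ^ 2) (Ann R) := by fun_prop
  have hNpos : ∀ x ∈ Ann R, (‖x‖ ^ 2 : ℝ) ≠ 0 := by
    intro x hx
    have : 1 < ‖x‖ := hx.1
    positivity
  have i1 : IntegrableOn (fun x => ∑ i, pd i (F i) x) (Ann R') := by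
    refine E.p8c_int hR'R ?_ (s := 1 / 2) (by norm_num) ?_
    · exact continuousOn_finsetSum _ fun i _ => (smooth_pd (UMB.Lin.isOpen_Ann R) (hFs i) i).continuousOn
    · intro x hx1 hx2
      refine Finset.sum_eq_zero fun i _ => ?_
      refine E.p8c_pd_zero (U := {x : E3 | 1 < ‖x‖ ∧ ‖x‖ < 1 + 1 / 2}) ?_ ?_ i ⟨hx1, hx2⟩
      · exact (isOpen_lt continuous_const continuous_norm).inter (isOpen_lt continuous_norm continuous_const)
      · intro y hy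
        exact hF0 i y hy.1 hy.2
  have i2 : IntegrableOn (fun x => ζ x * φ x ^ 2 / ‖x‖ ^ 2) (Ann R') := by
    refine E.p8c_int hR'R ?_ (s := 1 / 2) (by norm_num) ?_
    · exact (hζ.continuous.continuousOn.mul (hφ.continuousOn.pow 2)).div hcN hNpos
    · intro x hx1 hx2
      rw [hz x hx1 hx2]
      simp
  have i3 : IntegrableOn (fun x => ζ x * ∑ i, pd i φ x ^ 2) (Ann R') := by
    refine E.p8c_int hR'R ?_ (s := 1 / 2) (by norm_num) ?_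
    · exact hζ.continuous.continuousOn.mul hcQ
    · intro x hx1 hx2
      rw [hz x hx1 hx2]
      simp
  have hsub : Ann R' ⊆ Ann R := fun x hx => ⟨hx.1, lt_trans hx.2 hR'R⟩
  -- boundary term
  have hbd : R' ^ 2 * ∫ n : Metric.sphere (0 : E3) 1, ∑ i, F i (R' • (n : E3)) * (n : E3) i ∂sig ≤ sig.real univ * B := by
    rw [← integral_const_mul]
    have h1 : ‖∫ n : Metric.sphere (0 : E3) 1, R' ^ 2 * ∑ i, F i (R' • (n : E3)) * (n : E3) i ∂sig‖ ≤ B * sig.real univ := by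
      refine norm_integral_le_of_norm_le_const ?_
      filter_upwards with n
      have hn : ‖(n : E3)‖ = 1 := by simp
      have hxn : ‖R' • (n : E3)‖ = R' := by
        rw [norm_smul, hn, mul_one, Real.norm_eq_abs, abs_of_pos hR0]
      have hns : (n : E3) 0 ^ 2 + (n : E3) 1 ^ 2 + (n : E3) 2 ^ 2 = 1 := by
        have h2 := EuclideanSpace.real_norm_sq_eq (n : E3)
        rw [hn, Fin.sum_univ_three] at h2
        linarith
      have e1 : R' ^ 2 * ∑ i, F i (R' • (n : E3)) * (n : E3) i = ζ (R' • (n : E3)) * (R' * φ (R' • (n : E3)) ^ 2) := by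
        simp only [hF, Fin.sum_univ_three, hxn]
        have e2 : ∀ i, (R' • (n : E3)) i = R' * (n : E3) i := fun i => rfl
        rw [e2, e2, e2]
        have hR1 : R' ≠ 0 := hR0.ne'
        field_simp
        linear_combination (ζ (R' • (n : E3)) * φ (R' • (n : E3)) ^ 2) * hns
      rw [e1]
      have h3 := hB (R' • (n : E3)) hxn
      have h4 := hζ01 (R' • (n : E3))
      have h5 : 0 ≤ R' * φ (R' • (n : E3)) ^ 2 := by positivity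
      rw [Real.norm_eq_abs, abs_of_nonneg (mul_nonneg h4.1 h5)]
      exact (mul_le_of_le_one_left h5 h4.2).trans h3
    rw [Real.norm_eq_abs] at h1
    exact (le_abs_self _).trans (h1.trans (le_of_eq (mul_comm _ _)))
  have hmain : (∫ x in Ann R', ζ x * φ x ^ 2 / ‖x‖ ^ 2) / 2 - 2 * ∫ x in Ann R', ζ x * ∑ i, pd i φ x ^ 2
      ≤ ∫ x in Ann R', ∑ i, pd i (F i) x := by
    have h1 : (∫ x in Ann R', ζ x * φ x ^ 2 / ‖x‖ ^ 2) / 2 - 2 * ∫ x in Ann R', ζ x * ∑ i, pd i φ x ^ 2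
        = ∫ x in Ann R', ((ζ x * φ x ^ 2 / ‖x‖ ^ 2) / 2 - 2 * (ζ x * ∑ i, pd i φ x ^ 2)) := by
      rw [integral_sub (i2.div_const 2) (i3.const_mul 2), integral_div, integral_const_mul]
    rw [h1]
    refine setIntegral_mono_on ((i2.div_const 2).sub (i3.const_mul 2)) i1 (UMB.Lin.measurableSet_Ann R') ?_
    intro x hx
    have h2 := hardy_ptw hφ hζ (fun x => (hζ01 x).1) hζx (hsub hx)
    have h3 : ζ x * φ x ^ 2 / ‖x‖ ^ 2 / 2 = ζ x * φ x ^ 2 / (2 * ‖x‖ ^ 2) := by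
      rw [div_div, mul_comm (‖x‖ ^ 2) 2]
    rw [h3]
    linarith
  have hgrad : ∫ x in Ann R', ζ x * ∑ i, pd i φ x ^ 2 ≤ ∫ x in Ann R, ∑ i, pd i φ x ^ 2 := by
    calc ∫ x in Ann R', ζ x * ∑ i, pd i φ x ^ 2 ≤ ∫ x in Ann R', ∑ i, pd i φ x ^ 2 := by
          refine setIntegral_mono_on i3 (hint.mono_set hsub) (UMB.Lin.measurableSet_Ann R') fun x _ => ?_
          exact mul_le_of_le_one_left (Finset.sum_nonneg fun i _ => sq_nonneg _) (hζ01 x).2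
      _ ≤ ∫ x in Ann R, ∑ i, pd i φ x ^ 2 := by
          refine setIntegral_mono_set hint ?_ (Filter.Eventually.of_forall hsub)
          filter_upwards with x
          exact Finset.sum_nonneg fun i _ => sq_nonneg _
  have hleft : ∫ x in {x : E3 | 2 ≤ ‖x‖ ∧ ‖x‖ < R'}, φ x ^ 2 / ‖x‖ ^ 2 ≤ ∫ x in Ann R', ζ x * φ x ^ 2 / ‖x‖ ^ 2 := by
    have hm : MeasurableSet {x : E3 | 2 ≤ ‖x‖ ∧ ‖x‖ < R'} :=
      (isClosed_le continuous_const continuous_norm).measurableSet.inter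
        (isOpen_lt continuous_norm continuous_const).measurableSet
    have h1 : ∫ x in {x : E3 | 2 ≤ ‖x‖ ∧ ‖x‖ < R'}, φ x ^ 2 / ‖x‖ ^ 2
        = ∫ x in {x : E3 | 2 ≤ ‖x‖ ∧ ‖x‖ < R'}, ζ x * φ x ^ 2 / ‖x‖ ^ 2 := by
      refine setIntegral_congr_fun hm fun x hx => ?_
      rw [hζ1 x hx.1, one_mul]
    rw [h1]
    refine setIntegral_mono_set i2 ?_ (Filter.Eventually.of_forall ?_)
    · filter_upwards with x
      have := (hζ01 x).1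
      positivity
    · intro x hx
      exact ⟨by linarith [hx.1], hx.2⟩
  have hI0 : 0 ≤ ∫ x in Ann R, ∑ i, pd i φ x ^ 2 :=
    integral_nonneg fun x => Finset.sum_nonneg fun i _ => sq_nonneg _
  have hS0 : 0 ≤ sig.real univ := measureReal_nonneg
  rw [hdiv] at hmain
  have hfin : ∫ x in Ann R', ζ x * φ x ^ 2 / ‖x‖ ^ 2 ≤ 2 * (sig.real univ * B) + 4 * ∫ x in Ann R, ∑ i, pd i φ x ^ 2 := by
    linarith
  have h7 := mul_nonneg hS0 hI0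
  nlinarith

end UMB.R
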